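import Pool.Agent.K9h53.LQ.Stm
import Pool.Agent.W78.GR.SC

/-!
Project LQ (helper53): the main frequency of the indicator function of the elements with first
coordinate coprime to `a`.
-/

set_option autoImplicit false

namespace Pool.Agent.K9h53.LQ

open Finset Filter
open Pool.Agent.H376R2.MR (w)
open Pool.Agent.W78.GR hiding GG PE sedge S_PAIR S_BETW gl_mul S_U0 S_A0 S_MR S_ELE S_DEC S_MOM
  S_MOM0 S_MOMP S_CELLE
open Pool.Agent.W78.GA (bg_nonneg bg_le)

variable {t c a : ℤ} {η : (Qd t c)ˣ}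

open scoped Classical in
/-- the shift -/
noncomputable def jj (a : ℤ) (z : Qd t c) : ℕ :=
  ∏ p ∈ a.toNat.primeFactors.filter (fun p : ℕ => ¬ (p : ℤ) ∣ z.re), p

/-- the sheared element -/
noncomputable def sh (a : ℤ) (z : Qd t c) : Qd t c := ⟨z.re + (jj a z : ℤ) * z.im, z.im⟩

lemma jj_le (ha : 0 < a) (z : Qd t c) : jj a z ≤ a.toNat := by
  classical
  have h1 : jj a z ∣ ∏ p ∈ a.toNat.primeFactors, p := by
    unfold jj
    exact Finset.prod_dvd_prod_of_subset _ _ _ (filter_subset _ _)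
  exact Nat.le_of_dvd (by omega) (h1.trans (Nat.prod_primeFactors_dvd _))

lemma sh_prim {z : Qd t c} (hz : prim z) : prim (sh a z) := by
  unfold prim at *
  rw [← Int.isCoprime_iff_gcd_eq_one] at *
  unfold sh
  simp only
  exact IsCoprime.add_mul_right_left hz _

lemma sh_cop (ha : 0 < a) {z : Qd t c} (hz : prim z) : IsCoprime (sh a z).re a := by
  classical
  rw [Int.isCoprime_iff_gcd_eq_one]
  by_contra hne
  obtain ⟨p, hp, hpd⟩ := Nat.exists_prime_and_dvd hne
  have h1 : (p : ℤ) ∣ (sh a z).re := (Int.natCast_dvd_natCast.2 hpd).trans (Int.gcd_dvd_left _ _)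
  have h2 : (p : ℤ) ∣ a := (Int.natCast_dvd_natCast.2 hpd).trans (Int.gcd_dvd_right _ _)
  have haN : (a.toNat : ℤ) = a := Int.toNat_of_nonneg ha.le
  have hpa : p ∣ a.toNat := by
    rw [← haN] at h2
    exact_mod_cast h2
  have hpp : Prime (p : ℤ) := Nat.prime_iff_prime_int.1 hp
  unfold sh at h1
  simp only at h1
  by_cases h3 : (p : ℤ) ∣ z.re
  · have h4 : (p : ℤ) ∣ (jj a z : ℤ) * z.im := by
      have := dvd_sub h1 h3
      simpa using this
    rcases hpp.dvd_or_dvd h4 with h5 | h5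
    · have h6 : p ∣ jj a z := by exact_mod_cast h5
      unfold jj at h6
      rw [(Nat.prime_iff.1 hp).dvd_finset_prod_iff] at h6
      obtain ⟨q, hq, hpq⟩ := h6
      rw [mem_filter] at hq
      have h7 : p = q := (Nat.prime_dvd_prime_iff_eq hp (Nat.prime_of_mem_primeFactors hq.1)).1 hpq
      rw [← h7] at hq
      exact hq.2 h3
    · unfold prim at hz
      have h6 : (p : ℤ) ∣ (Int.gcd z.re z.im : ℤ) := Int.dvd_coe_gcd h3 h5
      rw [hz] at h6
      have h7 : p ∣ 1 := by exact_mod_cast h6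
      exact hp.one_lt.ne' (Nat.dvd_one.1 h7)
  · have h4 : p ∣ jj a z := by
      unfold jj
      apply Finset.dvd_prod_of_mem (fun p : ℕ => p)
      rw [mem_filter]
      exact ⟨Nat.mem_primeFactors.2 ⟨hp, hpa, by omega⟩, h3⟩
    have h5 : (p : ℤ) ∣ (jj a z : ℤ) * z.im := Dvd.dvd.mul_right (by exact_mod_cast h4) _
    apply h3
    have := dvd_sub h1 h5
    simpa using this

lemma sh_s (z : Qd t c) : s1 (sh a z) = s1 z + jj a z * z.im ∧
    s2 (sh a z) = s2 z + jj a z * z.im := by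
  unfold s1 s2 sh
  simp only
  push_cast
  constructor <;> ring

lemma im_facts (U : Un t c η) {z : Qd t c} (hz : fd η z) :
    (0 : ℝ) ≤ z.im ∧ (z.im : ℝ) ≤ s1 z ∧ (z.im : ℝ) ≤ s1 (η : Qd t c) ^ 2 * s2 z := by
  obtain ⟨h1, h2⟩ := (U.fd_iff hz.1).1 hz
  have h5 := s1_sub_s2 z
  have hq : 2 ≤ Real.sqrt ((t : ℝ) ^ 2 - 4 * c) := by
    apply Real.le_sqrt_of_sq_le
    have := U.five_le
    linarith
  have hp2 := hz.1.2
  have hy0 : (0 : ℝ) ≤ z.im := by
    by_contra h
    push Not at h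
    have : (z.im : ℝ) * Real.sqrt ((t : ℝ) ^ 2 - 4 * c) < 0 := mul_neg_of_neg_of_pos h (by linarith)
    linarith
  have hy1 : (z.im : ℝ) * 2 ≤ z.im * Real.sqrt ((t : ℝ) ^ 2 - 4 * c) :=
    mul_le_mul_of_nonneg_left hq hy0
  refine ⟨hy0, by linarith, by linarith⟩

lemma sh_fd (U : Un t c η) {z : Qd t c} (hz : fd η z) : fd η (sh a z) := by
  obtain ⟨h1, h2⟩ := (U.fd_iff hz.1).1 hz
  obtain ⟨hy0, hy1, hy2⟩ := im_facts U hz
  obtain ⟨e1, e2⟩ := sh_s (a := a) z
  have hj : (0 : ℝ) ≤ jj a z := Nat.cast_nonneg _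
  have hjy : 0 ≤ (jj a z : ℝ) * z.im := mul_nonneg hj hy0
  have ht : tp (sh a z) := by
    constructor
    · rw [e1]; linarith [hz.1.1]
    · rw [e2]; linarith [hz.1.2]
  rw [U.fd_iff ht, e1, e2]
  refine ⟨by linarith, ?_⟩
  have he := U.s1_gt
  have h3 : 1 ≤ s1 (η : Qd t c) ^ 2 := by nlinarith
  have h4 : (jj a z : ℝ) * z.im ≤ s1 (η : Qd t c) ^ 2 * (jj a z * z.im) :=
    le_mul_of_one_le_left hjy h3
  linarith

lemma sh_nm (U : Un t c η) (ha : 0 < a) {z : Qd t c} (hz : fd η z) :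
    (nm z : ℝ) ≤ nm (sh a z) ∧
    (nm (sh a z) : ℝ) ≤ (1 + a) * (1 + a * s1 (η : Qd t c) ^ 2) * nm z := by
  obtain ⟨hy0, hy1, hy2⟩ := im_facts U hz
  obtain ⟨e1, e2⟩ := sh_s (a := a) z
  have hj : (0 : ℝ) ≤ jj a z := Nat.cast_nonneg _
  have hja : (jj a z : ℝ) ≤ a := by
    have h1 := jj_le ha z
    have h2 : ((jj a z : ℕ) : ℤ) ≤ a := by omega
    exact_mod_cast h2
  have hjy : 0 ≤ (jj a z : ℝ) * z.im := mul_nonneg hj hy0
  have haR : (0 : ℝ) < a := by exact_mod_cast ha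
  rw [nm_tp U.disc (sh_fd U hz).1, nm_tp U.disc hz.1, e1, e2]
  have hp1 := hz.1.1
  have hp2 := hz.1.2
  constructor
  · exact mul_le_mul (by linarith) (by linarith) hp2.le (by linarith)
  · have h1 : (jj a z : ℝ) * z.im ≤ a * s1 z := mul_le_mul hja hy1 hy0 haR.le
    have h2 : (jj a z : ℝ) * z.im ≤ a * (s1 (η : Qd t c) ^ 2 * s2 z) :=
      mul_le_mul hja hy2 hy0 haR.le
    have h3 : (s1 z + jj a z * z.im) * (s2 z + jj a z * z.im) ≤
        ((1 + a) * s1 z) * ((1 + a * s1 (η : Qd t c) ^ 2) * s2 z) := by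
      apply mul_le_mul
      · linarith
      · linarith
      · linarith
      · positivity
    linarith

/-- Task C -/
theorem a0_of (U : Un t c η) (ha : 0 < a) (h : Pool.Agent.W78.GR.S_A0 t c η) : S_A0 η a := by
  classical
  obtain ⟨c₀, hc₀, Y₀, h⟩ := h
  have haR : (0 : ℝ) < a := by exact_mod_cast ha
  have he := U.s1_gt
  have he1 : (0 : ℝ) < Real.exp 1 := Real.exp_pos 1
  obtain ⟨Q, hQ⟩ : ∃ Q : ℝ, Q = (1 + a) * (1 + a * s1 (η : Qd t c) ^ 2) := ⟨_, rfl⟩
  have hQ1 : 1 ≤ Q := by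
    rw [hQ]
    have h1 : (1 : ℝ) ≤ 1 + a := by linarith
    have h2 : 1 ≤ 1 + a * s1 (η : Qd t c) ^ 2 := by
      have : 0 ≤ a * s1 (η : Qd t c) ^ 2 := by positivity
      linarith
    nlinarith
  have hQ0 : 0 < Q := by linarith
  obtain ⟨I, hI⟩ : ∃ I : ℕ, I = ⌈Real.log Q⌉₊ + 2 := ⟨_, rfl⟩
  have hIR : Real.log Q + 2 ≤ I := by
    rw [hI]
    push_cast
    have := Nat.le_ceil (Real.log Q)
    linarith
  refine ⟨c₀ / (2 * Real.exp 1 ^ 2 * Q * (a + 1) * (I + 3)), by positivity, Real.exp (I + 2),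
    Real.one_le_exp (by positivity), Real.exp I * (|Y₀| + 1), fun X hX => ?_⟩
  obtain ⟨Y, hY⟩ : ∃ Y : ℝ, Y = X * Real.exp (-(I : ℝ)) := ⟨_, rfl⟩
  have hXY : X = Y * Real.exp I := by
    rw [hY, mul_assoc, ← Real.exp_add, neg_add_cancel, Real.exp_zero, mul_one]
  have hYbig : |Y₀| + 1 ≤ Y := by
    have h1 : Real.exp I * (|Y₀| + 1) ≤ Real.exp I * Y := by
      rw [mul_comm (Real.exp I) Y, ← hXY]; exact hX
    exact le_of_mul_le_mul_left h1 (Real.exp_pos _)
  have hab := abs_nonneg Y₀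
  have hY0 : 0 < Y := by linarith
  have hYY : Y₀ ≤ Y := by
    have := le_abs_self Y₀
    linarith
  have hA := h Y hYY
  -- the elements in the window
  obtain ⟨P, hP⟩ : ∃ P : Finset (Qd t c), P = (pball η (Real.exp 1 * Y)).filter
    (fun z => bg Y z ≠ 0) := ⟨_, rfl⟩
  have hPcard : c₀ * Y / Real.exp 1 ≤ (P.card : ℝ) := by
    have h1 : ∑ z ∈ pball η (Real.exp 1 * Y), bg Y z ≤ P.card * (Real.exp 1 / Y) := by
      rw [← Finset.sum_filter_ne_zero, ← hP]
      refine (sum_le_card_nsmul _ _ (Real.exp 1 / Y) ?_).trans (by rw [nsmul_eq_mul])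
      intro z hz
      rw [hP, mem_filter] at hz
      exact bg_le' U.disc hY0 (pball_tp U hz.1)
    have h2 := hA.trans h1
    rw [← mul_div_assoc, le_div_iff₀ hY0] at h2
    rw [div_le_iff₀ he1]
    exact h2
  obtain ⟨T, hT⟩ : ∃ T : Finset (Qd t c), T = (pball η (Real.exp 1 * Q * Y)).filter
    (fun z => IsCoprime z.re a ∧ Y / Real.exp 1 ≤ nm z) := ⟨_, rfl⟩
  have hTcard : P.card ≤ (a.toNat + 1) * T.card := by
    have hmap : P.card ≤ ((range (a.toNat + 1)) ×ˢ T).card := by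
      refine card_le_card_of_injOn (fun z => (jj a z, sh a z)) ?_ ?_
      · intro z hz
        rw [Finset.mem_coe, hP, mem_filter, U.mem_pball] at hz
        obtain ⟨⟨fz, pz, nz⟩, hb⟩ := hz
        obtain ⟨b1, b2⟩ := bg_ne U.disc hY0 fz.1 hb
        obtain ⟨n1, n2⟩ := sh_nm U ha fz
        rw [← hQ] at n2
        rw [Finset.mem_coe, mem_product, mem_range, hT, mem_filter, U.mem_pball]
        refine ⟨by have := jj_le ha z; simp only; omega, ⟨sh_fd U fz, sh_prim pz, ?_⟩,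
          sh_cop ha pz, b1.trans n1⟩
        calc (nm (sh a z) : ℝ) ≤ Q * nm z := n2
          _ ≤ Q * (Real.exp 1 * Y) := mul_le_mul_of_nonneg_left b2 hQ0.le
          _ = Real.exp 1 * Q * Y := by ring
      · intro z _ z' _ hzz
        simp only [Prod.mk.injEq] at hzz
        obtain ⟨h1, h2⟩ := hzz
        have h3 := congrArg QuadraticAlgebra.re h2
        have h4 := congrArg QuadraticAlgebra.im h2
        unfold sh at h3 h4
        simp only at h3 h4
        rw [h1, h4] at h3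
        exact QuadraticAlgebra.ext (by linarith) h4
    rw [card_product, card_range] at hmap
    exact hmap
  have hTcard' : (P.card : ℝ) ≤ (a + 1) * T.card := by
    have h1 : (P.card : ℝ) ≤ (((a.toNat + 1) * T.card : ℕ) : ℝ) := by exact_mod_cast hTcard
    refine h1.trans (le_of_eq ?_)
    push_cast
    have h2 : ((a.toNat : ℕ) : ℝ) = a := by
      have h3 : ((a.toNat : ℕ) : ℤ) = a := Int.toNat_of_nonneg ha.le
      exact_mod_cast h3
    rw [h2]
  -- the scales
  obtain ⟨ui, hui⟩ : ∃ ui : Qd t c → ℝ, ui = fun z => Real.log (nm z) - Real.log Y := ⟨_, rfl⟩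
  have hmem : ∀ z ∈ T, tp z ∧ prim z ∧ fd η z ∧ IsCoprime z.re a ∧ -1 ≤ ui z ∧
      ui z ≤ 1 + Real.log Q ∧ (nm z : ℝ) ≤ Real.exp 1 * Q * Y := by
    intro z hz
    rw [hT, mem_filter, U.mem_pball] at hz
    obtain ⟨⟨fz, pz, nz⟩, cz, lz⟩ := hz
    have hn := nm_posR U.disc fz.1
    refine ⟨fz.1, pz, fz, cz, ?_, ?_, nz⟩
    · rw [hui]
      simp only
      have h1 := Real.log_le_log (by positivity) lz
      rw [Real.log_div hY0.ne' he1.ne', Real.log_exp] at h1
      linarith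
    · rw [hui]
      simp only
      have h1 := Real.log_le_log hn nz
      rw [Real.log_mul (by positivity) hY0.ne', Real.log_mul he1.ne' hQ0.ne', Real.log_exp] at h1
      linarith
  have hround : ∀ z ∈ T, round (ui z) ∈ Finset.Icc (-2 : ℤ) I := by
    intro z hz
    obtain ⟨-, -, -, -, h1, h2, -⟩ := hmem z hz
    have h3 := abs_le.1 (abs_sub_round (ui z))
    rw [Finset.mem_Icc]
    constructor
    · have : (-2 : ℝ) < ((round (ui z) : ℤ) : ℝ) := by linarith
      have : ((-2 : ℤ) : ℝ) < ((round (ui z) : ℤ) : ℝ) := by push_cast; exact this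
      exact (by exact_mod_cast this : (-2 : ℤ) < round (ui z)).le
    · have : ((round (ui z) : ℤ) : ℝ) ≤ ((I : ℤ) : ℝ) := by push_cast; linarith
      exact_mod_cast this
  obtain ⟨Yi, hYi⟩ : ∃ Yi : ℤ → ℝ, Yi = fun i : ℤ => Y * Real.exp (i : ℝ) := ⟨_, rfl⟩
  have hYi0 : ∀ i, 0 < Yi i := by intro i; rw [hYi]; positivity
  have hval : ∀ z ∈ T, 1 / (2 * Real.exp 1 * Q * Y) ≤ bg (Yi (round (ui z))) z := by
    intro z hz
    obtain ⟨tz, -, -, -, h1, h2, h4⟩ := hmem z hz
    have hn := nm_posR U.disc tz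
    have h3 := abs_sub_round (ui z)
    unfold bg
    have e1 : Real.log (nm z) - Real.log (Yi (round (ui z))) = ui z - round (ui z) := by
      rw [hYi]
      simp only
      rw [Real.log_mul hY0.ne' (Real.exp_pos _).ne', Real.log_exp, hui]
      ring
    rw [e1]
    have h5 : 1 / 2 ≤ w (ui z - round (ui z)) := by
      unfold w
      refine le_trans ?_ (le_max_right _ _)
      linarith
    rw [div_le_div_iff₀ (by positivity) hn, one_mul]
    have h6 : (nm z : ℝ) ≤ 1 / 2 * (2 * Real.exp 1 * Q * Y) := by linarith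
    refine h6.trans ?_
    exact mul_le_mul_of_nonneg_right h5 (by positivity)
  have hsum : T.card * (1 / (2 * Real.exp 1 * Q * Y)) ≤ ∑ i ∈ Finset.Icc (-2 : ℤ) I,
      ∑ z ∈ (pball η (Real.exp 1 * Yi i)).filter (fun z => IsCoprime z.re a), bg (Yi i) z := by
    have h1 : (T.card : ℝ) * (1 / (2 * Real.exp 1 * Q * Y)) ≤
        ∑ z ∈ T, bg (Yi (round (ui z))) z := by
      have := card_nsmul_le_sum T (fun z => bg (Yi (round (ui z))) z) _ hval
      rwa [nsmul_eq_mul] at this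
    refine h1.trans ?_
    rw [← Finset.sum_fiberwise_of_maps_to hround]
    apply sum_le_sum
    intro i _
    have h2 : ∑ z ∈ T.filter (fun z => round (ui z) = i), bg (Yi (round (ui z))) z =
        ∑ z ∈ T.filter (fun z => round (ui z) = i), bg (Yi i) z := by
      apply sum_congr rfl
      intro z hz
      rw [(mem_filter.1 hz).2]
    rw [h2]
    apply sum_le_sum_of_subset_of_nonneg
    · intro z hz
      obtain ⟨hz1, hz2⟩ := mem_filter.1 hz
      obtain ⟨tz, pz, fz, cz, h3, h4, -⟩ := hmem z hz1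
      rw [mem_filter, U.mem_pball]
      refine ⟨⟨fz, pz, ?_⟩, cz⟩
      have hn := nm_posR U.disc tz
      have h5 := (abs_le.1 (abs_sub_round (ui z))).2
      rw [hz2] at h5
      have h6 : Real.log (nm z) ≤ Real.log (Real.exp 1 * Yi i) := by
        rw [hYi]
        simp only
        rw [Real.log_mul he1.ne' (by positivity), Real.log_mul hY0.ne' (Real.exp_pos _).ne',
          Real.log_exp, Real.log_exp]
        rw [hui] at h5
        simp only at h5
        linarith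
      exact (Real.log_le_log_iff hn (mul_pos he1 (hYi0 i))).1 h6
    · intro _ _ _
      exact bg_nonneg _ _
  -- pigeonhole
  by_contra hcon
  push Not at hcon
  have hlt : ∀ i ∈ Finset.Icc (-2 : ℤ) I,
      ∑ z ∈ (pball η (Real.exp 1 * Yi i)).filter (fun z => IsCoprime z.re a), bg (Yi i) z <
      c₀ / (2 * Real.exp 1 ^ 2 * Q * (a + 1) * (I + 3)) := by
    intro i hi
    rw [Finset.mem_Icc] at hi
    have hi1 : (-2 : ℝ) ≤ i := by exact_mod_cast hi.1
    have hi2 : (i : ℝ) ≤ I := by exact_mod_cast hi.2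
    refine hcon (Yi i) ?_ ?_
    · rw [hYi, hXY]
      simp only
      rw [div_le_iff₀ (Real.exp_pos _), mul_assoc, ← Real.exp_add]
      apply mul_le_mul_of_nonneg_left _ hY0.le
      apply Real.exp_le_exp.2
      linarith
    · rw [hYi, hXY]
      simp only
      apply mul_le_mul_of_nonneg_left _ hY0.le
      exact Real.exp_le_exp.2 hi2
  have hne : (Finset.Icc (-2 : ℤ) I).Nonempty := ⟨0, by rw [Finset.mem_Icc]; omega⟩
  have h3 := sum_lt_sum_of_nonempty hne hlt
  rw [sum_const, nsmul_eq_mul, Int.card_Icc] at h3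
  have h4 : (((I : ℤ) + 1 - -2).toNat : ℝ) = I + 3 := by
    have : ((I : ℤ) + 1 - -2).toNat = I + 3 := by omega
    rw [this]
    push_cast
    ring
  rw [h4] at h3
  have h5 : ((I : ℝ) + 3) * (c₀ / (2 * Real.exp 1 ^ 2 * Q * (a + 1) * (I + 3))) =
      c₀ / (2 * Real.exp 1 ^ 2 * Q * (a + 1)) := by
    field_simp
  rw [h5] at h3
  have h6 : c₀ * Y / Real.exp 1 ≤ (a + 1) * T.card := hPcard.trans hTcard'
  have h7 : c₀ / (2 * Real.exp 1 ^ 2 * Q * (a + 1)) ≤ T.card * (1 / (2 * Real.exp 1 * Q * Y)) := by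
    rw [mul_one_div, div_le_div_iff₀ (by positivity) (by positivity)]
    rw [div_le_iff₀ he1] at h6
    have h8 := mul_le_mul_of_nonneg_left h6 (by positivity : 0 ≤ 2 * Real.exp 1 * Q)
    calc c₀ * (2 * Real.exp 1 * Q * Y) = 2 * Real.exp 1 * Q * (c₀ * Y) := by ring
      _ ≤ 2 * Real.exp 1 * Q * ((a + 1) * T.card * Real.exp 1) := h8
      _ = T.card * (2 * Real.exp 1 ^ 2 * Q * (a + 1)) := by ring
  linarith

end Pool.Agent.K9h53.LQ
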