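import Pool.Agent.K9h53.LQ.Trans

/-!
Project LQ (helper53): the choice of the character modulo `a`.
-/

set_option autoImplicit false

namespace Pool.Agent.K9h53.LQ

open Finset Filter
open Pool.Agent.W78.GT
open Pool.Agent.W78.GS (Pm)

variable {g : ℕ → ℤ} {a b c₀ : ℤ}

lemma cop_shift {x y m : ℤ} (h : IsCoprime x m) (hd : m ∣ y - x) : IsCoprime y m := by
  obtain ⟨k, hk⟩ := hd
  have e : y = x + m * k := by linarith
  rw [e]
  exact IsCoprime.add_mul_left_left h _

theorem exists_char (hg : Pm g) (ha : 0 < a) (hD : 0 < b ^ 2 - 4 * (a * c₀))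
    (hns : ¬ IsSquare (b ^ 2 - 4 * (a * c₀))) :
    ∃ χ : ℤ → ℤ, Ch a χ ∧ SplOne (b ^ 2 - 4 * (a * c₀)) a χ ∧ χ (-1) = 1 ∧
      ∀ k r μ : ℤ, 0 < k → r ≤ 0 → IsCoprime r k → χ (r - k * μ) = 1 → Out g a b c₀ k r μ := by
  by_cases hnt : Nt (b ^ 2 - 4 * (a * c₀)) a
  · obtain ⟨χ, hχ, hs⟩ := ch_zero (D := b ^ 2 - 4 * (a * c₀)) ha.ne'
    -- values of the principal character
    have hval : ∀ x, χ x = 0 ∨ χ x = 1 ∨ χ x = -1 := hχ.val
    refine ⟨fun x => χ x ^ 2, ?_, ?_, ?_, ?_⟩
    · refine ⟨?_, ?_, ?_, ?_, ?_⟩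
      · intro x y
        rw [hχ.mul, mul_pow]
      · intro x y h
        rw [hχ.per x y h]
      · rw [hχ.one, one_pow]
      · intro x
        rcases hval x with h | h | h <;> simp [h]
      · intro x
        rw [← hχ.cop x]
        simp
    · intro q hq h1 h2
      simp only
      rw [hs q hq h1 h2, one_pow]
    · simp only
      have h1 : χ (-1) * χ (-1) = 1 := by
        rw [← hχ.mul, neg_mul_neg, one_mul, hχ.one]
      rw [pow_two, h1]
    · intro k r μ hk hr hrk hχv
      have hcop : IsCoprime (r - k * μ) a := by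
        rw [← hχ.cop]
        intro h0
        simp [h0] at hχv
      have hcopk : IsCoprime (r - k * μ) k := cop_shift hrk ⟨-μ, by ring⟩
      by_cases hnk : Nt (b ^ 2 - 4 * (a * c₀)) (k * a)
      · apply out_of_pj hg ha hD hns hk
        exact nt_pj hD.ne' (mul_pos hk ha).ne' hnk (hcopk.mul_right hcop)
      · obtain ⟨j, hj, hjμ⟩ : ∃ j : ℤ, 1 ≤ j ∧ a ∣ j - 1 - μ := by
          refine ⟨μ + 1 + a * |μ|, ?_, ⟨|μ|, by ring⟩⟩
          have h1 : |μ| ≤ a * |μ| := le_mul_of_one_le_left (abs_nonneg μ) (by linarith)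
          have h2 := neg_abs_le μ
          linarith
        have hk3 : 0 < j * k - r := by
          have : 0 < j * k := mul_pos (by linarith) hk
          linarith
        have hc3 : IsCoprime k (j * k - r) := by
          have h1 : IsCoprime (-r) k := hrk.neg_left
          exact (cop_shift h1 ⟨j, by ring⟩).symm
        have hn3 : Nt (b ^ 2 - 4 * (a * c₀)) ((j * k - r) * a) := by
          rcases nt_or hD.ne' ha.ne' hk.ne' hk3.ne' hc3 hnt with h | h
          · exact absurd h hnk
          · exact h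
        refine out_trans ha hD hk hr hj hjμ ?_ ?_
        · apply out_of_pj hg ha hD hns one_pos
          rw [one_mul, one_mul]
          refine nt_pj hD.ne' ha.ne' hnt ?_
          refine cop_shift (x := 1) isCoprime_one_left ?_
          obtain ⟨s, hs'⟩ := hjμ
          exact ⟨s, by linarith⟩
        · apply out_of_pj hg ha hD hns hk3
          rw [mul_zero, sub_zero]
          refine nt_pj hD.ne' (mul_pos hk3 ha).ne' hn3 ?_
          refine IsCoprime.mul_right ?_ ?_
          · refine cop_shift hc3 ⟨-1, by ring⟩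
          · refine cop_shift hcop ?_
            obtain ⟨s, hs'⟩ := hjμ
            refine ⟨-(k * s), ?_⟩
            have : j = a * s + 1 + μ := by linarith
            rw [this]
            ring
  · obtain ⟨χ, hχ, hs, hm, h⟩ := ch_jac hD ha.ne' hnt
    refine ⟨χ, hχ, hs, hm, ?_⟩
    intro k r μ hk hr hrk hχv
    have hcop : IsCoprime (r - k * μ) a := by
      rw [← hχ.cop, hχv]
      norm_num
    have hcopk : IsCoprime (r - k * μ) k := cop_shift hrk ⟨-μ, by ring⟩
    apply out_of_pj hg ha hD hns hk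
    exact h _ _ (Dvd.intro_left _ rfl) (mul_pos hk ha).ne' (hcopk.mul_right hcop) hχv

/-- the conclusion from the triples -/
theorem fin_of (hg : Pm g) (ha : 0 < a) (hD : 0 < b ^ 2 - 4 * (a * c₀))
    (hns : ¬ IsSquare (b ^ 2 - 4 * (a * c₀)))
    (h : ∀ χ : ℤ → ℤ, Ch a χ → SplOne (b ^ 2 - 4 * (a * c₀)) a χ → χ (-1) = 1 →
      S_TRI g χ a b c₀) : S_FIN g a b c₀ := by
  obtain ⟨χ, h1, h2, h3, h4⟩ := exists_char (g := g) hg ha hD hns
  exact fin_of_out (h χ h1 h2 h3) h4

end Pool.Agent.K9h53.LQ
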