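import Pool.Agent.W78.GS.Basic

/-!
Project LQ (helper53): the Matomaki-Radziwill method of projects GR, GS for a multiplicative
function of the totally positive elements of a real quadratic order (a function of the norm times a
character of the first coordinate), in place of a function of the norm. Definitions.
-/

set_option autoImplicit false

namespace Pool.Agent.K9h53.LQ

open Finset Filter Pool.Agent.W78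
open Pool.Agent.H376R2.MR (FK Fj)
open Pool.Agent.W78.GA (Qd nm prim bg dt ip lat NN cellM mE)
open Pool.Agent.W78.GR (tp Un fd)

variable {t c : ℤ}

/-- bounded, multiplicative on the totally positive elements, invariant under the unit -/
structure Tw (Gf : Qd t c → ℤ) (η : (Qd t c)ˣ) : Prop where
  abs : ∀ z, |Gf z| ≤ 1
  mul : ∀ {z w : Qd t c}, tp z → tp w → Gf (z * w) = Gf z * Gf w
  unit : Gf (η : Qd t c) = 1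

/-- `Gf` is `1` at the divisors of the elements of `M` -/
def NtOK (Gf : Qd t c → ℤ) (M : ℕ → Prop) : Prop :=
  ∀ m, M m → ∀ n : ℕ, n ∣ m → Gf (n : Qd t c) = 1

section Lemmas
variable {Gf : Qd t c → ℤ} {η : (Qd t c)ˣ}

lemma Tw.one (h : Tw Gf η) (U : Un t c η) : Gf 1 = 1 := by
  have h1 := h.mul (GR.tp_one (t := t) (c := c)) U.pos
  rw [one_mul, h.unit, mul_one] at h1
  exact h1.symm

lemma Tw.inv (h : Tw Gf η) (U : Un t c η) : Gf ((η⁻¹ : (Qd t c)ˣ) : Qd t c) = 1 := by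
  have h1 := h.mul U.tp_inv U.pos
  rw [← Units.val_mul, inv_mul_cancel, Units.val_one, h.one U, h.unit, mul_one] at h1
  exact h1.symm

lemma Tw.zpow (h : Tw Gf η) (U : Un t c η) (j : ℤ) :
    Gf ((η ^ j : (Qd t c)ˣ) : Qd t c) = 1 := by
  induction j with
  | zero => simpa using h.one U
  | succ n ih =>
    rw [zpow_add_one, Units.val_mul, h.mul (U.tp_zpow _) U.pos, ih, h.unit, one_mul]
  | pred n ih =>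
    rw [zpow_sub_one, Units.val_mul, h.mul (U.tp_zpow _) U.tp_inv, ih, h.inv U, one_mul]

lemma Tw.zpow_mul (h : Tw Gf η) (U : Un t c η) (j : ℤ) {z : Qd t c} (hz : tp z) :
    Gf (((η ^ j : (Qd t c)ˣ) : Qd t c) * z) = Gf z := by
  rw [h.mul (U.tp_zpow j) hz, h.zpow U, one_mul]

lemma Tw.abs_real (h : Tw Gf η) (z : Qd t c) : |(Gf z : ℝ)| ≤ 1 := by
  exact_mod_cast h.abs z

lemma Tw.norm_le (h : Tw Gf η) (z : Qd t c) : ‖(Gf z : ℂ)‖ ≤ 1 := by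
  rw [Complex.norm_intCast]
  exact h.abs_real z

lemma Tw.sq_le (h : Tw Gf η) (z : Qd t c) : (Gf z : ℝ) ^ 2 ≤ 1 := by
  rw [← sq_abs]
  exact pow_le_one₀ (abs_nonneg _) (h.abs_real z)

end Lemmas

variable (Gf : Qd t c → ℤ) (η : (Qd t c)ˣ)

/-- `G_Y(k) = ∑_{z primitive} G(z) w(log(N z/Y))/N z ps k z`, `z` in the fundamental domain -/
noncomputable def GG (Y : ℝ) (k : ℤ) : ℂ :=
  GR.DPG η (GR.pball η (Real.exp 1 * Y)) (fun z => (Gf z : ℂ) * (bg Y z : ℂ)) k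

/-- `- ∑_{m ∈ cell} G(ϖ_m) ps k (ϖ_m) / m` -/
noncomputable def PE (M : ℕ → Prop) (ϖ : ℕ → Qd t c) (H v : ℕ) (k : ℤ) : ℂ :=
  -∑ m ∈ cellM M H v, (Gf (ϖ m) : ℂ) * GR.ps η k (ϖ m) / (m : ℂ)

/-- DEC: the decomposition -/
def S_DEC : Prop := ∀ (Ap Bp M : ℕ → Prop) (E : ℕ) (ρ : ℕ → ℤ) (ϖ : ℕ → Qd t c),
  GR.Ele t c Ap Bp M E ρ ϖ → NtOK Gf M → ∃ C : ℝ, 0 < C ∧ ∀ H v₀ v₁ : ℕ, 1 ≤ H → H ≤ v₀ →
    1 ≤ ∑ v ∈ Ico v₀ v₁, mE M H v → ∀ Y : ℝ, Real.exp (4 * (v₁ : ℝ) / H) ≤ Y →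
    ∃ (s : Finset (Qd t c)) (f : Qd t c → ℂ), s ⊆ GR.pball η (Real.exp 2 * Y) ∧
      (∀ k : ℤ, GG Gf η Y k = -(1 / ((∑ v ∈ Ico v₀ v₁, mE M H v : ℝ) : ℂ)) *
        ∑ v ∈ Ico v₀ v₁, PE Gf η M ϖ H v k * GG Gf η (Y * Real.exp (-((v : ℝ) / H))) k +
        GR.DPG η s f k) ∧
      Y * ∑ z ∈ s, ‖f z‖ ^ 2 ≤ C * (1 / (∑ v ∈ Ico v₀ v₁, mE M H v) + 1 / (H : ℝ) ^ 2)

/-- MOM0: the mean values of `G` -/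
def S_MOM0 : Prop := ∃ C : ℝ, 0 < C ∧ ∀ (K : ℕ) (Z : ℝ), 3 ≤ Z →
    1 ≤ K → ∑ k ∈ FK K, ‖GG Gf η Z k‖ ^ 2 ≤ C * (1 + (K : ℝ) / Z)

/-- MOMP: the moments of `P` -/
def S_MOMP : Prop := ∀ (Ap Bp M : ℕ → Prop) (E : ℕ) (ρ : ℕ → ℤ) (ϖ : ℕ → Qd t c),
  GR.Ele t c Ap Bp M E ρ ϖ → ∃ C : ℝ, 1 ≤ C ∧ ∀ H r ℓ K : ℕ, 1 ≤ H → 1 ≤ K →
    (K : ℝ) ≤ Real.exp ((r : ℝ) * ℓ / H) →
    ∑ k ∈ FK K, ‖PE Gf η M ϖ H r k‖ ^ (2 * ℓ) ≤ C ^ (ℓ + 1) * (ℓ.factorial : ℝ) ^ 8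

/-- MOM: mixed moments -/
def S_MOM : Prop := ∀ (Ap Bp M : ℕ → Prop) (E : ℕ) (ρ : ℕ → ℤ) (ϖ : ℕ → Qd t c),
  GR.Ele t c Ap Bp M E ρ ϖ → ∃ C : ℝ, 1 ≤ C ∧ ∀ (H r ℓ K : ℕ) (Z : ℝ), 1 ≤ H → 3 ≤ Z → 1 ≤ K →
    (K : ℝ) ≤ Z * Real.exp ((r : ℝ) * ℓ / H) →
    ∑ k ∈ FK K, ‖PE Gf η M ϖ H r k ^ ℓ * GG Gf η Z k‖ ^ 2 ≤ C ^ (ℓ + 1) * (ℓ.factorial : ℝ) ^ 8

/-- CELLE -/
def S_CELLE : Prop := ∀ (Ap Bp M : ℕ → Prop) (E : ℕ) (ρ : ℕ → ℤ) (ϖ : ℕ → Qd t c),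
  GR.Ele t c Ap Bp M E ρ ϖ → ∃ c' : ℝ, 0 < c' ∧ c' ≤ 1 ∧ ∃ Λ : ℕ, ∀ M' H : ℕ, 1 ≤ H →
    ∃ V₀ : ℕ, ∀ v₀ v₁ : ℕ, V₀ ≤ v₀ → Λ * v₀ ≤ v₁ → ∀ k : ℤ, k ≠ 0 →
    |(k : ℝ)| ≤ Real.exp (M' * (v₀ : ℝ) / H) →
    ∑ v ∈ Ico v₀ v₁, ‖PE Gf η M ϖ H v k‖ ≤ (1 - c') * ∑ v ∈ Ico v₀ v₁, mE M H v

/-- ELE: a system of elements adapted to `G` -/
def S_ELE : Prop := ∃ (Ap Bp M : ℕ → Prop) (E : ℕ) (ρ : ℕ → ℤ) (ϖ : ℕ → Qd t c),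
  GR.Ele t c Ap Bp M E ρ ϖ ∧ NtOK Gf M

/-- MR: the Matomaki-Radziwill theorem for the angles in the order, for the function `G` -/
def S_MR : Prop := ∀ δ : ℝ, 0 < δ → ∃ h : ℝ, 1 ≤ h ∧ ∃ Y₀ : ℝ,
  ∀ Y : ℝ, Y₀ ≤ Y → ∑ k ∈ (FK ⌊Y / h⌋₊).erase 0, ‖GG Gf η Y k‖ ^ 2 ≤ δ

end Pool.Agent.K9h53.LQ
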