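import Pool.Agent.K9h53.LQ.Main
import Pool.Agent.TH890.DV.B3

/-!
Project LQ (helper53): from the factorisations to the values.
-/

set_option autoImplicit false

namespace Pool.Agent.K9h53.LQ

open Finset Filter
open Pool.Agent.H376R2.MR (lam)

variable {a b c₀ : ℤ}

/-- both signs: a positive proportion of the factorisations, and many values -/
def Both (g : ℕ → ℤ) (a b c₀ s : ℤ) : Prop :=
  (∃ κ : ℝ, 0 < κ ∧ ∃ N₀ : ℕ, ∀ N : ℕ, N₀ ≤ N → κ * N ≤
    (Set.ncard {p : ℕ × ℕ | 1 ≤ p.1 ∧ p.1 ≤ N ∧ 1 ≤ p.2 ∧ p.2 ≤ N ∧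
      (∃ n : ℕ, 1 ≤ n ∧ (p.1 : ℤ) * p.2 = a * n ^ 2 + b * n + c₀) ∧ g (p.1 * p.2) = s} : ℝ)) ∧
  ∀ ε : ℝ, 0 < ε → ∃ N₀ : ℕ, ∀ N : ℕ, N₀ ≤ N → (N : ℝ) / Real.log N ^ (Real.log 2 + ε) ≤
    (Set.ncard {n : ℕ | 1 ≤ n ∧ n ≤ N ∧ ∃ m : ℕ, 1 ≤ m ∧
      (m : ℤ) = a * (n : ℤ) ^ 2 + b * n + c₀ ∧ g m = s} : ℝ)

lemma pairs_fin (N : ℕ) (P : ℕ × ℕ → Prop) :
    {p : ℕ × ℕ | 1 ≤ p.1 ∧ p.1 ≤ N ∧ 1 ≤ p.2 ∧ p.2 ≤ N ∧ P p}.Finite := by
  refine ((Set.finite_Icc 1 N).prod (Set.finite_Icc 1 N)).subset ?_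
  rintro p ⟨h1, h2, h3, h4, -⟩
  exact ⟨⟨h1, h2⟩, h3, h4⟩

theorem both_of {g : ℕ → ℤ} (ha : 0 < a) (hns : ¬ IsSquare (b ^ 2 - 4 * (a * c₀)))
    (h : S_FIN g a b c₀) {s : ℤ} (hs : s = 1 ∨ s = -1) : Both g a b c₀ s := by
  classical
  obtain ⟨κ, X₀, hκ, hX⟩ := h s hs
  have haR : (1 : ℝ) ≤ a := by exact_mod_cast ha
  have haN : ((a.toNat : ℕ) : ℤ) = a := Int.toNat_of_nonneg ha.le
  have haNR : ((a.toNat : ℕ) : ℝ) = a := by exact_mod_cast haN
  constructor
  · refine ⟨κ, hκ, ⌈X₀⌉₊, fun N hN => ?_⟩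
    refine (hX N ((Nat.le_ceil _).trans (by exact_mod_cast hN))).trans ?_
    rw [← Set.ncard_coe_finset]
    apply Nat.cast_le.2
    apply Set.ncard_le_ncard _ (pairs_fin N _)
    intro p hp
    rw [Finset.mem_coe] at hp
    unfold PB at hp
    rw [mem_filter, mem_product, Finset.mem_Icc, Finset.mem_Icc, Nat.floor_natCast] at hp
    obtain ⟨⟨⟨h1, h2⟩, h3, h4⟩, t, h5, h6, h7, h8⟩ := hp
    refine ⟨h1, h2, h3, h4, ⟨t, h5, h7⟩, ?_⟩
    rw [← h8, ← h7]
    congr 1
  · -- the property of the values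
    obtain ⟨P, hP⟩ : ∃ P : ℕ → Prop, P = fun M : ℕ => ∃ n : ℕ, 1 ≤ n ∧ (M : ℤ) = a * fQ a b c₀ n ∧
      0 < fQ a b c₀ n ∧ g (fQ a b c₀ n).toNat = s := ⟨_, rfl⟩
    have hpairs : ∃ κ : ℝ, 0 < κ ∧ ∃ N₀ : ℕ, ∀ N : ℕ, N₀ ≤ N → κ * N ≤
      (Set.ncard {p : ℕ × ℕ | 1 ≤ p.1 ∧ p.1 ≤ N ∧ 1 ≤ p.2 ∧ p.2 ≤ N ∧
        (∃ n : ℤ, (p.1 : ℤ) * p.2 = n ^ 2 + b * n + a * c₀) ∧ P (p.1 * p.2)} : ℝ) := by
      refine ⟨κ / a, by positivity, ⌈a * |X₀|⌉₊, fun N hN => ?_⟩
      have hN' : a * |X₀| ≤ N := (Nat.le_ceil _).trans (by exact_mod_cast hN)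
      have h1 := hX (N / a) (by
        rw [le_div_iff₀ (by linarith)]
        have := le_abs_self X₀
        nlinarith)
      have e1 : κ / a * N = κ * (N / a) := by ring
      rw [e1]
      refine h1.trans ?_
      have hNa : (0 : ℝ) ≤ N / a := by positivity
      rw [← Set.ncard_coe_finset]
      apply Nat.cast_le.2
      refine Set.ncard_le_ncard_of_injOn (fun p : ℕ × ℕ => (p.1, a.toNat * p.2)) ?_ ?_
        (pairs_fin N _)
      · intro p hp
        rw [Finset.mem_coe] at hp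
        unfold PB at hp
        rw [mem_filter, mem_product, Finset.mem_Icc, Finset.mem_Icc] at hp
        obtain ⟨⟨⟨h1, h2⟩, h3, h4⟩, t, h5, h6, h7, h8⟩ := hp
        rw [Nat.le_floor_iff hNa, le_div_iff₀ (by linarith)] at h2 h4
        refine ⟨h1, ?_, Nat.mul_pos (by omega) h3, ?_, ⟨a * t, ?_⟩, ?_⟩
        · have h9 : (p.1 : ℝ) ≤ N := by
            refine le_trans ?_ h2
            exact le_mul_of_one_le_right (Nat.cast_nonneg _) haR
          exact_mod_cast h9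
        · have h9 : ((a.toNat * p.2 : ℕ) : ℝ) ≤ N := by
            push_cast
            rw [haNR]
            linarith
          exact_mod_cast h9
        · simp only
          push_cast
          rw [haN]
          unfold fQ at h7
          linear_combination a * h7
        · rw [hP]
          refine ⟨t, h5, ?_, h6, h8⟩
          simp only
          push_cast
          rw [haN, ← h7]
          ring
      · intro p _ q _ hpq
        simp only [Prod.mk.injEq] at hpq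
        have h3 : 0 < a.toNat := by omega
        exact Prod.ext hpq.1 (Nat.eq_of_mul_eq_mul_left h3 hpq.2)
    intro ε hε
    obtain ⟨N₁, hN₁⟩ := Pool.Agent.TH890.DV.upgrade hns hpairs (ε / 2) (by positivity)
    -- comparison of the bounds
    have hlog : Tendsto (fun N : ℕ => Real.log (N : ℝ) ^ (ε / 2)) atTop atTop :=
      (tendsto_rpow_atTop (by positivity)).comp
        (Real.tendsto_log_atTop.comp tendsto_natCast_atTop_atTop)
    have hbig : Tendsto (fun N : ℕ => (N : ℝ) / Real.log N ^ (Real.log 2 + ε)) atTop atTop := by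
      have h1 : Tendsto (fun x : ℝ => x / Real.log x ^ (Real.log 2 + ε)) atTop atTop := by
        have h2 := (isLittleO_log_rpow_rpow_atTop (Real.log 2 + ε)
          (one_pos)).tendsto_div_nhds_zero
        have h3 : Tendsto (fun x : ℝ => Real.log x ^ (Real.log 2 + ε) / x ^ (1 : ℝ)) atTop
            (nhdsWithin 0 (Set.Ioi 0)) := by
          rw [tendsto_nhdsWithin_iff]
          refine ⟨h2, ?_⟩
          filter_upwards [eventually_gt_atTop 1] with x hx
          have h4 : 0 < Real.log x := Real.log_pos hx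
          have h5 : 0 < x := by linarith
          exact div_pos (Real.rpow_pos_of_pos h4 _) (Real.rpow_pos_of_pos h5 _)
        refine h3.inv_tendsto_nhdsGT_zero.congr fun x => ?_
        rw [Pi.inv_apply, inv_div, Real.rpow_one]
      exact h1.comp tendsto_natCast_atTop_atTop
    obtain ⟨N₂, hN₂⟩ := eventually_atTop.1 ((hlog.eventually_ge_atTop 2).and
      ((hbig.eventually_ge_atTop (|(b : ℝ)| + 1)).and (eventually_ge_atTop 3)))
    refine ⟨max N₁ N₂, fun N hN => ?_⟩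
    obtain ⟨h1, h2, h3⟩ := hN₂ N ((le_max_right _ _).trans hN)
    have h4 := hN₁ N ((le_max_left _ _).trans hN)
    have hL : 0 < Real.log N := by
      apply Real.log_pos
      have : (3 : ℝ) ≤ N := by exact_mod_cast h3
      linarith
    have hN0 : (0 : ℝ) < N := by
      have : (3 : ℝ) ≤ N := by exact_mod_cast h3
      linarith
    obtain ⟨S, hS⟩ : ∃ S : Set ℕ, S = {n : ℕ | 1 ≤ n ∧ n ≤ N ∧ ∃ m : ℕ, (n : ℤ) ^ 2 + b * n +
      a * c₀ = m ∧ P m} := ⟨_, rfl⟩
    obtain ⟨T, hT⟩ : ∃ T : Set ℕ, T = {n : ℕ | 1 ≤ n ∧ n ≤ N ∧ ∃ m : ℕ, 1 ≤ m ∧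
      (m : ℤ) = a * (n : ℤ) ^ 2 + b * n + c₀ ∧ g m = s} := ⟨_, rfl⟩
    rw [← hS] at h4
    rw [← hT]
    have hTfin : T.Finite := by
      rw [hT]
      exact (Set.finite_Icc 1 N).subset fun n hn => ⟨hn.1, hn.2.1⟩
    have hsub : S ⊆ Set.Icc 1 b.natAbs ∪ (fun t : ℕ => a.toNat * t) '' T := by
      intro n hn
      rw [hS] at hn
      obtain ⟨n1, n2, m, hm, hPm⟩ := hn
      rw [hP] at hPm
      obtain ⟨t, t1, t2, t3, t4⟩ := hPm
      have h5 : ((n : ℤ) - a * t) * (n + a * t + b) = 0 := by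
        unfold fQ at t2
        linear_combination hm + t2
      rcases mul_eq_zero.1 h5 with h6 | h6
      · right
        have h7 : n = a.toNat * t := by
          have : (n : ℤ) = ((a.toNat * t : ℕ) : ℤ) := by
            push_cast
            rw [haN]
            linarith
          exact_mod_cast this
        refine ⟨t, ?_, h7.symm⟩
        rw [hT]
        refine ⟨t1, ?_, (fQ a b c₀ t).toNat, by omega, ?_, t4⟩
        · refine le_trans ?_ n2
          rw [h7]
          exact Nat.le_mul_of_pos_left _ (by omega)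
        · rw [Int.toNat_of_nonneg t3.le]
          rfl
      · left
        refine ⟨n1, ?_⟩
        have h7 : 0 ≤ a * (t : ℤ) := by positivity
        omega
    have hcard : (S.ncard : ℝ) ≤ |(b : ℝ)| + T.ncard := by
      have h5 := Set.ncard_le_ncard hsub ((Set.finite_Icc 1 _).union (hTfin.image _))
      have h6 := h5.trans (Set.ncard_union_le _ _)
      have h7 := Set.ncard_image_le (f := fun t : ℕ => a.toNat * t) hTfin
      have h8 : (Set.Icc 1 b.natAbs).ncard = b.natAbs := by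
        rw [← Finset.coe_Icc, Set.ncard_coe_finset, Nat.card_Icc]
        omega
      have h9 : S.ncard ≤ b.natAbs + T.ncard := by omega
      have h10 : ((b.natAbs : ℕ) : ℝ) = |(b : ℝ)| := by
        rw [Nat.cast_natAbs, Int.cast_abs]
      rw [← h10]
      exact_mod_cast h9
    have hpow : Real.log (N : ℝ) ^ (Real.log 2 + ε) =
        Real.log N ^ (Real.log 2 + ε / 2) * Real.log N ^ (ε / 2) := by
      rw [← Real.rpow_add hL]
      congr 1
      ring
    have hp1 : 0 < Real.log (N : ℝ) ^ (Real.log 2 + ε / 2) := Real.rpow_pos_of_pos hL _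
    have hp2 : 0 < Real.log (N : ℝ) ^ (Real.log 2 + ε) := Real.rpow_pos_of_pos hL _
    have h5 : 2 * ((N : ℝ) / Real.log N ^ (Real.log 2 + ε)) ≤
        (N : ℝ) / Real.log N ^ (Real.log 2 + ε / 2) := by
      rw [hpow, mul_div_assoc', div_le_div_iff₀ (by positivity) hp1]
      have h6 := mul_le_mul_of_nonneg_left h1 (mul_pos hN0 hp1).le
      linarith
    linarith

end Pool.Agent.K9h53.LQ
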