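import Pool.Agent.K9h53.LQ.EleX
import Pool.Agent.W54.GR.Pair
import Pool.Agent.W29.GR.Mult
import Pool.Agent.W78.GT.Basic

/-!
Project LQ (helper53): from near pairs to triples.
-/

set_option autoImplicit false

namespace Pool.Agent.K9h53.LQ

open Finset Filter
open Pool.Agent.W78.GR hiding GG PE sedge S_PAIR S_BETW gl_mul S_U0 S_A0 S_MR S_ELE S_DEC S_MOM
  S_MOM0 S_MOMP S_CELLE
open Pool.Agent.W78.GS (Pm)
open Pool.Agent.W54.GR (exists_primpart exists_dt_one dt_zero_tp abs_sinh_le sd_two prod_le)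
open Pool.Agent.W78.GT (Tr tri mem_tri Qp)

variable {g : ℕ → ℤ} {χ : ℤ → ℤ} {t c a : ℤ} {η : (Qd t c)ˣ}

lemma exists_lift {v y : Qd t c} (hv : prim v) (hy : prim y) (hk : 0 < dt v y) :
    ∃ (x : Qd t c) (r : ℤ), dt v x = 1 ∧ -(dt v y) < r ∧ r ≤ 0 ∧ IsCoprime r (dt v y) ∧
      y.re = r * v.re + dt v y * x.re ∧ y.im = r * v.im + dt v y * x.im := by
  obtain ⟨k, hkd⟩ : ∃ k : ℤ, k = dt v y := ⟨_, rfl⟩
  rw [← hkd] at hk ⊢
  obtain ⟨u0, hu0⟩ := exists_dt_one hv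
  obtain ⟨α, hα⟩ : ∃ α : ℤ, α = (y.re - k * u0.re) * u0.im - (y.im - k * u0.im) * u0.re :=
    ⟨_, rfl⟩
  have hu0' : v.re * u0.im - v.im * u0.re = 1 := hu0
  have hm' : v.re * y.im - v.im * y.re = k := hkd.symm
  have e1 : y.re = α * v.re + k * u0.re := by
    rw [hα]
    linear_combination (-y.re + k * u0.re) * hu0' + u0.re * hm' - k * u0.re * hu0'
  have e2 : y.im = α * v.im + k * u0.im := by
    rw [hα]
    linear_combination (-y.im + k * u0.im) * hu0' + u0.im * hm' - k * u0.im * hu0'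
  obtain ⟨β, hβ⟩ : ∃ β : ℤ, β = (-α) % k := ⟨_, rfl⟩
  have hβ0 : 0 ≤ β := by rw [hβ]; exact Int.emod_nonneg _ hk.ne'
  have hβk : β < k := by rw [hβ]; exact Int.emod_lt_of_pos _ hk
  obtain ⟨τ, hτ⟩ : ∃ τ : ℤ, -α = β + k * τ :=
    ⟨(-α) / k, by rw [hβ]; exact (Int.emod_add_mul_ediv _ _).symm⟩
  have h1 : y.re = -β * v.re + k * (u0.re - τ * v.re) := by
    rw [e1]; linear_combination (-v.re) * hτ
  have h2 : y.im = -β * v.im + k * (u0.im - τ * v.im) := by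
    rw [e2]; linear_combination (-v.im) * hτ
  refine ⟨⟨u0.re - τ * v.re, u0.im - τ * v.im⟩, -β, ?_, by linarith, by linarith, ?_, h1, h2⟩
  · unfold dt
    simp only
    linear_combination hu0'
  · unfold prim at hy
    rw [← Int.isCoprime_iff_gcd_eq_one] at hy
    obtain ⟨p, q, hpq⟩ := hy
    refine ⟨p * v.re + q * v.im, p * (u0.re - τ * v.re) + q * (u0.im - τ * v.im), ?_⟩
    rw [h1, h2] at hpq
    linear_combination hpq

/-- the trace of `v̄ x` -/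
lemma trace_pos (hd : 4 * c < t ^ 2) {v x : Qd t c} (hv : tp v) (hx : tp x) :
    0 < 2 * v.re * x.re + t * (v.re * x.im + v.im * x.re) + 2 * c * v.im * x.im := by
  have h := sq_sd hd
  have h1 : ((2 * v.re * x.re + t * (v.re * x.im + v.im * x.re) + 2 * c * v.im * x.im : ℤ) : ℝ) =
      s1 v * s2 x + s2 v * s1 x := by
    unfold s1 s2
    push_cast
    linear_combination ((v.im : ℝ) * x.im / 2) * h
  have h2 : 0 < s1 v * s2 x + s2 v * s1 x :=
    add_pos (mul_pos hv.1 hx.2) (mul_pos hv.2 hx.1)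
  rw [← h1] at h2
  exact_mod_cast h2

lemma cnd_of (hd : 4 * c < t ^ 2) (hac : a ∣ c) {v x y : Qd t c} {k r μ : ℤ}
    (hv : tp v) (hx : tp x) (hy : tp y) (hdt : dt v x = 1)
    (h1 : y.re = r * v.re + k * x.re) (h2 : y.im = r * v.im + k * x.im)
    (hg : g (nm v) ≠ g (nm y)) (hμ : a ∣ v.re * μ + x.re) :
    Cnd g a t k r μ (nm v, ip v x, nm x) := by
  have nv := nm_tp_int hd hv
  have nx := nm_tp_int hd hx
  have ny := nm_tp_int hd hy
  have hdt' : v.re * x.im - v.im * x.re = 1 := hdt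
  have hA : nA t k r (nm v) (ip v x) (nm x) = nm y := by
    rw [ny, h1, h2]
    unfold nA ip
    rw [nv, nx]
    linear_combination (-(r * k * t)) * hdt'
  have hB : nB t k r (nm v) (ip v x) =
      2 * v.re * y.re + t * (v.re * y.im + v.im * y.re) + 2 * c * v.im * y.im := by
    rw [h1, h2]
    unfold nB ip
    rw [nv]
    linear_combination (-(k * t)) * hdt'
  refine ⟨?_, ?_, ?_, ?_, ?_⟩
  · simp only
    rw [hA]
    exact_mod_cast nm_pos hd hy
  · simp only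
    rw [hB]
    exact (trace_pos hd hv hy).le
  · simp only
    rw [hA, Int.toNat_natCast]
    exact hg
  · simp only
    obtain ⟨s, hs⟩ := hμ
    obtain ⟨w, hw⟩ := hac
    rw [nv]
    unfold ip
    refine ⟨(v.re + t * v.im) * s + w * v.im * (v.im * μ + x.im), ?_⟩
    linear_combination (v.re + t * v.im) * hs + (v.im ^ 2 * μ + v.im * x.im) * hw
  · simp only
    obtain ⟨s, hs⟩ := hμ
    obtain ⟨w, hw⟩ := hac
    rw [nv, nx]
    unfold ip
    refine ⟨(v.re * μ + x.re + t * (μ * v.im + x.im)) * s + w * (μ * v.im + x.im) ^ 2, ?_⟩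
    linear_combination (v.re * μ + x.re + t * (μ * v.im + x.im)) * hs +
      (μ * v.im + x.im) ^ 2 * hw - t * μ * hdt'

lemma tri_mem (hd : 4 * c < t ^ 2) {v x : Qd t c} (hv : tp v) (hx : tp x) (hdt : dt v x = 1)
    {X : ℝ} (h1 : (nm v : ℝ) ≤ X) (h2 : (nm x : ℝ) ≤ X) :
    ((nm v, ip v x, nm x) : Tr) ∈ tri t c X X := by
  rw [mem_tri]
  have nv := nm_tp_int hd hv
  have nx := nm_tp_int hd hx
  have hdt' : v.re * x.im - v.im * x.re = 1 := hdt
  refine ⟨nm_pos hd hv, h1, nm_pos hd hx, h2, ?_, ?_⟩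
  · simp only
    rw [nv, nx]
    unfold Qp ip
    linear_combination (t * (v.re * x.re + t * v.im * x.re + c * v.im * x.im) +
      c * (v.re * x.im - v.im * x.re + 1)) * hdt'
  · simp only
    have h := trace_pos hd hv hx
    unfold ip
    linear_combination h.le + t * hdt'

/-- `χ (z.re)` is adapted to `η` -/
lemma tw_hf (hχ : Ch a χ) (hac : a ∣ c) (hη : χ (η : Qd t c).re = 1) :
    Tw (fun z : Qd t c => χ z.re) η where
  abs := fun z => hχ.abs_le _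
  mul := fun _ _ => hχ.mul_re hac _ _
  unit := hη

/-- the element `r v + k x` -/
def mkY (k r : ℤ) (v x : Qd t c) : Qd t c := ⟨r * v.re + k * x.re, r * v.im + k * x.im⟩

lemma fin_dat (U : Un t c η) (hχ : Ch a χ) (ha : 0 < a) (hac : a ∣ c)
    (hη : χ (η : Qd t c).re = 1) {A B : Qd t c} (pA : prim A) (pB : prim B) (tA : tp A)
    (tB : tp B) (hk : 0 < dt A B) (hang : |ang η B - ang η A| ≤ 2 * Real.pi)
    (hg : g (nm A) ≠ g (nm B)) (hχA : χ A.re = χ B.re) (hχ0 : χ A.re ≠ 0) {X : ℝ}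
    (nA : (nm A : ℝ) ≤ X) (nB : (nm B : ℝ) ≤ X) :
    ∃ (v x : Qd t c) (r μ : ℤ), v = ((η ^ (ex η A) : (Qd t c)ˣ) : Qd t c) * A ∧
      mkY (dt A B) r v x = ((η ^ (ex η A) : (Qd t c)ˣ) : Qd t c) * B ∧
      -(dt A B) < r ∧ r ≤ 0 ∧ IsCoprime r (dt A B) ∧ 0 ≤ μ ∧ μ < a ∧
      χ (r - dt A B * μ) = 1 ∧ (v, x) ∈ dedge η ((2 + 2 * s1 (η : Qd t c)) * X) ∧
      Cnd g a t (dt A B) r μ (nm v, ip v x, nm x) := by
  have hT := tw_hf (η := η) hχ hac hη
  have he := U.s1_gt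
  obtain ⟨J, hJ⟩ : ∃ J : ℤ, J = ex η A := ⟨_, rfl⟩
  rw [← hJ]
  obtain ⟨v, hv⟩ : ∃ v : Qd t c, v = ((η ^ J : (Qd t c)ˣ) : Qd t c) * A := ⟨_, rfl⟩
  obtain ⟨y, hy⟩ : ∃ y : Qd t c, y = ((η ^ J : (Qd t c)ˣ) : Qd t c) * B := ⟨_, rfl⟩
  rw [← hv, ← hy]
  have pv : prim v := by rw [hv]; exact (prim_zpow_mul J).2 pA
  have py : prim y := by rw [hy]; exact (prim_zpow_mul J).2 pB
  have tv : tp v := by rw [hv]; exact (U.tp_zpow_mul J).2 tA
  have ty : tp y := by rw [hy]; exact (U.tp_zpow_mul J).2 tB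
  have nv : nm v = nm A := by rw [hv]; exact Un.nm_zpow_mul J A
  have ny : nm y = nm B := by rw [hy]; exact Un.nm_zpow_mul J B
  have av : ang η v = ang η A + 2 * Real.pi * J := by rw [hv]; exact U.ang_zpow_mul J tA
  have ay : ang η y = ang η B + 2 * Real.pi * J := by rw [hy]; exact U.ang_zpow_mul J tB
  have cv : χ v.re = χ A.re := by rw [hv]; exact hT.zpow_mul U J tA
  have cy : χ y.re = χ B.re := by rw [hy]; exact hT.zpow_mul U J tB
  have fv : fd η v := by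
    have := U.rep_fd tA
    rw [hv, hJ]
    exact this
  have hdt : dt v y = dt A B := by rw [hv, hy]; exact U.dt_zpow_mul J A B
  obtain ⟨k, hkk⟩ : ∃ k : ℤ, k = dt A B := ⟨_, rfl⟩
  rw [← hkk] at hk hdt ⊢
  obtain ⟨x, r, hx1, hr1, hr2, hr3, e1, e2⟩ := exists_lift pv py (by rw [hdt]; exact hk)
  rw [hdt] at hr1 hr3 e1 e2
  have hkR : (1 : ℝ) ≤ k := by exact_mod_cast hk
  have hk0 : (0 : ℝ) < k := by linarith
  have hrR : (r : ℝ) ≤ 0 := by exact_mod_cast hr2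
  have hrR1 : -(k : ℝ) < r := by exact_mod_cast hr1
  have e1R : (y.re : ℝ) = r * v.re + k * x.re := by exact_mod_cast e1
  have e2R : (y.im : ℝ) = r * v.im + k * x.im := by exact_mod_cast e2
  have k1 : (k : ℝ) * s1 x = s1 y + (-r) * s1 v := by
    unfold s1
    linear_combination -e1R - (t / 2 + Real.sqrt ((t : ℝ) ^ 2 - 4 * c) / 2) * e2R
  have k2 : (k : ℝ) * s2 x = s2 y + (-r) * s2 v := by
    unfold s2
    linear_combination -e1R - (t / 2 - Real.sqrt ((t : ℝ) ^ 2 - 4 * c) / 2) * e2R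
  have tx : tp x := by
    constructor
    · have : 0 < (k : ℝ) * s1 x := by
        rw [k1]
        exact add_pos_of_pos_of_nonneg ty.1 (mul_nonneg (by linarith) tv.1.le)
      exact (mul_pos_iff_of_pos_left hk0).1 this
    · have : 0 < (k : ℝ) * s2 x := by
        rw [k2]
        exact add_pos_of_pos_of_nonneg ty.2 (mul_nonneg (by linarith) tv.2.le)
      exact (mul_pos_iff_of_pos_left hk0).1 this
  have b1 : s1 x ≤ s1 y + s1 v := by
    have h1 : (k : ℝ) * s1 x ≤ k * (s1 y + s1 v) := by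
      rw [k1]
      have h2 : (-r : ℝ) * s1 v ≤ k * s1 v := mul_le_mul_of_nonneg_right (by linarith) tv.1.le
      have h3 : s1 y ≤ k * s1 y := le_mul_of_one_le_left ty.1.le hkR
      linarith
    exact le_of_mul_le_mul_left h1 hk0
  have b2 : s2 x ≤ s2 y + s2 v := by
    have h1 : (k : ℝ) * s2 x ≤ k * (s2 y + s2 v) := by
      rw [k2]
      have h2 : (-r : ℝ) * s2 v ≤ k * s2 v := mul_le_mul_of_nonneg_right (by linarith) tv.2.le
      have h3 : s2 y ≤ k * s2 y := le_mul_of_one_le_left ty.2.le hkR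
      linarith
    exact le_of_mul_le_mul_left h1 hk0
  have habs : |ang η y - ang η v| ≤ 2 * Real.pi := by
    rw [av, ay]
    have : ang η B + 2 * Real.pi * J - (ang η A + 2 * Real.pi * J) = ang η B - ang η A := by ring
    rw [this]
    exact hang
  have habs' : |ang η v - ang η y| ≤ 2 * Real.pi := by rw [abs_sub_comm]; exact habs
  have nvX : (nm v : ℝ) ≤ X := by rw [nv]; exact nA
  have nyX : (nm y : ℝ) ≤ X := by rw [ny]; exact nB
  have hX0 : 0 ≤ X := (Nat.cast_nonneg _).trans nvX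
  have q1 := prod_le U tv ty nvX nyX habs
  have q2 := prod_le U ty tv nyX nvX habs'
  have nx : (nm x : ℝ) ≤ (2 + 2 * s1 (η : Qd t c)) * X := by
    rw [nm_tp U.disc tx]
    have h1 : s1 x * s2 x ≤ (s1 y + s1 v) * (s2 y + s2 v) :=
      mul_le_mul b1 b2 tx.2.le (by linarith [ty.1, tv.1])
    have h2 := nm_tp U.disc tv
    have h3 := nm_tp U.disc ty
    have h4 : (s1 y + s1 v) * (s2 y + s2 v) = s1 y * s2 y + s1 v * s2 v + s1 y * s2 v +
      s1 v * s2 y := by ring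
    rw [h4, ← h2, ← h3] at h1
    linarith
  have nvX' : (nm v : ℝ) ≤ (2 + 2 * s1 (η : Qd t c)) * X := by
    refine nvX.trans (le_mul_of_one_le_left hX0 (by linarith))
  -- the congruence
  have hcop : IsCoprime v.re a := by
    rw [← hχ.cop, cv]
    exact hχ0
  obtain ⟨p, q, hpq⟩ := hcop
  obtain ⟨μ, hμ⟩ : ∃ μ : ℤ, μ = (-(x.re * p)) % a := ⟨_, rfl⟩
  have hμ0 : 0 ≤ μ := by rw [hμ]; exact Int.emod_nonneg _ ha.ne'
  have hμa : μ < a := by rw [hμ]; exact Int.emod_lt_of_pos _ ha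
  have hμd : a ∣ v.re * μ + x.re := by
    obtain ⟨τ, hτ⟩ : ∃ τ : ℤ, -(x.re * p) = μ + a * τ :=
      ⟨(-(x.re * p)) / a, by rw [hμ]; exact (Int.emod_add_mul_ediv _ _).symm⟩
    refine ⟨x.re * q - v.re * τ, ?_⟩
    linear_combination (-v.re) * hτ - x.re * hpq
  have hχr : χ (r - k * μ) = 1 := by
    have h1 : χ (v.re * (r - k * μ)) = χ y.re := by
      apply hχ.per
      obtain ⟨s, hs⟩ := hμd
      refine ⟨-(k * s), ?_⟩
      rw [e1]
      linear_combination (-k) * hs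
    rw [hχ.mul, cv, cy, ← hχA] at h1
    have h2 : χ A.re * (χ (r - k * μ) - 1) = 0 := by linear_combination h1
    rcases mul_eq_zero.1 h2 with h3 | h3
    · exact absurd h3 hχ0
    · linarith
  refine ⟨v, x, r, μ, rfl, ?_, hr1, hr2, hr3, hμ0, hμa, hχr, ?_, ?_⟩
  · unfold mkY
    rw [← e1, ← e2]
  · rw [U.mem_dedge]
    exact ⟨fv, nvX', tx, nx, hx1⟩
  · exact cnd_of U.disc hac tv tx ty hx1 e1 e2 (by rw [nv, ny]; exact hg) hμd

/-- the pair `p` can be recovered from the other data -/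
def Rec (η : (Qd t c)ˣ) (u : Qd t c) (p : Qd t c × Qd t c) (fl n : ℕ) (k r : ℤ)
    (e : Qd t c × Qd t c) : Prop :=
  (fl = 0 ∧ (∃ i : ℤ, e.1 = ((η ^ i : (Qd t c)ˣ) : Qd t c) * p.1) ∧
    ∃ j : ℤ, (n : Qd t c) * mkY k r e.1 e.2 = ((η ^ j : (Qd t c)ˣ) : Qd t c) * (u * p.2)) ∨
  (fl = 1 ∧ (∃ i : ℤ, mkY k r e.1 e.2 = ((η ^ i : (Qd t c)ˣ) : Qd t c) * p.1) ∧
    ∃ j : ℤ, (n : Qd t c) * e.1 = ((η ^ j : (Qd t c)ˣ) : Qd t c) * (u * p.2))

lemma eq_of_two (U : Un t c η) {z w : Qd t c} (hz : fd η z) (hw : fd η w) {i j : ℤ}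
    (h : ((η ^ i : (Qd t c)ˣ) : Qd t c) * z = ((η ^ j : (Qd t c)ˣ) : Qd t c) * w) : z = w := by
  rw [← U.rep_eq_self hz, ← U.rep_eq_self hw, ← U.rep_zpow_mul i hz.1, h, U.rep_zpow_mul j hw.1]

lemma rec_inj (U : Un t c η) {u : Qd t c} (hu : tp u) {p p' : Qd t c × Qd t c} {fl n : ℕ}
    {k r : ℤ} {e : Qd t c × Qd t c} (h1 : fd η p.1) (h2 : fd η p.2) (h3 : fd η p'.1)
    (h4 : fd η p'.2) (h : Rec η u p fl n k r e) (h' : Rec η u p' fl n k r e) : p = p' := by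
  have key : ∀ {i j : ℤ}, ((η ^ i : (Qd t c)ˣ) : Qd t c) * (u * p.2) =
      ((η ^ j : (Qd t c)ˣ) : Qd t c) * (u * p'.2) → p.2 = p'.2 := by
    intro i j hij
    have e1 : u * (((η ^ i : (Qd t c)ˣ) : Qd t c) * p.2) =
        u * (((η ^ j : (Qd t c)ˣ) : Qd t c) * p'.2) := by
      rw [mul_left_comm, hij, mul_left_comm]
    exact eq_of_two U h2 h4 (mul_cancel U.nsq (tp_ne_zero hu) e1)
  rcases h with ⟨f0, ⟨i, hi⟩, j, hj⟩ | ⟨f0, ⟨i, hi⟩, j, hj⟩ <;>
    rcases h' with ⟨f0', ⟨i', hi'⟩, j', hj'⟩ | ⟨f0', ⟨i', hi'⟩, j', hj'⟩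
  · exact Prod.ext (eq_of_two U h1 h3 (hi.symm.trans hi')) (key (hj.symm.trans hj'))
  · omega
  · omega
  · exact Prod.ext (eq_of_two U h1 h3 (hi.symm.trans hi')) (key (hj.symm.trans hj'))

lemma re_natCast_mul (n : ℕ) (z : Qd t c) : ((n : Qd t c) * z).re = n * z.re := by
  simp [QuadraticAlgebra.re_mul]

lemma im_natCast_mul (n : ℕ) (z : Qd t c) : ((n : Qd t c) * z).im = n * z.im := by
  simp [QuadraticAlgebra.im_mul]

/-- the content divides the norm -/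
lemma content_dvd (hd : 4 * c < t ^ 2) {u z y : Qd t c} {n : ℕ} (hu : tp u) (hz : prim z)
    (h : u * z = (n : Qd t c) * y) : n ∣ nm u := by
  have h1 : (nm u : Qd t c) * z = (n : Qd t c) * (star u * y) := by
    rw [← star_mul_self_tp hd hu, mul_assoc, h]
    ring
  have h2 := congrArg QuadraticAlgebra.re h1
  have h3 := congrArg QuadraticAlgebra.im h1
  rw [re_natCast_mul, re_natCast_mul] at h2
  rw [im_natCast_mul, im_natCast_mul] at h3
  unfold prim at hz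
  rw [← Int.isCoprime_iff_gcd_eq_one] at hz
  obtain ⟨p, q, hpq⟩ := hz
  have h4 : (n : ℤ) ∣ (nm u : ℤ) := by
    refine ⟨p * (star u * y).re + q * (star u * y).im, ?_⟩
    linear_combination (-(nm u : ℤ)) * hpq + p * h2 + q * h3
  exact_mod_cast h4

lemma dt_bound (U : Un t c η) {z y : Qd t c} (hz : tp z) (hy : tp y) {X N δ : ℝ} (hX : 1 ≤ X)
    (hN : 1 ≤ N) (nz : (nm z : ℝ) ≤ X) (ny : (nm y : ℝ) ≤ N * X)
    (hδ : |ang η y - ang η z| ≤ δ) (hδ1 : rg η / (2 * Real.pi) * δ ≤ 1) :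
    |(dt z y : ℝ)| ≤ 4 * (rg η / (2 * Real.pi)) * δ * X * N := by
  have hpi := Real.pi_pos
  have hR := U.rg_pos
  obtain ⟨β, hβ⟩ : ∃ β : ℝ, β = rg η / (2 * Real.pi) := ⟨_, rfl⟩
  have hβ0 : 0 < β := by rw [hβ]; positivity
  have h1 := U.dt_sinh hz hy
  rw [← hβ] at h1 hδ1 ⊢
  have hδ0 : 0 ≤ δ := (abs_nonneg _).trans hδ
  have h2 : |β * (ang η y - ang η z)| ≤ β * δ := by
    rw [abs_mul, abs_of_pos hβ0]
    exact mul_le_mul_of_nonneg_left hδ hβ0.le
  have h3 := abs_sinh_le (h2.trans hδ1)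
  have h4 : Real.sqrt ((nm z : ℝ) * nm y) ≤ X * N := by
    rw [Real.sqrt_le_left (by positivity)]
    have h5 := mul_le_mul nz ny (Nat.cast_nonneg _) (by linarith)
    have h6 : X * (N * X) ≤ (X * N) ^ 2 := by
      have : X * (N * X) * 1 ≤ X * (N * X) * N :=
        mul_le_mul_of_nonneg_left hN (by positivity)
      nlinarith
    linarith
  have h5 := sd_two U
  have h6 : 2 * |(dt z y : ℝ)| ≤ 2 * (X * N) * (2 * (β * δ)) := by
    calc 2 * |(dt z y : ℝ)| ≤ Real.sqrt ((t : ℝ) ^ 2 - 4 * c) * |(dt z y : ℝ)| :=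
          mul_le_mul_of_nonneg_right h5 (abs_nonneg _)
      _ = |Real.sqrt ((t : ℝ) ^ 2 - 4 * c) * (dt z y : ℝ)| := by
          rw [abs_mul, abs_of_nonneg (by linarith : (0:ℝ) ≤ Real.sqrt ((t : ℝ) ^ 2 - 4 * c))]
      _ = 2 * Real.sqrt ((nm z : ℝ) * nm y) * |Real.sinh (β * (ang η y - ang η z))| := by
          rw [h1, abs_mul, abs_of_nonneg (by positivity)]
      _ ≤ 2 * (X * N) * (2 * (β * δ)) := by
          apply mul_le_mul _ _ (abs_nonneg _) (by positivity)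
          · linarith
          · refine h3.trans ?_
            linarith
  have h7 : 0 ≤ β * δ * X * N := by positivity
  linarith

lemma exists_rec (U : Un t c η) (hg : Pm g) (hχ : Ch a χ) (ha : 0 < a) (hac : a ∣ c)
    (hη : χ (η : Qd t c).re = 1) {u : Qd t c} (hu : tp u) (hχu : χ u.re = 1)
    (hdv : ∀ n : ℕ, n ∣ nm u → χ n = 1) {X δ : ℝ} (hX : 1 ≤ X) (hδ3 : δ ≤ 3)
    (hδ1 : rg η / (2 * Real.pi) * δ ≤ 1) {k0 : ℤ}
    (hk0 : 4 * (rg η / (2 * Real.pi)) * δ * X * nm u ≤ k0) {p : Qd t c × Qd t c}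
    (hp : p ∈ near g χ η u δ X) :
    ∃ (fl n : ℕ) (k r μ : ℤ) (e : Qd t c × Qd t c), fl < 2 ∧ n ≤ nm u ∧ 0 < k ∧ k ≤ k0 ∧
      -k0 ≤ r ∧ r ≤ 0 ∧ IsCoprime r k ∧ 0 ≤ μ ∧ μ < a ∧ χ (r - k * μ) = 1 ∧
      e ∈ dedge η ((2 + 2 * s1 (η : Qd t c)) * (nm u * X)) ∧
      Cnd g a t k r μ (nm e.1, ip e.1 e.2, nm e.2) ∧ Rec η u p fl n k r e := by
  classical
  have hT := tw_hf (η := η) hχ hac hη
  have hpi := Real.pi_gt_three
  obtain ⟨z, z'⟩ := p
  unfold near at hp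
  rw [mem_filter, mem_product] at hp
  obtain ⟨⟨hz, hz'⟩, hgg, hχz, hχ0, jj, hjj⟩ := hp
  simp only at hz hz' hgg hχz hχ0 hjj
  obtain ⟨fz, pz, nz⟩ := U.mem_pball.1 hz
  obtain ⟨fz', pz', nz'⟩ := U.mem_pball.1 hz'
  have hw : tp (u * z') := tp_mul U.disc hu fz'.1
  obtain ⟨y, n, hn, hy, hwy⟩ := exists_primpart (tp_ne_zero hw)
  have hnu := content_dvd U.disc hu pz' hwy
  have hχn := hdv n hnu
  have hnR : (0 : ℝ) < n := by exact_mod_cast hn
  have hty : tp y := by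
    have h1 := hw
    rw [hwy] at h1
    obtain ⟨h2, h3⟩ := h1
    rw [s1_mul U.disc, s1_natCast] at h2
    rw [s2_mul U.disc, s2_natCast] at h3
    exact ⟨(mul_pos_iff_of_pos_left hnR).1 h2, (mul_pos_iff_of_pos_left hnR).1 h3⟩
  have hangy : ang η (u * z') = ang η y := by
    rw [hwy, ang_mul U.disc (tp_natCast hn) hty, ang_natCast hn, zero_add]
  have hgly : g (nm (u * z')) = g (nm y) := by
    rw [hwy]
    rw [nm_mul, nm_natCast, hg.sq_mul hn.ne' (nm_pos U.disc hty).ne']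
  have hNu : (1 : ℝ) ≤ nm u := one_le_nmR U.disc hu
  have hyX : (nm y : ℝ) ≤ nm u * X := by
    have h1 : nm (u * z') = n ^ 2 * nm y := by rw [hwy, nm_mul, nm_natCast]
    rw [nm_mul] at h1
    have h2 : (nm y : ℝ) ≤ nm u * nm z' := by
      have : nm y ≤ nm u * nm z' := by
        rw [h1]; exact Nat.le_mul_of_pos_left _ (by positivity)
      exact_mod_cast this
    exact h2.trans (mul_le_mul_of_nonneg_left nz' (Nat.cast_nonneg _))
  have hX0 : 0 ≤ X := by linarith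
  have hzX : (nm z : ℝ) ≤ nm u * X := nz.trans (le_mul_of_one_le_left hX0 hNu)
  have hχy : χ y.re = χ z'.re := by
    have h1 : χ (u * z').re = χ z'.re := by rw [hχ.mul_re hac, hχu, one_mul]
    rw [hwy, re_natCast_mul, hχ.mul, hχn, one_mul] at h1
    exact h1
  obtain ⟨m, hm⟩ : ∃ m : ℤ, m = -jj := ⟨_, rfl⟩
  obtain ⟨y', hy'⟩ : ∃ y' : Qd t c, y' = ((η ^ m : (Qd t c)ˣ) : Qd t c) * y := ⟨_, rfl⟩
  have ty' : tp y' := by rw [hy']; exact (U.tp_zpow_mul m).2 hty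
  have py' : prim y' := by rw [hy']; exact (prim_zpow_mul m).2 hy
  have ny' : nm y' = nm y := by rw [hy']; exact Un.nm_zpow_mul m y
  have ay' : ang η y' = ang η y + 2 * Real.pi * m := by rw [hy']; exact U.ang_zpow_mul m hty
  have cy' : χ y'.re = χ z.re := by
    rw [hχz, ← hχy, hy']
    exact hT.zpow_mul U m hty
  have hr' : |ang η z - ang η y'| ≤ δ := by
    have : ang η z - ang η y' = ang η z - ang η (u * z') + 2 * Real.pi * jj := by
      rw [ay', hangy, hm]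
      push_cast
      ring
    rw [this]
    exact hjj
  have hr'' : |ang η y' - ang η z| ≤ δ := by rw [abs_sub_comm]; exact hr'
  rw [hgly, ← ny'] at hgg
  have hny : (n : Qd t c) * y' = ((η ^ m : (Qd t c)ˣ) : Qd t c) * (u * z') := by
    rw [hy', hwy]
    ring
  have hdt : dt z y' ≠ 0 := by
    intro h0
    have h1 := dt_zero_tp pz py' fz.1 ty' h0
    apply hgg
    rw [h1]
  have hdb := dt_bound U fz.1 ty' hX hNu nz (by rw [ny']; exact hyX) hr'' hδ1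
  have hdb' : |dt z y'| ≤ k0 := by
    have h1 : |(dt z y' : ℝ)| ≤ k0 := hdb.trans hk0
    exact_mod_cast h1
  have hnle : n ≤ nm u := Nat.le_of_dvd (nm_pos U.disc hu) hnu
  rcases lt_or_gt_of_ne hdt with hneg | hpos
  · have hsw : dt y' z = - dt z y' := by unfold dt; ring
    have hd : 0 < dt y' z := by omega
    obtain ⟨v, x, r, μ, g1, g2, g3, g4, g5, g6, g7, g8, g9, g10⟩ :=
      fin_dat U hχ ha hac hη py' pz ty' fz.1 hd (by linarith) hgg.symm cy'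
        (by rw [cy']; exact hχ0) (by rw [ny']; exact hyX) hzX
    have hkk : dt y' z ≤ k0 := by rw [hsw]; exact (neg_le_abs _).trans hdb'
    refine ⟨1, n, dt y' z, r, μ, (v, x), by norm_num, hnle, hd, hkk, by linarith, g4, g5, g6, g7,
      g8, g9, g10, Or.inr ⟨rfl, ⟨_, g2⟩, ex η y' + m, ?_⟩⟩
    simp only
    rw [g1, mul_left_comm, hny, ← mul_assoc, ← Units.val_mul, ← zpow_add]
  · obtain ⟨v, x, r, μ, g1, g2, g3, g4, g5, g6, g7, g8, g9, g10⟩ :=
      fin_dat U hχ ha hac hη pz py' fz.1 ty' hpos (by linarith) hgg cy'.symm hχ0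
        hzX (by rw [ny']; exact hyX)
    have hkk : dt z y' ≤ k0 := (le_abs_self _).trans hdb'
    refine ⟨0, n, dt z y', r, μ, (v, x), by norm_num, hnle, hpos, hkk, by linarith, g4, g5, g6, g7,
      g8, g9, g10, Or.inl ⟨rfl, ⟨_, g1⟩, ex η z + m, ?_⟩⟩
    simp only
    rw [g2, mul_left_comm, hny, ← mul_assoc, ← Units.val_mul, ← zpow_add]

open scoped Classical in
/-- the pairs of determinant one belonging to the data `(k, r, μ)` -/
noncomputable def Sset (g : ℕ → ℤ) (a : ℤ) (η : (Qd t c)ˣ) (X : ℝ) (κ : ℤ × ℤ × ℤ) :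
    Finset (Qd t c × Qd t c) :=
  (dedge η X).filter (fun e => Cnd g a t κ.1 κ.2.1 κ.2.2 (nm e.1, ip e.1 e.2, nm e.2))

open scoped Classical in
/-- the data -/
noncomputable def Fset (χ : ℤ → ℤ) (a k0 : ℤ) : Finset (ℤ × ℤ × ℤ) :=
  ((Finset.Icc 1 k0) ×ˢ ((Finset.Icc (-k0) 0) ×ˢ (Finset.Ico 0 a))).filter
    (fun x => IsCoprime x.2.1 x.1 ∧ χ (x.2.1 - x.1 * x.2.2) = 1)

open scoped Classical in
lemma card_Sset (U : Un t c η) {W : ℕ} (hW : ∀ (n : ℤ) (d : ℕ)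
    (S : Finset (Qd t c × Qd t c)),
    (∀ e ∈ S, fd η e.1 ∧ dt e.1 e.2 = 1 ∧ ip e.1 e.2 = n ∧ nm e.1 = d) → S.card ≤ W)
    (X : ℝ) (κ : ℤ × ℤ × ℤ) : (Sset g a η X κ).card ≤
    W * ((tri t c X X).filter (fun e => Cnd g a t κ.1 κ.2.1 κ.2.2 e)).card := by
  refine card_le_mul_card_image_of_maps_to
    (f := fun e : Qd t c × Qd t c => ((nm e.1, ip e.1 e.2, nm e.2) : Tr)) ?_ W ?_
  · intro e he
    obtain ⟨h1, h2⟩ := mem_filter.1 he
    obtain ⟨f1, n1, p2, n2, d1⟩ := U.mem_dedge.1 h1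
    exact mem_filter.2 ⟨tri_mem U.disc f1.1 p2 d1 n1 n2, h2⟩
  · intro f _
    refine hW f.2.1 f.1 _ fun e he => ?_
    obtain ⟨h1, h2⟩ := mem_filter.1 he
    obtain ⟨f1, n1, p2, n2, d1⟩ := U.mem_dedge.1 (mem_filter.1 h1).1
    refine ⟨f1, d1, ?_, ?_⟩
    · rw [← h2]
    · rw [← h2]

lemma near_card (U : Un t c η) (hg : Pm g) (hχ : Ch a χ) (ha : 0 < a) (hac : a ∣ c)
    (hη : χ (η : Qd t c).re = 1) {u : Qd t c} (hu : tp u) (hχu : χ u.re = 1)
    (hdv : ∀ n : ℕ, n ∣ nm u → χ n = 1) {X δ : ℝ} (hX : 1 ≤ X) (hδ3 : δ ≤ 3)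
    (hδ1 : rg η / (2 * Real.pi) * δ ≤ 1) {k0 : ℤ}
    (hk0 : 4 * (rg η / (2 * Real.pi)) * δ * X * nm u ≤ k0) :
    (near g χ η u δ X).card ≤ 2 * (nm u + 1) * ∑ κ ∈ Fset χ a k0,
      (Sset g a η ((2 + 2 * s1 (η : Qd t c)) * (nm u * X)) κ).card := by
  classical
  obtain ⟨X', hX'⟩ : ∃ X' : ℝ, X' = (2 + 2 * s1 (η : Qd t c)) * (nm u * X) := ⟨_, rfl⟩
  have hex : ∀ p : Qd t c × Qd t c, ∃ x : (ℕ × ℕ) × (Σ _ : ℤ × ℤ × ℤ, Qd t c × Qd t c),
      p ∈ near g χ η u δ X → (x ∈ ((range 2) ×ˢ (range (nm u + 1))) ×ˢ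
        ((Fset χ a k0).sigma (fun κ => Sset g a η X' κ)) ∧
        Rec η u p x.1.1 x.1.2 x.2.1.1 x.2.1.2.1 x.2.2) := by
    intro p
    by_cases hp : p ∈ near g χ η u δ X
    · obtain ⟨fl, n, k, r, μ, e, g1, g2, g3, g4, g5, g6, g7, g8, g9, g10, g11, g12, g13⟩ :=
        exists_rec U hg hχ ha hac hη hu hχu hdv hX hδ3 hδ1 hk0 hp
      refine ⟨((fl, n), ⟨(k, r, μ), e⟩), fun _ => ⟨?_, g13⟩⟩
      rw [mem_product, mem_product, mem_sigma]
      refine ⟨⟨mem_range.2 g1, mem_range.2 (by simp only; omega)⟩, ?_, ?_⟩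
      · unfold Fset
        rw [mem_filter, mem_product, mem_product, Finset.mem_Icc, Finset.mem_Icc, Finset.mem_Ico]
        exact ⟨⟨⟨g3, g4⟩, ⟨g5, g6⟩, g8, g9⟩, g7, g10⟩
      · unfold Sset
        rw [mem_filter, hX']
        exact ⟨g11, g12⟩
    · exact ⟨((0, 0), ⟨(0, 0, 0), (0, 0)⟩), fun h => absurd h hp⟩
  choose φ hφ using hex
  have hmem : ∀ p ∈ near g χ η u δ X, fd η p.1 ∧ fd η p.2 := by
    intro p hp
    unfold near at hp
    rw [mem_filter, mem_product] at hp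
    exact ⟨(U.mem_pball.1 hp.1.1).1, (U.mem_pball.1 hp.1.2).1⟩
  have hmap : (near g χ η u δ X).card ≤ (((range 2) ×ˢ (range (nm u + 1))) ×ˢ
        ((Fset χ a k0).sigma (fun κ => Sset g a η X' κ))).card := by
    refine Finset.card_le_card_of_injOn φ (fun p hp => (hφ p hp).1) ?_
    intro p hp q hq hpq
    rw [Finset.mem_coe] at hp hq
    have h1 := (hφ p hp).2
    have h2 := (hφ q hq).2
    rw [← hpq] at h2
    exact rec_inj U hu (hmem p hp).1 (hmem p hp).2 (hmem q hq).1 (hmem q hq).2 h1 h2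
  rw [card_product, card_product, card_range, card_range, card_sigma, hX'] at hmap
  exact hmap

theorem tri_of (hg : Pm g) {b c₀ : ℤ} (ha : 0 < a) (hχ : Ch a χ) : S_D g χ a b c₀ := by
  classical
  rintro η U hη ⟨u, L, κ₁, X₁, hu, hχu, hdv, hL, hκ, hnear⟩
  have hac : a ∣ a * c₀ := Dvd.intro _ rfl
  have hpi := Real.pi_pos
  have hR := U.rg_pos
  have he := U.s1_gt
  obtain ⟨W, hW⟩ := Pool.Agent.W29.GR.mult U
  obtain ⟨β, hβ⟩ : ∃ β : ℝ, β = rg η / (2 * Real.pi) := ⟨_, rfl⟩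
  have hβ0 : 0 < β := by rw [hβ]; positivity
  have hNu : (1 : ℝ) ≤ nm u := one_le_nmR U.disc hu
  obtain ⟨k0, hk0⟩ : ∃ k0 : ℤ, k0 = ⌈4 * β * L * nm u⌉ := ⟨_, rfl⟩
  have hk0R : 4 * β * L * nm u ≤ (k0 : ℝ) := by rw [hk0]; exact Int.le_ceil _
  obtain ⟨C, hC⟩ : ∃ C : ℝ, C = (2 + 2 * s1 (η : Qd b (a * c₀))) * nm u := ⟨_, rfl⟩
  have hC1 : 1 ≤ C := by rw [hC]; nlinarith
  have hC0 : 0 < C := by linarith
  obtain ⟨F, hF⟩ : ∃ F : Finset (ℤ × ℤ × ℤ), F = Fset χ a k0 := ⟨_, rfl⟩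
  obtain ⟨D, hD⟩ : ∃ D : ℝ, D = 2 * (nm u + 1) * (W + 1) * (F.card + 1) := ⟨_, rfl⟩
  have hD0 : 0 < D := by rw [hD]; positivity
  refine ⟨F, κ₁ / (C * D), C * (|X₁| + β * L + L + 1), by positivity, ?_, ?_⟩
  · intro x hx
    rw [hF] at hx
    unfold Fset at hx
    rw [mem_filter, mem_product, mem_product, Finset.mem_Icc, Finset.mem_Icc,
      Finset.mem_Ico] at hx
    obtain ⟨⟨⟨h1, h2⟩, ⟨h3, h4⟩, h5, h6⟩, h7, h8⟩ := hx
    exact ⟨by omega, h4, h7, h8⟩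
  · intro Xo hXo
    obtain ⟨X, hX⟩ : ∃ X : ℝ, X = Xo / C := ⟨_, rfl⟩
    have hXC : C * X = Xo := by rw [hX]; field_simp
    have hXbig : |X₁| + β * L + L + 1 ≤ X := by
      rw [hX, le_div_iff₀ hC0]; linarith
    have hab := abs_nonneg X₁
    have hβL : 0 ≤ β * L := by positivity
    have hX1 : 1 ≤ X := by linarith
    have hX0 : 0 < X := by linarith
    have hXX₁ : X₁ ≤ X := by
      have := le_abs_self X₁
      linarith
    have hδ1 : rg η / (2 * Real.pi) * (L / X) ≤ 1 := by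
      rw [← hβ, ← mul_div_assoc, div_le_one hX0]
      linarith
    have hδ3 : L / X ≤ 3 := by
      rw [div_le_iff₀ hX0]
      linarith
    have hkk : ∀ v : Qd b (a * c₀), (nm v : ℝ) ≤ nm u →
        4 * (rg η / (2 * Real.pi)) * (L / X) * X * nm v ≤ k0 := by
      intro v hv
      rw [← hβ]
      have e1 : 4 * β * (L / X) * X * nm v = 4 * β * L * nm v := by field_simp
      rw [e1]
      refine le_trans ?_ hk0R
      exact mul_le_mul_of_nonneg_left hv (by positivity)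
    -- both cases
    have hmono : ∀ (Z : ℝ) (κ : ℤ × ℤ × ℤ), Z ≤ Xo → (Sset g a η Z κ).card ≤
        W * ((tri b (a * c₀) Xo Xo).filter (fun e => Cnd g a b κ.1 κ.2.1 κ.2.2 e)).card := by
      intro Z κ hZ
      refine le_trans (card_le_card ?_) (card_Sset U hW Xo κ)
      intro e he
      unfold Sset at he ⊢
      rw [mem_filter, U.mem_dedge] at he ⊢
      exact ⟨⟨he.1.1, he.1.2.1.trans hZ, he.1.2.2.1, he.1.2.2.2.1.trans hZ, he.1.2.2.2.2⟩, he.2⟩
    have hboth : κ₁ * X ≤ 2 * (nm u + 1) * (W * ∑ κ ∈ F,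
        (((tri b (a * c₀) Xo Xo).filter (fun e => Cnd g a b κ.1 κ.2.1 κ.2.2 e)).card : ℝ)) := by
      have hcase : ∀ v : Qd b (a * c₀), tp v → χ v.re = 1 → (∀ n : ℕ, n ∣ nm v → χ n = 1) →
          (nm v ≤ nm u) → κ₁ * X ≤ ((near g χ η v (L / X) X).card : ℝ) →
          κ₁ * X ≤ 2 * (nm u + 1) * (W * ∑ κ ∈ F,
        (((tri b (a * c₀) Xo Xo).filter (fun e => Cnd g a b κ.1 κ.2.1 κ.2.2 e)).card : ℝ)) := by
        intro v hv hχv hdv' hvu h1
        have hvuR : (nm v : ℝ) ≤ nm u := by exact_mod_cast hvu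
        have h2 := near_card U hg hχ ha hac hη hv hχv hdv' hX1 hδ3 hδ1 (hkk v hvuR)
        have h3 : (near g χ η v (L / X) X).card ≤ 2 * (nm u + 1) * ∑ κ ∈ F,
            W * ((tri b (a * c₀) Xo Xo).filter (fun e => Cnd g a b κ.1 κ.2.1 κ.2.2 e)).card := by
          rw [hF]
          refine h2.trans (Nat.mul_le_mul (by omega) (sum_le_sum fun κ _ => ?_))
          apply hmono
          rw [← hXC, hC]
          have h4 : (nm v : ℝ) * X ≤ nm u * X := mul_le_mul_of_nonneg_right hvuR hX0.le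
          have h5 := mul_le_mul_of_nonneg_left h4 (by linarith : 0 ≤ 2 + 2 * s1 (η : Qd b (a * c₀)))
          linarith
        rw [← mul_sum] at h3
        refine h1.trans ?_
        exact_mod_cast h3
      rcases hnear X hXX₁ with h | h
      · refine hcase 1 tp_one ?_ ?_ ?_ h
        · rw [QuadraticAlgebra.re_one, hχ.one]
        · intro n hn
          rw [nm_one, Nat.dvd_one] at hn
          rw [hn, Nat.cast_one, hχ.one]
        · rw [nm_one]
          exact nm_pos U.disc hu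
      · exact hcase u hu hχu hdv le_rfl h
    by_contra hcon
    push Not at hcon
    have h1 : ∑ κ ∈ F,
        (((tri b (a * c₀) Xo Xo).filter (fun e => Cnd g a b κ.1 κ.2.1 κ.2.2 e)).card : ℝ) ≤
        F.card * (κ₁ / (C * D) * Xo) := by
      refine (sum_le_card_nsmul _ _ _ (fun κ hκ => (hcon κ hκ).le)).trans ?_
      rw [nsmul_eq_mul]
    have hXo0 : 0 < Xo := by rw [← hXC]; positivity
    have h2 : κ₁ * X ≤ 2 * (nm u + 1) * (W * (F.card * (κ₁ / (C * D) * Xo))) := by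
      refine hboth.trans ?_
      gcongr
    have h3 : 2 * ((nm u : ℝ) + 1) * (W * (F.card * (κ₁ / (C * D) * Xo))) < D * (κ₁ / (C * D) * Xo) := by
      have h4 : 0 < κ₁ / (C * D) * Xo := by positivity
      have h5 : 2 * ((nm u : ℝ) + 1) * (W * F.card) < D := by
        rw [hD]
        have h6 : (W : ℝ) * F.card < (W + 1) * (F.card + 1) := by
          have h7 : (0 : ℝ) ≤ W := Nat.cast_nonneg _
          have h8 : (0 : ℝ) ≤ F.card := Nat.cast_nonneg _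
          nlinarith
        have h9 : (0 : ℝ) < 2 * ((nm u : ℝ) + 1) := by positivity
        have := mul_lt_mul_of_pos_left h6 h9
        linarith
      have := mul_lt_mul_of_pos_right h5 h4
      linarith
    have h4 : D * (κ₁ / (C * D) * Xo) = κ₁ * X := by
      rw [hX]; field_simp
    linarith

end Pool.Agent.K9h53.LQ
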