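import Mathlib

/-!
Project LQ (helper53): the residue classes and the Jacobi symbol.
-/

set_option autoImplicit false

namespace Pool.Agent.K9h53.LQ

open scoped NumberTheorySymbols

/-- a real character modulo `a` -/
structure Ch (a : ℤ) (χ : ℤ → ℤ) : Prop where
  mul : ∀ x y, χ (x * y) = χ x * χ y
  per : ∀ x y, a ∣ x - y → χ x = χ y
  one : χ 1 = 1
  val : ∀ x, χ x = 0 ∨ χ x = 1 ∨ χ x = -1
  cop : ∀ x, χ x ≠ 0 ↔ IsCoprime x a

/-- the character is `1` at the primes which split -/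
def SplOne (D a : ℤ) (χ : ℤ → ℤ) : Prop :=
  ∀ q : ℕ, q.Prime → ¬ (q : ℤ) ∣ 2 * a * D → (∃ s : ZMod q, s * s = (D : ZMod q)) → χ q = 1

/-- the class `v⁻¹` modulo `M` contains integers with Jacobi symbol `1` -/
def PJ (D M v : ℤ) : Prop :=
  ∃ w : ℕ, w.Coprime (4 * D.natAbs * M.natAbs) ∧ M ∣ w * v - 1 ∧ J(D | w) = 1

/-- the class `1` modulo `M` contains integers with Jacobi symbol `-1` -/
def Nt (D M : ℤ) : Prop :=
  ∃ u : ℕ, u.Coprime (4 * D.natAbs * M.natAbs) ∧ M ∣ u - 1 ∧ J(D | u) = -1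

lemma exists_prime_class {u M : ℤ} (hM : M ≠ 0) (hu : IsCoprime u M) (R : ℕ) :
    ∃ p : ℕ, p.Prime ∧ R < p ∧ M ∣ (p : ℤ) - u := by
  have : NeZero M.natAbs := ⟨Int.natAbs_ne_zero.2 hM⟩
  have hunit : IsUnit ((u : ℤ) : ZMod M.natAbs) := by
    have h1 : IsCoprime u (M.natAbs : ℤ) := by
      rw [Int.natCast_natAbs]
      rcases abs_choice M with h | h <;> rw [h]
      · exact hu
      · exact hu.neg_right
    exact (ZMod.coe_int_isUnit_iff_isCoprime u M.natAbs).2 h1.symm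
  obtain ⟨p, hp1, hp2, hp3⟩ := Nat.forall_exists_prime_gt_and_eq_mod hunit R
  refine ⟨p, hp2, hp1, ?_⟩
  have h2 : (((p : ℤ) - u : ℤ) : ZMod M.natAbs) = 0 := by
    push_cast
    rw [hp3, sub_self]
  rw [ZMod.intCast_zmod_eq_zero_iff_dvd, Int.natAbs_dvd] at h2
  exact h2

lemma prime_cop {p N : ℕ} (hp : p.Prime) (hN : 0 < N) (h : N < p) : p.Coprime N := by
  rw [hp.coprime_iff_not_dvd]
  intro h1
  exact absurd (Nat.le_of_dvd hN h1) (not_le.2 h)

lemma odd_of_cop {w N : ℕ} {D : ℤ} (h : w.Coprime (4 * D.natAbs * N)) : Odd w := by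
  rw [← Nat.not_even_iff_odd]
  intro he
  have h1 : 2 ∣ Nat.gcd w (4 * D.natAbs * N) :=
    Nat.dvd_gcd he.two_dvd ⟨2 * D.natAbs * N, by ring⟩
  rw [h] at h1
  norm_num at h1

lemma jac_congr {D : ℤ} {w w' : ℕ} (hw : Odd w) (hw' : Odd w')
    (h : ((4 * D.natAbs : ℕ) : ℤ) ∣ (w : ℤ) - w') : J(D | w) = J(D | w') := by
  rw [jacobiSym.mod_right D hw, jacobiSym.mod_right D hw']
  have h1 : w' ≡ w [MOD 4 * D.natAbs] := (Nat.modEq_iff_dvd.2 h)
  rw [show w % (4 * D.natAbs) = w' % (4 * D.natAbs) from h1.symm]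

lemma jac_val {D : ℤ} {w : ℕ} (h : w.Coprime (4 * D.natAbs)) : J(D | w) = 1 ∨ J(D | w) = -1 := by
  apply jacobiSym.eq_one_or_neg_one
  have h1 : w.Coprime D.natAbs := Nat.Coprime.coprime_mul_left_right h
  rw [Int.gcd_comm, Int.gcd_eq_natAbs]
  simpa using h1

lemma nt_pj {D M v : ℤ} (hD : D ≠ 0) (hM : M ≠ 0) (h : Nt D M) (hv : IsCoprime v M) :
    PJ D M v := by
  obtain ⟨u, hu1, hu2, hu3⟩ := h
  obtain ⟨x, y, hxy⟩ := hv
  have hx : IsCoprime x M := ⟨v, y, by linarith⟩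
  have hN : 0 < 4 * D.natAbs * M.natAbs := by
    have h1 := Int.natAbs_pos.2 hD
    have h2 := Int.natAbs_pos.2 hM
    positivity
  obtain ⟨p, hp, hpR, hpx⟩ := exists_prime_class hM hx (4 * D.natAbs * M.natAbs)
  have hpc := prime_cop hp hN hpR
  have hpv : M ∣ (p : ℤ) * v - 1 := by
    have e : (p : ℤ) * v - 1 = (p - x) * v - M * y := by linear_combination hxy
    rw [e]
    exact dvd_sub (Dvd.dvd.mul_right hpx v) (Dvd.intro _ rfl)
  rcases jac_val (D := D) (w := p) (Nat.Coprime.coprime_mul_right_right hpc) with h1 | h1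
  · exact ⟨p, hpc, hpv, h1⟩
  · refine ⟨p * u, Nat.Coprime.mul_left hpc hu1, ?_, ?_⟩
    · have e : ((p * u : ℕ) : ℤ) * v - 1 = (p * v) * (u - 1) + (p * v - 1) := by
        push_cast; ring
      rw [e]
      exact dvd_add (Dvd.dvd.mul_left hu2 _) hpv
    · have := hp.ne_zero
      have : NeZero p := ⟨this⟩
      have hu0 : u ≠ 0 := by
        rintro rfl
        rw [Nat.coprime_zero_left] at hu1
        have h4 : (4 : ℕ) ∣ 4 * D.natAbs * M.natAbs := ⟨D.natAbs * M.natAbs, by ring⟩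
        rw [hu1] at h4
        norm_num at h4
      have : NeZero u := ⟨hu0⟩
      rw [jacobiSym.mul_right, h1, hu3]
      norm_num

/-- nontrivial modulo `a` implies nontrivial modulo `k a` or modulo `l a`, `k`, `l` coprime -/
lemma nt_or {D a k l : ℤ} (hD : D ≠ 0) (ha : a ≠ 0) (hk : k ≠ 0) (hl : l ≠ 0)
    (hkl : IsCoprime k l) (h : Nt D a) : Nt D (k * a) ∨ Nt D (l * a) := by
  by_contra hcon
  push Not at hcon
  obtain ⟨hc1, hc2⟩ := hcon
  obtain ⟨u, hu1, hu2, hu3⟩ := h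
  have hDn := Int.natAbs_pos.2 hD
  have han := Int.natAbs_pos.2 ha
  have hkn := Int.natAbs_pos.2 hk
  have hln := Int.natAbs_pos.2 hl
  have huo := odd_of_cop hu1
  -- a large prime in the class of `u` modulo `4 D a`
  have hDa : (4 * D * a) ≠ 0 := by
    have : (4 : ℤ) ≠ 0 := by norm_num
    exact mul_ne_zero (mul_ne_zero this hD) ha
  have hucop : IsCoprime (u : ℤ) (4 * D * a) := by
    have h1 : (u : ℤ).natAbs.Coprime (4 * D * a).natAbs := by
      rw [Int.natAbs_natCast, Int.natAbs_mul, Int.natAbs_mul]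
      exact hu1
    exact Int.isCoprime_iff_gcd_eq_one.2 h1
  obtain ⟨N, hN⟩ : ∃ N : ℕ, N = 4 * D.natAbs * (k.natAbs * l.natAbs * a.natAbs) := ⟨_, rfl⟩
  have hNpos : 0 < N := by rw [hN]; positivity
  obtain ⟨w, hw, hwN, hwu⟩ := exists_prime_class hDa hucop N
  have hwc : w.Coprime N := prime_cop hw hNpos hwN
  have hwo : Odd w := by
    rw [hN] at hwc
    exact odd_of_cop hwc
  have hJw : J(D | w) = -1 := by
    rw [← hu3]
    apply jac_congr hwo huo
    refine dvd_trans ?_ hwu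
    rw [Nat.cast_mul, Int.natCast_natAbs]
    have : ((4 : ℕ) : ℤ) * |D| ∣ 4 * D := by
      push_cast
      exact mul_dvd_mul_left 4 ((abs_dvd D D).2 dvd_rfl)
    exact Dvd.dvd.mul_right this a
  have hwa : a ∣ (w : ℤ) - 1 := by
    have h1 : a ∣ (w : ℤ) - u := (Dvd.intro_left _ rfl : a ∣ 4 * D * a).trans hwu
    have h2 := dvd_add h1 hu2
    simpa using h2
  have hwcZ : ∀ x : ℤ, x.natAbs ∣ N → IsCoprime (w : ℤ) x := by
    intro x hx
    have h1 : w.Coprime x.natAbs := Nat.Coprime.coprime_dvd_right hx hwc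
    exact Int.isCoprime_iff_gcd_eq_one.2 (by simpa [Int.gcd] using h1)
  -- the class `≡ 1 mod k a`, `≡ w mod l a`
  obtain ⟨x, y, hxy⟩ := hkl
  obtain ⟨z, hz⟩ := hwa
  -- w = 1 + a z; take c = 1 + k a s with k s ≡ z mod l, s = x z
  obtain ⟨c, hc⟩ : ∃ c : ℤ, c = 1 + k * a * (x * z) := ⟨_, rfl⟩
  have hcw : c - w = -(l * a * (y * z)) := by
    rw [hc]
    linear_combination (a * z) * hxy - hz
  have hccop : IsCoprime c (k * l * a) := by
    have h1 : IsCoprime c (k * a) := ⟨1, -(x * z), by rw [hc]; ring⟩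
    have h2 : IsCoprime c l := by
      have h3 : IsCoprime (w : ℤ) l := hwcZ l (by
        rw [hN]; exact ⟨4 * D.natAbs * (k.natAbs * a.natAbs), by ring⟩)
      have h4 : c = w + l * (-(a * (y * z))) := by linear_combination hcw
      rw [h4]
      exact IsCoprime.add_mul_left_left h3 _
    have h3 := (h1.of_mul_right_left.mul_right h2).mul_right h1.of_mul_right_right
    exact h3
  have hkla : k * l * a ≠ 0 := mul_ne_zero (mul_ne_zero hk hl) ha
  obtain ⟨w', hw', hwN', hwc'⟩ := exists_prime_class hkla hccop N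
  have hwcN' : w'.Coprime N := prime_cop hw' hNpos hwN'
  have hwo' : Odd w' := by
    rw [hN] at hwcN'
    exact odd_of_cop hwcN'
  have hJw' : J(D | w') = 1 := by
    have h1 : w'.Coprime (4 * D.natAbs * (k * a).natAbs) := by
      refine Nat.Coprime.coprime_dvd_right ?_ hwcN'
      rw [hN, Int.natAbs_mul]
      exact ⟨l.natAbs, by ring⟩
    rcases jac_val (D := D) (w := w') (Nat.Coprime.coprime_mul_right_right h1) with h2 | h2
    · exact h2
    · exfalso
      apply hc1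
      refine ⟨w', h1, ?_, h2⟩
      have h3 : k * a ∣ (w' : ℤ) - c := dvd_trans (⟨l, by ring⟩ : k * a ∣ k * l * a) hwc'
      have h4 : k * a ∣ c - 1 := ⟨x * z, by rw [hc]; ring⟩
      have h5 := dvd_add h3 h4
      simpa using h5
  -- `w' ≡ w v` modulo `4 D l a`
  have hM2 : 4 * D * (l * a) ≠ 0 := by
    have : (4 : ℤ) ≠ 0 := by norm_num
    exact mul_ne_zero (mul_ne_zero this hD) (mul_ne_zero hl ha)
  have hdv : (4 * D * (l * a)).natAbs ∣ N := by
    rw [hN, Int.natAbs_mul, Int.natAbs_mul, Int.natAbs_mul]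
    exact ⟨k.natAbs, by simp; ring⟩
  have hwM2 := hwcZ (4 * D * (l * a)) hdv
  obtain ⟨x', y', hxy'⟩ := hwM2
  -- x' w ≡ 1
  have hw'M2 : IsCoprime (w' : ℤ) (4 * D * (l * a)) := by
    have h1 : w'.Coprime (4 * D * (l * a)).natAbs := Nat.Coprime.coprime_dvd_right hdv hwcN'
    exact Int.isCoprime_iff_gcd_eq_one.2 (by simpa [Int.gcd] using h1)
  have hx'c : IsCoprime x' (4 * D * (l * a)) := ⟨w, y', by linarith⟩
  obtain ⟨v, hv, hvN, hvc⟩ := exists_prime_class hM2 (hx'c.mul_left hw'M2) N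
  have hvcN : v.Coprime N := prime_cop hv hNpos hvN
  have hvo : Odd v := by
    rw [hN] at hvcN
    exact odd_of_cop hvcN
  have hvw : 4 * D * (l * a) ∣ ((v * w : ℕ) : ℤ) - w' := by
    have e : ((v * w : ℕ) : ℤ) - w' = (v - x' * w') * w - w' * (4 * D * (l * a)) * y' := by
      push_cast
      linear_combination (w' : ℤ) * hxy'
    rw [e]
    refine dvd_sub (Dvd.dvd.mul_right hvc _) ?_
    exact ⟨w' * y', by ring⟩
  have hJ : J(D | v * w) = J(D | w') := by
    apply jac_congr (hvo.mul hwo) hwo'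
    refine dvd_trans ?_ hvw
    rw [Nat.cast_mul, Int.natCast_natAbs]
    have : ((4 : ℕ) : ℤ) * |D| ∣ 4 * D := by
      push_cast
      exact mul_dvd_mul_left 4 ((abs_dvd D D).2 dvd_rfl)
    exact Dvd.dvd.mul_right this _
  have : NeZero v := ⟨hv.ne_zero⟩
  have : NeZero w := ⟨hw.ne_zero⟩
  rw [jacobiSym.mul_right, hJw, hJw'] at hJ
  apply hc2
  refine ⟨v, ?_, ?_, by linarith⟩
  · refine Nat.Coprime.coprime_dvd_right ?_ hvcN
    rw [hN, Int.natAbs_mul]
    exact ⟨k.natAbs, by ring⟩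
  · -- v w ≡ w' ≡ c ≡ w modulo l a
    have h1 : l * a ∣ ((v * w : ℕ) : ℤ) - w' := (Dvd.intro_left _ rfl).trans hvw
    have h2 : l * a ∣ (w' : ℤ) - c := dvd_trans (⟨k, by ring⟩ : l * a ∣ k * l * a) hwc'
    have h3 : l * a ∣ c - w := by rw [hcw]; exact (dvd_neg.2 ⟨y * z, by ring⟩)
    have h4 : l * a ∣ ((v : ℤ) - 1) * w := by
      have e : ((v : ℤ) - 1) * w = (((v * w : ℕ) : ℤ) - w') + (w' - c) + (c - w) := by
        push_cast; ring
      rw [e]
      exact dvd_add (dvd_add h1 h2) h3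
    have h5 : IsCoprime (l * a) (w : ℤ) := (hwcZ (l * a) (by
      rw [hN, Int.natAbs_mul]
      exact ⟨4 * D.natAbs * k.natAbs, by ring⟩)).symm
    exact h5.dvd_of_dvd_mul_right h4

/-- the principal character -/
lemma ch_zero {D a : ℤ} (ha : a ≠ 0) : ∃ χ : ℤ → ℤ, Ch a χ ∧ SplOne D a χ := by
  classical
  refine ⟨fun x => if IsCoprime x a then 1 else 0, ?_, ?_⟩
  · refine ⟨?_, ?_, ?_, ?_, ?_⟩
    · intro x y
      by_cases hx : IsCoprime x a <;> by_cases hy : IsCoprime y a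
      · rw [if_pos (hx.mul_left hy), if_pos hx, if_pos hy]; norm_num
      · rw [if_neg (fun h => hy h.of_mul_left_right), if_neg hy]; simp
      · rw [if_neg (fun h => hx h.of_mul_left_left), if_neg hx]; simp
      · rw [if_neg (fun h => hx h.of_mul_left_left), if_neg hx]; simp
    · intro x y h
      obtain ⟨k, hk⟩ := h
      have e : x = y + a * k := by linarith
      have : IsCoprime x a ↔ IsCoprime y a := by
        rw [e]
        constructor
        · intro h
          exact (IsCoprime.add_mul_left_left_iff).1 h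
        · intro h
          exact (IsCoprime.add_mul_left_left_iff).2 h
      by_cases hx : IsCoprime x a
      · rw [if_pos hx, if_pos (this.1 hx)]
      · rw [if_neg hx, if_neg (fun h => hx (this.2 h))]
    · rw [if_pos isCoprime_one_left]
    · intro x
      by_cases hx : IsCoprime x a
      · rw [if_pos hx]; simp
      · rw [if_neg hx]; simp
    · intro x
      by_cases hx : IsCoprime x a
      · rw [if_pos hx]; simp [hx]
      · rw [if_neg hx]; simp [hx]
  · intro q hq hqd _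
    show (if IsCoprime (q : ℤ) a then (1 : ℤ) else 0) = 1
    rw [if_pos]
    have hqp : Prime (q : ℤ) := Nat.prime_iff_prime_int.1 hq
    rw [hqp.coprime_iff_not_dvd]
    intro h
    exact hqd (Dvd.dvd.mul_right (Dvd.dvd.mul_left h 2) D)

lemma cop_abs {w : ℕ} {D a : ℤ} (h : w.Coprime (4 * D.natAbs * a.natAbs)) :
    IsCoprime (w : ℤ) (4 * D * a) := by
  have h1 : (w : ℤ).natAbs.Coprime (4 * D * a).natAbs := by
    rw [Int.natAbs_natCast, Int.natAbs_mul, Int.natAbs_mul]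
    exact h
  exact Int.isCoprime_iff_gcd_eq_one.2 h1

lemma cop_abs' {w : ℕ} {D a : ℤ} (h : IsCoprime (w : ℤ) (4 * D * a)) :
    w.Coprime (4 * D.natAbs * a.natAbs) := by
  have h1 := Int.isCoprime_iff_gcd_eq_one.1 h
  unfold Int.gcd at h1
  rw [Int.natAbs_natCast, Int.natAbs_mul, Int.natAbs_mul] at h1
  exact h1

lemma jac_wd {D a : ℤ} (hD : D ≠ 0) (ha : a ≠ 0) (hn : ¬ Nt D a) {w w' : ℕ}
    (hw : w.Coprime (4 * D.natAbs * a.natAbs)) (hw' : w'.Coprime (4 * D.natAbs * a.natAbs))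
    (h : a ∣ (w : ℤ) - w') : J(D | w) = J(D | w') := by
  have hM : 4 * D * a ≠ 0 := mul_ne_zero (mul_ne_zero (by norm_num) hD) ha
  obtain ⟨x, y, hxy⟩ := cop_abs hw
  have hx : IsCoprime x (4 * D * a) := ⟨w, y, by linarith⟩
  have hN : 0 < 4 * D.natAbs * a.natAbs := by
    have h1 := Int.natAbs_pos.2 hD
    have h2 := Int.natAbs_pos.2 ha
    positivity
  obtain ⟨u, hu, huN, hux⟩ := exists_prime_class hM hx (4 * D.natAbs * a.natAbs)
  have huc := prime_cop hu hN huN
  have hone : ∀ v : ℕ, v.Coprime (4 * D.natAbs * a.natAbs) → a ∣ (v : ℤ) - 1 → J(D | v) = 1 := by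
    intro v hv hva
    rcases jac_val (D := D) (w := v) (Nat.Coprime.coprime_mul_right_right hv) with h2 | h2
    · exact h2
    · exact absurd ⟨v, hv, hva, h2⟩ hn
  have hw0 : w ≠ 0 := by
    rintro rfl
    rw [Nat.coprime_zero_left] at hw
    have h4 : (4 : ℕ) ∣ 4 * D.natAbs * a.natAbs := ⟨D.natAbs * a.natAbs, by ring⟩
    rw [hw] at h4
    norm_num at h4
  have hw0' : w' ≠ 0 := by
    rintro rfl
    rw [Nat.coprime_zero_left] at hw'
    have h4 : (4 : ℕ) ∣ 4 * D.natAbs * a.natAbs := ⟨D.natAbs * a.natAbs, by ring⟩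
    rw [hw'] at h4
    norm_num at h4
  have : NeZero u := ⟨hu.ne_zero⟩
  have : NeZero w := ⟨hw0⟩
  have : NeZero w' := ⟨hw0'⟩
  have hu1 : a ∣ ((u * w : ℕ) : ℤ) - 1 := by
    have e : ((u * w : ℕ) : ℤ) - 1 = (u - x) * w - y * (4 * D) * a := by
      push_cast
      linear_combination hxy
    rw [e]
    exact dvd_sub (Dvd.dvd.mul_right ((Dvd.intro_left _ rfl : a ∣ 4 * D * a).trans hux) _)
      (Dvd.intro_left _ rfl)
  have hu2 : a ∣ ((u * w' : ℕ) : ℤ) - 1 := by
    have e : ((u * w' : ℕ) : ℤ) - 1 = (((u * w : ℕ) : ℤ) - 1) - u * (w - w') := by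
      push_cast
      ring
    rw [e]
    exact dvd_sub hu1 (Dvd.dvd.mul_left h _)
  have h1 := hone _ (Nat.Coprime.mul_left huc hw) hu1
  have h2 := hone _ (Nat.Coprime.mul_left huc hw') hu2
  rw [jacobiSym.mul_right] at h1 h2
  rcases jac_val (D := D) (w := u) (Nat.Coprime.coprime_mul_right_right huc) with h3 | h3 <;>
    rw [h3] at h1 h2 <;> linarith

/-- the character in the case where the Jacobi symbol is a character modulo `a` -/
lemma ch_jac {D a : ℤ} (hD : 0 < D) (ha : a ≠ 0) (hn : ¬ Nt D a) :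
    ∃ χ : ℤ → ℤ, Ch a χ ∧ SplOne D a χ ∧ χ (-1) = 1 ∧
      ∀ M v : ℤ, a ∣ M → M ≠ 0 → IsCoprime v M → χ v = 1 → PJ D M v := by
  classical
  have hD0 := hD.ne'
  have hN : 0 < 4 * D.natAbs * a.natAbs := by
    have h1 := Int.natAbs_pos.2 hD0
    have h2 := Int.natAbs_pos.2 ha
    positivity
  have hex : ∀ n : ℤ, ∃ w : ℕ, IsCoprime n a → (w.Coprime (4 * D.natAbs * a.natAbs) ∧
      a ∣ (w : ℤ) - n) := by
    intro n
    by_cases h : IsCoprime n a
    · obtain ⟨p, hp, hpN, hpn⟩ := exists_prime_class ha h (4 * D.natAbs * a.natAbs)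
      exact ⟨p, fun _ => ⟨prime_cop hp hN hpN, hpn⟩⟩
    · exact ⟨0, fun h' => absurd h' h⟩
  choose W hW using hex
  obtain ⟨χ, hχ⟩ : ∃ χ : ℤ → ℤ, ∀ n, χ n = if IsCoprime n a then J(D | W n) else 0 :=
    ⟨_, fun _ => rfl⟩
  have hcopw : ∀ (w : ℕ) (n : ℤ), w.Coprime (4 * D.natAbs * a.natAbs) → a ∣ (w : ℤ) - n →
      IsCoprime n a := by
    intro w n hw h
    obtain ⟨k, hk⟩ := h
    have h1 : IsCoprime (w : ℤ) a := (cop_abs hw).of_mul_right_right
    have e : n = w + a * (-k) := by linarith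
    rw [e]
    exact IsCoprime.add_mul_left_left h1 _
  have key : ∀ (w : ℕ) (n : ℤ), w.Coprime (4 * D.natAbs * a.natAbs) → a ∣ (w : ℤ) - n →
      χ n = J(D | w) := by
    intro w n hw h
    have h1 := hcopw w n hw h
    rw [hχ, if_pos h1]
    refine jac_wd hD0 ha hn (hW n h1).1 hw ?_
    have := dvd_sub (hW n h1).2 h
    simpa using this
  have hnon : ∀ n : ℤ, IsCoprime n a → χ n = 1 ∨ χ n = -1 := by
    intro n h
    rw [hχ, if_pos h]
    exact jac_val (Nat.Coprime.coprime_mul_right_right (hW n h).1)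
  have hzero : ∀ n : ℤ, ¬ IsCoprime n a → χ n = 0 := by
    intro n h
    rw [hχ, if_neg h]
  have hone : χ 1 = 1 := by
    rw [key 1 1 (Nat.coprime_one_left _) (by simp)]
    exact jacobiSym.one_right D
  have hmul : ∀ x y, χ (x * y) = χ x * χ y := by
    intro x y
    by_cases hx : IsCoprime x a <;> by_cases hy : IsCoprime y a
    · have h1 := (hW x hx)
      have h2 := (hW y hy)
      rw [key _ x h1.1 h1.2, key _ y h2.1 h2.2]
      have hx0 : W x ≠ 0 := by
        intro h0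
        have h3 := h1.1
        rw [h0, Nat.coprime_zero_left] at h3
        have h4 : (4 : ℕ) ∣ 4 * D.natAbs * a.natAbs := ⟨D.natAbs * a.natAbs, by ring⟩
        rw [h3] at h4
        norm_num at h4
      have hy0 : W y ≠ 0 := by
        intro h0
        have h3 := h2.1
        rw [h0, Nat.coprime_zero_left] at h3
        have h4 : (4 : ℕ) ∣ 4 * D.natAbs * a.natAbs := ⟨D.natAbs * a.natAbs, by ring⟩
        rw [h3] at h4
        norm_num at h4
      have : NeZero (W x) := ⟨hx0⟩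
      have : NeZero (W y) := ⟨hy0⟩
      rw [← jacobiSym.mul_right]
      apply key _ _ (Nat.Coprime.mul_left h1.1 h2.1)
      have e : ((W x * W y : ℕ) : ℤ) - x * y = (W x - x) * W y + x * (W y - y) := by
        push_cast; ring
      rw [e]
      exact dvd_add (Dvd.dvd.mul_right h1.2 _) (Dvd.dvd.mul_left h2.2 _)
    · rw [hzero y hy, hzero _ (fun h => hy h.of_mul_left_right), mul_zero]
    · rw [hzero x hx, hzero _ (fun h => hx h.of_mul_left_left), zero_mul]
    · rw [hzero x hx, hzero _ (fun h => hx h.of_mul_left_left), zero_mul]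
  have hper : ∀ x y, a ∣ x - y → χ x = χ y := by
    intro x y h
    by_cases hy : IsCoprime y a
    · have h2 := hW y hy
      rw [key _ y h2.1 h2.2]
      apply key _ x h2.1
      have e : (W y : ℤ) - x = (W y - y) - (x - y) := by ring
      rw [e]
      exact dvd_sub h2.2 h
    · rw [hzero y hy]
      apply hzero
      intro hx
      apply hy
      obtain ⟨k, hk⟩ := h
      have e : y = x + a * (-k) := by linarith
      rw [e]
      exact IsCoprime.add_mul_left_left hx _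
  refine ⟨χ, ⟨hmul, hper, hone, ?_, ?_⟩, ?_, ?_, ?_⟩
  · intro x
    by_cases hx : IsCoprime x a
    · exact Or.inr (hnon x hx)
    · exact Or.inl (hzero x hx)
  · intro x
    constructor
    · intro h
      by_contra hx
      exact h (hzero x hx)
    · intro hx h0
      rcases hnon x hx with h | h <;> rw [h] at h0 <;> norm_num at h0
  · intro q hq hqd hs
    have hqp : Prime (q : ℤ) := Nat.prime_iff_prime_int.1 hq
    have hqc : IsCoprime (q : ℤ) (4 * D * a) := by
      rw [hqp.coprime_iff_not_dvd]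
      intro h
      apply hqd
      rcases hqp.dvd_or_dvd h with h1 | h1
      · rcases hqp.dvd_or_dvd h1 with h2 | h2
        · have h3 : (q : ℤ) ∣ 2 := by
            have h4 : (4 : ℤ) = 2 * 2 := by norm_num
            rw [h4] at h2
            rcases hqp.dvd_or_dvd h2 with h5 | h5 <;> exact h5
          exact Dvd.dvd.mul_right (Dvd.dvd.mul_right h3 a) D
        · exact Dvd.dvd.mul_left h2 _
      · exact Dvd.dvd.mul_right (Dvd.dvd.mul_left h1 2) D
    rw [key q q (cop_abs' hqc) (by simp)]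
    have : Fact q.Prime := ⟨hq⟩
    rw [← jacobiSym.legendreSym.to_jacobiSym]
    have h5 : (D : ZMod q) ≠ 0 := by
      rw [Ne, ZMod.intCast_zmod_eq_zero_iff_dvd]
      intro h6
      exact hqd (Dvd.dvd.mul_left h6 _)
    rw [legendreSym.eq_one_iff q h5]
    obtain ⟨s, hs⟩ := hs
    exact ⟨s, hs.symm⟩
  · -- `χ (-1) = 1`
    obtain ⟨m, hm⟩ : ∃ m : ℕ, (m : ℤ) = 4 * D * a ^ 2 - 1 := by
      have h1 : 0 < D * a ^ 2 := mul_pos hD (by positivity)
      exact ⟨(4 * D * a ^ 2 - 1).toNat, Int.toNat_of_nonneg (by nlinarith)⟩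
    have hmc : IsCoprime (m : ℤ) (4 * D * a) := ⟨-1, a, by rw [hm]; ring⟩
    rw [key m (-1) (cop_abs' hmc) ⟨4 * D * a, by rw [hm]; ring⟩]
    have h2 : IsCoprime (2 * a) (m : ℤ) := ⟨2 * D * a, -1, by rw [hm]; ring⟩
    have h3 : J((2 * a) ^ 2 | m) = 1 := by
      apply jacobiSym.sq_one'
      exact Int.isCoprime_iff_gcd_eq_one.1 h2
    have h4 : J((2 * a) ^ 2 * D | m) = J(D | m) := by
      rw [jacobiSym.mul_left, h3, one_mul]
    rw [← h4, jacobiSym.mod_left ((2 * a) ^ 2 * D) m]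
    have h5 : (2 * a) ^ 2 * D % (m : ℤ) = 1 % (m : ℤ) := by
      apply Int.ModEq.symm
      rw [Int.modEq_iff_dvd]
      exact ⟨1, by rw [hm]; ring⟩
    rw [h5, ← jacobiSym.mod_left, jacobiSym.one_left]
  · intro M v haM hM hv hχv
    obtain ⟨x, y, hxy⟩ := hv
    have hx : IsCoprime x M := ⟨v, y, by linarith⟩
    have hN' : 0 < 4 * D.natAbs * M.natAbs := by
      have h1 := Int.natAbs_pos.2 hD0
      have h2 := Int.natAbs_pos.2 hM
      positivity
    obtain ⟨p, hp, hpR, hpx⟩ := exists_prime_class hM hx (4 * D.natAbs * M.natAbs)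
    have hpc := prime_cop hp hN' hpR
    have hpv : M ∣ (p : ℤ) * v - 1 := by
      have e : (p : ℤ) * v - 1 = (p - x) * v - M * y := by linear_combination hxy
      rw [e]
      exact dvd_sub (Dvd.dvd.mul_right hpx v) (Dvd.intro _ rfl)
    refine ⟨p, hpc, hpv, ?_⟩
    have hpa : p.Coprime (4 * D.natAbs * a.natAbs) := by
      refine Nat.Coprime.coprime_dvd_right ?_ hpc
      exact Nat.mul_dvd_mul_left _ (Int.natAbs_dvd_natAbs.2 haM)
    rw [← key p p hpa (by simp)]
    have h1 : χ (p * v) = 1 := by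
      rw [hper (p * v) 1 (haM.trans hpv), hone]
    rw [hmul, hχv, mul_one] at h1
    exact h1

end Pool.Agent.K9h53.LQ
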