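import Pool.Agent.K9h53.LQ.Stm
import Pool.Agent.H304R2.Legendre

/-!
Project LQ (helper53): task A, the auxiliary element (written by helper21).

An element `u = X + Y √D` with norm `p W^2`, `p` a prime, `X ≡ W`, `Y ≡ 0` modulo `M`, `W` coprime to
`M` and `X`, `Y` coprime. It is obtained from a solution of `X^2 - D Y^2 = p W^2` with `p ≡ 1 mod 4 D M^2`
(`Pool/Agent/H304R2/Legendre.lean`): if `s^2 ≡ p` modulo a high power of `M`, one multiplies by
the square of the conjugate of `X + s W + Y √D` (Hilbert 90) and removes the common factors.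
-/

set_option autoImplicit false

namespace Pool.Agent.K9h53.LQ

namespace U0

open Pool.Agent.H304R2 Finset

/-- as `H304R2.exists_norm_prime`, with the congruence for `p` -/
theorem exists_norm_prime' (D : ℤ) (hD : ¬ IsSquare D) :
    ∃ p : ℕ, p.Prime ∧ p ≡ 1 [MOD 4 * D.natAbs] ∧ ∃ x y w : ℤ, 0 < x ∧ 0 < y ∧ 0 < w ∧ x ^ 2 - D * y ^ 2 = p * w ^ 2 := by
  have hD0 : D ≠ 0 := by rintro rfl; exact hD ⟨0, by simp⟩
  have hpos := Int.natAbs_pos.mpr hD0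
  obtain ⟨p, hp, hmod, hgt, ν, hν⟩ := exists_prime_root D hD0
  have hp0 : (0 : ℤ) < p := by exact_mod_cast hp.pos
  obtain ⟨x, y, z, hne, hx, hy, hz, d1, d2, d3⟩ := box_pigeon D.natAbs hpos p hp.pos ν
  have hpi : Prime (p : ℤ) := Nat.prime_iff_prime_int.mp hp
  have hpD : ¬ (p : ℤ) ∣ D := by
    intro h
    have h2 := Int.natAbs_dvd_natAbs.mpr h
    rw [Int.natAbs_natCast] at h2
    have := Nat.le_of_dvd hpos h2
    omega
  -- reduce to a statement with nonzero coordinates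
  suffices h : ∃ x y w : ℤ, w ≠ 0 ∧ x ^ 2 - D * y ^ 2 = p * w ^ 2 by
    obtain ⟨x, y, w, hw, h⟩ := h
    have hx0 : x ≠ 0 := by
      rintro rfl
      apply no_sol (-D) p hp (by rwa [dvd_neg]) y w hw
      linarith
    have hy0 : y ≠ 0 := by
      rintro rfl
      apply no_sol 1 p hp (fun h => hpi.not_isUnit (isUnit_of_dvd_one h)) x w hw
      linarith
    exact ⟨p, hp, hmod, |x|, |y|, |w|, abs_pos.mpr hx0, abs_pos.mpr hy0, abs_pos.mpr hw, by
      rw [sq_abs, sq_abs, sq_abs]; exact h⟩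
  set F := x ^ 2 - D * y ^ 2 - p * z ^ 2 with hF
  have hDa : (D.natAbs : ℤ) = |D| := Int.natCast_natAbs D
  rw [hDa] at hx hz d2
  -- divisibility by 4 |D|
  have hm1 : (4 * D) ∣ (p : ℤ) - 1 := by
    have h1 := (Nat.modEq_iff_dvd.mp hmod.symm)
    push_cast at h1
    have h2 : |4 * D| ∣ (p : ℤ) - 1 := by
      rw [abs_mul]; simpa using h1
    exact (abs_dvd _ _).mp h2
  have hm2 : (2 * D) ∣ x - z := by
    have h2 : |2 * D| ∣ x - z := by
      rw [abs_mul]; simpa using d2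
    exact (abs_dvd _ _).mp h2
  obtain ⟨k, hk⟩ := hm2
  obtain ⟨y', hy'⟩ := d1
  obtain ⟨l, hl⟩ := hm1
  have f1 : (4 * D) ∣ F := by
    refine ⟨k * z + D * k ^ 2 - y' ^ 2 - l * z ^ 2, ?_⟩
    have hx' : x = z + 2 * D * k := by linarith
    have hp' : (p : ℤ) = 1 + 4 * D * l := by linarith
    rw [hF, hx', hy', hp']
    ring
  have f2 : (p : ℤ) ∣ F := by
    obtain ⟨m, hm⟩ := d3
    obtain ⟨n, hn⟩ := hν
    refine ⟨p * m ^ 2 + 2 * m * ν * y + n * y ^ 2 - z ^ 2, ?_⟩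
    have hx' : x = ν * y + p * m := by linarith
    have hD' : D = ν ^ 2 - p * n := by linarith
    have : F = (ν * y + p * m) ^ 2 - (ν ^ 2 - p * n) * y ^ 2 - p * z ^ 2 := by
      rw [hF, ← hx', ← hD']
    rw [this]
    ring
  have cop : IsCoprime (4 * D) (p : ℤ) := by
    refine ⟨-l, 1, ?_⟩
    linarith
  have f3 : (4 * D) * p ∣ F := cop.mul_dvd f1 f2
  obtain ⟨m, hm⟩ := f3
  have hcase : F = 0 ∨ F = -(4 * D * p) := by
    rcases lt_or_gt_of_ne hD0 with hneg | hposD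
    · rw [abs_of_neg hneg] at hx hz
      have g1 : F ≤ 6 * (-D) * p := by
        have : (-D) * y ^ 2 ≤ (-D) * (3 * p) := mul_le_mul_of_nonneg_left hy (by linarith)
        have h3 : 0 ≤ p * z ^ 2 := by positivity
        rw [hF]; linarith
      have g2 : -(3 * (-D) * p) ≤ F := by
        have : p * z ^ 2 ≤ p * (3 * -D) := mul_le_mul_of_nonneg_left hz hp0.le
        have h3 : 0 ≤ (-D) * y ^ 2 := mul_nonneg (by linarith) (sq_nonneg _)
        have h4 := sq_nonneg x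
        rw [hF]; linarith
      have hDp : 0 < (-D) * p := mul_pos (by linarith) hp0
      rw [hm] at g1 g2
      have m1 : m ≤ 0 := by
        by_contra hc
        have : (-D) * p * 1 ≤ (-D) * p * m := mul_le_mul_of_nonneg_left (by omega) hDp.le
        nlinarith
      have m2 : -1 ≤ m := by
        by_contra hc
        have : (-D) * p * m ≤ (-D) * p * (-2) := mul_le_mul_of_nonneg_left (by omega) hDp.le
        nlinarith
      have : m = 0 ∨ m = -1 := by omega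
      rcases this with h | h
      · left; rw [hm, h]; ring
      · right; rw [hm, h]; ring
    · rw [abs_of_pos hposD] at hx hz
      have g1 : F ≤ 3 * D * p := by
        have : 0 ≤ D * y ^ 2 := by positivity
        have h3 : 0 ≤ p * z ^ 2 := by positivity
        rw [hF]; linarith
      have g2 : -(6 * D * p) ≤ F := by
        have : p * z ^ 2 ≤ p * (3 * D) := mul_le_mul_of_nonneg_left hz hp0.le
        have h3 : D * y ^ 2 ≤ D * (3 * p) := mul_le_mul_of_nonneg_left hy hposD.le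
        have h4 := sq_nonneg x
        rw [hF]; linarith
      have hDp : 0 < D * p := mul_pos hposD hp0
      rw [hm] at g1 g2
      have m1 : m ≤ 0 := by
        by_contra hc
        have : D * p * 1 ≤ D * p * m := mul_le_mul_of_nonneg_left (by omega) hDp.le
        nlinarith
      have m2 : -1 ≤ m := by
        by_contra hc
        have : D * p * m ≤ D * p * (-2) := mul_le_mul_of_nonneg_left (by omega) hDp.le
        nlinarith
      have : m = 0 ∨ m = -1 := by omega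
      rcases this with h | h
      · left; rw [hm, h]; ring
      · right; rw [hm, h]; ring
  rcases hcase with h0 | h4
  · refine ⟨x, y, z, ?_, by linarith⟩
    rintro rfl
    have h5 : x ^ 2 = D * y ^ 2 := by linarith
    have hy0 : y ≠ 0 := by
      rintro rfl
      have : x = 0 := by
        have : x ^ 2 = 0 := by linarith
        exact pow_eq_zero_iff (two_ne_zero) |>.mp this
      exact hne (by rw [this])
    apply hD
    have : y ^ 2 ∣ x ^ 2 := ⟨D, by linarith⟩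
    obtain ⟨q, hq⟩ := (Int.pow_dvd_pow_iff (two_ne_zero)).mp this
    refine ⟨q, ?_⟩
    have h6 : y ^ 2 * D = y ^ 2 * (q * q) := by rw [hq] at h5; linarith
    exact mul_left_cancel₀ (pow_ne_zero 2 hy0) h6
  · refine ⟨x * z - 2 * D * y, y * z - 2 * x, z ^ 2 - 4 * D, ?_, ?_⟩
    · intro h
      apply hD
      have : (2 : ℤ) ^ 2 ∣ z ^ 2 := ⟨D, by linarith⟩
      obtain ⟨q, hq⟩ := (Int.pow_dvd_pow_iff (two_ne_zero)).mp this
      refine ⟨q, ?_⟩
      rw [hq] at h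
      linarith
    · have h5 : x ^ 2 - D * y ^ 2 = p * (z ^ 2 - 4 * D) := by linarith
      have : (x * z - 2 * D * y) ^ 2 - D * (y * z - 2 * x) ^ 2 =
          (x ^ 2 - D * y ^ 2) * (z ^ 2 - 4 * D) := by ring
      rw [this, h5]
      ring

/-- square roots of `p` modulo the powers of `M` -/
theorem sqrt_mod {p M : ℤ} (h : 4 * M ∣ p - 1) :
    ∀ k : ℕ, ∃ s : ℤ, 2 * M ∣ s - 1 ∧ 4 * M ^ (k + 1) ∣ p - s ^ 2 := by
  intro k
  induction k with
  | zero => exact ⟨1, by simp, by simpa using h⟩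
  | succ k ih =>
    obtain ⟨s, ⟨a, ha⟩, ⟨r, hr⟩⟩ := ih
    have hs : s = 1 + 2 * M * a := by linarith
    -- `s` is coprime to `M`
    obtain ⟨x, hx⟩ : ∃ x, x = r := ⟨_, rfl⟩
    refine ⟨s + 2 * M ^ (k + 1) * x, ⟨a + M ^ k * x, by rw [hs]; ring⟩, ?_⟩
    refine ⟨-(2 * a * r) - M ^ k * x ^ 2, ?_⟩
    have e : p - (s + 2 * M ^ (k + 1) * x) ^ 2 = (p - s ^ 2) - 4 * M ^ (k + 1) * x * s -
        4 * M ^ (k + 1) * M ^ (k + 1) * x ^ 2 := by ring
    rw [e, hr, hx, hs]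
    ring

/-- divisors of powers of `M` -/
theorem dvd_pow_of {M : ℕ} : ∀ (k d : ℕ), 0 < d → d < 2 ^ k → (∀ q : ℕ, q.Prime → q ∣ d → q ∣ M) → d ∣ M ^ k := by
  intro k
  induction k with
  | zero => intro d h0 h1 _; rw [pow_zero] at h1; omega
  | succ k ih =>
    intro d h0 h1 hq
    rcases Nat.lt_or_ge d 2 with h | h
    · have : d = 1 := by omega
      rw [this]; exact one_dvd _
    · have hp := Nat.minFac_prime (n := d) (by omega)
      obtain ⟨e, he⟩ := Nat.minFac_dvd d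
      have he0 : 0 < e := by
        rcases Nat.eq_zero_or_pos e with h2 | h2
        · rw [h2, mul_zero] at he; omega
        · exact h2
      have h2 := hp.two_le
      have hlt : e < 2 ^ k := by
        rw [pow_succ] at h1
        have : 2 * e ≤ d := by
          calc 2 * e ≤ d.minFac * e := Nat.mul_le_mul_right _ h2
            _ = d := he.symm
        omega
      have h3 := ih e he0 hlt (fun q hq1 hq2 => hq q hq1 (he ▸ Dvd.dvd.mul_left hq2 _))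
      have h4 : d.minFac ∣ M := hq _ hp (Nat.minFac_dvd d)
      rw [he, pow_succ, mul_comm (M ^ k)]
      exact Nat.mul_dvd_mul h4 h3

theorem sq_dvd {p : ℕ} (hp : p.Prime) {G W N : ℤ} (hG : G ≠ 0) (h : G ^ 2 * N = p * W ^ 2) : G ∣ W := by
  have hg0 : Int.gcd G W ≠ 0 := fun h0 => hG (Int.gcd_eq_zero_iff.1 h0).1
  obtain ⟨e, he⟩ : ∃ e : ℤ, e = (Int.gcd G W : ℤ) := ⟨_, rfl⟩
  have he0 : e ≠ 0 := by rw [he]; exact_mod_cast hg0
  obtain ⟨β, hβ⟩ : e ∣ G := by rw [he]; exact Int.gcd_dvd_left _ _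
  obtain ⟨α, hα⟩ : e ∣ W := by rw [he]; exact Int.gcd_dvd_right _ _
  have hcop : IsCoprime β α := by
    obtain ⟨u, v, huv⟩ : ∃ u v : ℤ, u * G + v * W = e := by
      rw [he]
      exact ⟨Int.gcdA G W, Int.gcdB G W, by rw [Int.gcd_eq_gcd_ab]; ring⟩
    refine ⟨u, v, ?_⟩
    have : e * (u * β + v * α) = e * 1 := by
      rw [mul_one]
      calc e * (u * β + v * α) = u * (e * β) + v * (e * α) := by ring
        _ = e := by rw [← hβ, ← hα]; exact huv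
    exact mul_left_cancel₀ he0 this
  have h1 : β ^ 2 * N = p * α ^ 2 := by
    have : e ^ 2 * (β ^ 2 * N) = e ^ 2 * (p * α ^ 2) := by
      rw [hβ, hα] at h
      linarith
    exact mul_left_cancel₀ (pow_ne_zero 2 he0) this
  have h2 : β ^ 2 ∣ p := (hcop.pow (m := 2) (n := 2)).dvd_of_dvd_mul_right ⟨N, h1.symm⟩
  have hpi : Prime (p : ℤ) := Nat.prime_iff_prime_int.mp hp
  have h3 : IsUnit β := hpi.irreducible.squarefree β (by rw [← pow_two]; exact h2)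
  rw [hβ, hα]
  exact mul_dvd_mul_left e (h3.dvd)

/-- the main lemma -/
theorem key {D M : ℤ} (hD : ¬ IsSquare D) (hM : 2 ≤ M) : ∃ (p : ℕ) (X Y W : ℤ), p.Prime ∧
    IsCoprime (p : ℤ) M ∧ X ^ 2 - D * Y ^ 2 = p * W ^ 2 ∧ 0 < X ∧ W ≠ 0 ∧ M ∣ X - W ∧ M ∣ Y ∧
    IsCoprime W M ∧ IsCoprime X Y := by
  have hM0 : M ≠ 0 := by omega
  have hD0 : D ≠ 0 := by rintro rfl; exact hD ⟨0, by simp⟩
  have hDM : ¬ IsSquare (D * M ^ 2) := by
    rintro ⟨r, hr⟩
    have h1 : M ^ 2 ∣ r ^ 2 := ⟨D, by rw [pow_two r, ← hr]; ring⟩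
    obtain ⟨q, hq⟩ := (Int.pow_dvd_pow_iff two_ne_zero).1 h1
    apply hD
    refine ⟨q, ?_⟩
    have : M ^ 2 * D = M ^ 2 * (q * q) := by rw [hq] at hr; linarith
    exact mul_left_cancel₀ (pow_ne_zero 2 hM0) this
  obtain ⟨p, hp, hmod, x, y, w, hx, hy, hw, hxy⟩ := exists_norm_prime' (D * M ^ 2) hDM
  have h4M : 4 * M ∣ (p : ℤ) - 1 := by
    have h1 := (Nat.modEq_iff_dvd.mp hmod.symm)
    push_cast at h1
    have h2 : |4 * (D * M ^ 2)| ∣ (p : ℤ) - 1 := by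
      rw [abs_mul]; simpa using h1
    exact (Dvd.intro (D * M) (by ring)).trans ((abs_dvd _ _).mp h2)
  have hpM : IsCoprime (p : ℤ) M := by
    obtain ⟨l, hl⟩ := h4M
    exact ⟨1, -(4 * l), by linarith⟩
  obtain ⟨Y₀, hY₀⟩ : ∃ Y₀, Y₀ = M * y := ⟨_, rfl⟩
  have hY00 : Y₀ ≠ 0 := by rw [hY₀]; exact mul_ne_zero hM0 hy.ne'
  have heq : x ^ 2 - D * Y₀ ^ 2 = p * w ^ 2 := by rw [hY₀, ← hxy]; ring
  obtain ⟨A, hA⟩ : ∃ A, A = 2 * D * Y₀ ^ 2 := ⟨_, rfl⟩
  have hA0 : A ≠ 0 := by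
    rw [hA]
    exact mul_ne_zero (mul_ne_zero (by norm_num) hD0) (pow_ne_zero 2 hY00)
  obtain ⟨k, hk⟩ : ∃ k, k = A.natAbs := ⟨_, rfl⟩
  obtain ⟨s, hs1, r, hr⟩ := sqrt_mod h4M k
  obtain ⟨z, hz⟩ : ∃ z, z = x + s * w := ⟨_, rfl⟩
  -- the common factor
  obtain ⟨d, hd⟩ : ∃ d : ℕ, d = Int.gcd (2 * z) (M ^ (k + 1)) := ⟨_, rfl⟩
  have hMk : M ^ (k + 1) ≠ 0 := pow_ne_zero _ hM0
  have hd0 : 0 < d := by
    rw [hd]
    exact Int.gcd_pos_of_ne_zero_right _ hMk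
  have hdz : (d : ℤ) ∣ 2 * z := by rw [hd]; exact Int.gcd_dvd_left _ _
  have hdM : (d : ℤ) ∣ M ^ (k + 1) := by rw [hd]; exact Int.gcd_dvd_right _ _
  have hdp : (d : ℤ) ∣ (p : ℤ) - s ^ 2 := by
    rw [hr]
    exact Dvd.dvd.mul_right (Dvd.dvd.mul_left hdM 4) r
  have hdA : (d : ℤ) ∣ A := by
    have e : A = (2 * z) * (x - s * w) - (p - s ^ 2) * (2 * w ^ 2) := by
      rw [hA, hz]
      linear_combination (-2) * heq
    rw [e]
    exact dvd_sub (Dvd.dvd.mul_right hdz _) (Dvd.dvd.mul_right hdp _)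
  have hdle : d < 2 ^ k := by
    have h1 : d ∣ A.natAbs := by
      have := Int.natAbs_dvd_natAbs.2 hdA
      rwa [Int.natAbs_natCast] at this
    have h2 := Nat.le_of_dvd (Int.natAbs_pos.2 hA0) h1
    rw [← hk] at h2
    exact lt_of_le_of_lt h2 Nat.lt_two_pow_self
  have hdk : (d : ℤ) ∣ M ^ k := by
    have h1 : d ∣ M.natAbs ^ k := by
      refine dvd_pow_of k d hd0 hdle fun q hq hqd => ?_
      have h2 : (q : ℤ) ∣ M ^ (k + 1) := (Int.natCast_dvd_natCast.2 hqd).trans hdM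
      have h3 := (Nat.prime_iff_prime_int.1 hq).dvd_of_dvd_pow h2
      have := Int.natAbs_dvd_natAbs.2 h3
      rwa [Int.natAbs_natCast] at this
    have h2 : ((d : ℕ) : ℤ) ∣ ((M.natAbs ^ k : ℕ) : ℤ) := Int.natCast_dvd_natCast.2 h1
    rw [Nat.cast_pow, Int.natCast_natAbs] at h2
    have h3 : |M| = M := abs_of_pos (by omega)
    rwa [h3] at h2
  have hdZ : (d : ℤ) ≠ 0 := by exact_mod_cast hd0.ne'
  obtain ⟨z', hz'⟩ := hdz
  obtain ⟨m2, hm2⟩ := hdk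
  obtain ⟨m', hm'⟩ : ∃ m', m' = M * m2 := ⟨_, rfl⟩
  have hMm : M ^ (k + 1) = d * m' := by rw [pow_succ, hm2, hm']; ring
  have hcop : IsCoprime z' m' := by
    obtain ⟨u, v, huv⟩ : ∃ u v : ℤ, u * (2 * z) + v * (M ^ (k + 1)) = d := by
      rw [hd]
      exact ⟨Int.gcdA _ _, Int.gcdB _ _, by rw [Int.gcd_eq_gcd_ab]; ring⟩
    refine ⟨u, v, ?_⟩
    have : (d : ℤ) * (u * z' + v * m') = d * 1 := by
      rw [mul_one]
      calc (d : ℤ) * (u * z' + v * m') = u * (d * z') + v * (d * m') := by ring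
        _ = d := by rw [← hz', ← hMm]; exact huv
    exact mul_left_cancel₀ hdZ this
  have hz'M : IsCoprime z' M := by
    rw [hm'] at hcop
    exact hcop.of_mul_right_left
  have hsM : IsCoprime s M := by
    obtain ⟨b, hb⟩ := hs1
    exact ⟨1, -(2 * b), by linarith⟩
  obtain ⟨r', hr'⟩ : ∃ r', r' = 4 * r := ⟨_, rfl⟩
  have hps : (p : ℤ) - s ^ 2 = d * m' * r' := by
    rw [hr, hr', ← hMm]; ring
  obtain ⟨W₂, hW₂⟩ : ∃ W₂, W₂ = s * z' + m' * r' * w := ⟨_, rfl⟩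
  obtain ⟨X₂, hX₂⟩ : ∃ X₂, X₂ = s * W₂ + m' * r' * z := ⟨_, rfl⟩
  obtain ⟨Y₂, hY₂⟩ : ∃ Y₂, Y₂ = -(m' * r' * Y₀) := ⟨_, rfl⟩
  have hdW : (d : ℤ) * W₂ = (s ^ 2 + p) * w + 2 * s * x := by
    have e : (d : ℤ) * W₂ = s * (d * z') + (d * m' * r') * w := by rw [hW₂]; ring
    rw [e, ← hz', ← hps, hz]
    ring
  have hdX : (d : ℤ) * X₂ = (s ^ 2 + p) * x + 2 * s * p * w := by
    have e : (d : ℤ) * X₂ = s * (d * W₂) + (d * m' * r') * z := by rw [hX₂]; ring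
    rw [e, hdW, ← hps, hz]
    ring
  have hdY : (d : ℤ) * Y₂ = -((p - s ^ 2) * Y₀) := by
    rw [hY₂, hps]; ring
  have heq2 : X₂ ^ 2 - D * Y₂ ^ 2 = p * W₂ ^ 2 := by
    have h1 : (d : ℤ) ^ 2 * (X₂ ^ 2 - D * Y₂ ^ 2) = d ^ 2 * (p * W₂ ^ 2) := by
      have e1 : (d : ℤ) ^ 2 * (X₂ ^ 2 - D * Y₂ ^ 2) = (d * X₂) ^ 2 - D * (d * Y₂) ^ 2 := by ring
      have e2 : (d : ℤ) ^ 2 * (p * W₂ ^ 2) = p * (d * W₂) ^ 2 := by ring
      rw [e1, e2, hdX, hdY, hdW]
      linear_combination ((p : ℤ) - s ^ 2) ^ 2 * heq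
    exact mul_left_cancel₀ (pow_ne_zero 2 hdZ) h1
  have hW₂M : IsCoprime W₂ M := by
    rw [hW₂, hm']
    have e : s * z' + M * m2 * r' * w = s * z' + M * (m2 * r' * w) := by ring
    rw [e]
    exact IsCoprime.add_mul_left_left (hsM.mul_left hz'M) _
  have hXW : M ∣ X₂ - W₂ := by
    obtain ⟨b, hb⟩ := hs1
    rw [hX₂, hm']
    refine ⟨2 * b * W₂ + m2 * r' * z, ?_⟩
    linear_combination W₂ * hb
  have hYM : M ∣ Y₂ := ⟨-(m2 * r' * Y₀), by rw [hY₂, hm']; ring⟩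
  have hX₂M : IsCoprime X₂ M := by
    obtain ⟨b, hb⟩ := hXW
    have e : X₂ = W₂ + M * b := by linarith
    rw [e]
    exact IsCoprime.add_mul_left_left hW₂M _
  have hnz : ∀ x : ℤ, IsCoprime x M → x ≠ 0 := by
    rintro x h rfl
    have h1 := isUnit_of_dvd_one (by
      obtain ⟨u, v, huv⟩ := h
      exact ⟨v, by linarith⟩ : M ∣ 1)
    rcases Int.isUnit_iff.1 h1 with h2 | h2 <;> omega
  have hX₂0 := hnz _ hX₂M
  -- remove the common factor of `X`, `Y`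
  obtain ⟨G, hG⟩ : ∃ G : ℤ, G = (Int.gcd X₂ Y₂ : ℤ) := ⟨_, rfl⟩
  have hG0 : G ≠ 0 := by
    rw [hG]
    exact_mod_cast fun h0 => hX₂0 (Int.gcd_eq_zero_iff.1 h0).1
  obtain ⟨X₃, hX₃⟩ : G ∣ X₂ := by rw [hG]; exact Int.gcd_dvd_left _ _
  obtain ⟨Y₃, hY₃⟩ : G ∣ Y₂ := by rw [hG]; exact Int.gcd_dvd_right _ _
  have hcop3 : IsCoprime X₃ Y₃ := by
    obtain ⟨u, v, huv⟩ : ∃ u v : ℤ, u * X₂ + v * Y₂ = G := by
      rw [hG]
      exact ⟨Int.gcdA _ _, Int.gcdB _ _, by rw [Int.gcd_eq_gcd_ab]; ring⟩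
    refine ⟨u, v, ?_⟩
    have : G * (u * X₃ + v * Y₃) = G * 1 := by
      rw [mul_one]
      calc G * (u * X₃ + v * Y₃) = u * (G * X₃) + v * (G * Y₃) := by ring
        _ = G := by rw [← hX₃, ← hY₃]; exact huv
    exact mul_left_cancel₀ hG0 this
  have hGW : G ∣ W₂ := by
    refine sq_dvd hp hG0 (N := X₃ ^ 2 - D * Y₃ ^ 2) ?_
    rw [← heq2, hX₃, hY₃]
    ring
  obtain ⟨W₃, hW₃⟩ := hGW
  have hGM : IsCoprime G M := hX₂M.of_isCoprime_of_dvd_left ⟨X₃, hX₃⟩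
  have hW₃M : IsCoprime W₃ M := hW₂M.of_isCoprime_of_dvd_left ⟨G, by rw [hW₃]; ring⟩
  have hW₃0 := hnz _ hW₃M
  have heq3 : X₃ ^ 2 - D * Y₃ ^ 2 = p * W₃ ^ 2 := by
    have h1 : G ^ 2 * (X₃ ^ 2 - D * Y₃ ^ 2) = G ^ 2 * (p * W₃ ^ 2) := by
      have h2 := heq2
      rw [hX₃, hY₃, hW₃] at h2
      linarith
    exact mul_left_cancel₀ (pow_ne_zero 2 hG0) h1
  have hXW3 : M ∣ X₃ - W₃ := by
    have h1 : M ∣ G * (X₃ - W₃) := by
      have e : G * (X₃ - W₃) = X₂ - W₂ := by rw [hX₃, hW₃]; ring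
      rw [e]
      exact hXW
    exact hGM.symm.dvd_of_dvd_mul_left h1
  have hY3 : M ∣ Y₃ := by
    have h1 : M ∣ G * Y₃ := by rw [← hY₃]; exact hYM
    exact hGM.symm.dvd_of_dvd_mul_left h1
  have hX₃0 : X₃ ≠ 0 := by
    rintro rfl
    apply hX₂0
    rw [hX₃, mul_zero]
  rcases lt_or_gt_of_ne hX₃0 with h | h
  · refine ⟨p, -X₃, -Y₃, -W₃, hp, hpM, by rw [neg_sq, neg_sq, neg_sq]; exact heq3, by omega, neg_ne_zero.2 hW₃0, ?_,
      (dvd_neg).2 hY3, hW₃M.neg_left, hcop3.neg_left.neg_right⟩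
    have e : -X₃ - -W₃ = -(X₃ - W₃) := by ring
    rw [e]
    exact (dvd_neg).2 hXW3
  · exact ⟨p, X₃, Y₃, W₃, hp, hpM, heq3, h, hW₃0, hXW3, hY3, hW₃M, hcop3⟩

theorem chi_one {a : ℤ} {χ : ℤ → ℤ} (hχ : Ch a χ) {N : ℕ} (hN : N ≠ 0)
    (h : ∀ q : ℕ, q.Prime → q ∣ N → χ q = 1) : ∀ n : ℕ, n ∣ N → χ n = 1 := by
  intro n
  induction n using Nat.recOnMul with
  | zero => intro h0; exact absurd (Nat.eq_zero_of_zero_dvd h0) hN
  | one => intro _; simpa using hχ.one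
  | prime q hq => intro hd; exact h q hq hd
  | mul m n hm hn =>
    intro hd
    rw [Nat.cast_mul, hχ.mul, hm ((Dvd.intro _ rfl).trans hd), hn ((Dvd.intro_left _ rfl).trans hd), one_mul]

end U0

open Pool.Agent.W78.GA (Qd nm)
open Pool.Agent.W78.GR (tp)
open U0 in
/-- Task A -/
theorem u0_of {t c a : ℤ} {χ : ℤ → ℤ} (hd : 4 * c < t ^ 2) (hns : ¬ IsSquare (t ^ 2 - 4 * c)) (ha : 0 < a)
    (_hac : a ∣ c) (hχ : Ch a χ) (hs : SplOne (t ^ 2 - 4 * c) a χ) (hm : χ (-1) = 1) : S_U0 t c χ := by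
  obtain ⟨D, hD⟩ : ∃ D, D = t ^ 2 - 4 * c := ⟨_, rfl⟩
  rw [← hD] at hns hs
  have hD0 : 0 < D := by rw [hD]; linarith
  have hM : 2 ≤ 2 * a * D := by nlinarith
  obtain ⟨p, X, Y, W, hp, hpM, heq, hX, hW, hXW, hY, hWM, hXY⟩ := key hns hM
  have hpi : Prime (p : ℤ) := Nat.prime_iff_prime_int.1 hp
  have hspl : ∀ q : ℕ, q.Prime → (q : ℤ) ∣ p * W ^ 2 → χ q = 1 := by
    intro q hq hqd
    have hqi : Prime (q : ℤ) := Nat.prime_iff_prime_int.1 hq
    refine hs q hq ?_ ?_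
    · intro hqM
      have hnu : ∀ x : ℤ, IsCoprime x (2 * a * D) → ¬ (q : ℤ) ∣ x := fun x hx hqx =>
        hqi.not_isUnit (hx.isUnit_of_dvd' hqx hqM)
      rcases hqi.dvd_or_dvd hqd with h1 | h1
      · exact hnu _ hpM h1
      · exact hnu _ hWM (hqi.dvd_of_dvd_pow h1)
    · have hqY : ¬ (q : ℤ) ∣ Y := by
        intro h1
        have h2 : (q : ℤ) ∣ X ^ 2 := by
          have e : X ^ 2 = p * W ^ 2 + Y * (D * Y) := by linarith
          rw [e]
          exact dvd_add hqd (Dvd.dvd.mul_right h1 _)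
        exact hqi.not_isUnit (hXY.isUnit_of_dvd' (hqi.dvd_of_dvd_pow h2) h1)
      have : Fact q.Prime := ⟨hq⟩
      have hY0 : ((Y : ℤ) : ZMod q) ≠ 0 := by
        rw [Ne, ZMod.intCast_zmod_eq_zero_iff_dvd]
        exact hqY
      refine ⟨((X : ℤ) : ZMod q) / ((Y : ℤ) : ZMod q), ?_⟩
      have h3 : (((X ^ 2 - D * Y ^ 2 : ℤ)) : ZMod q) = 0 := by
        rw [heq, ZMod.intCast_zmod_eq_zero_iff_dvd]
        exact hqd
      push_cast at h3
      field_simp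
      linear_combination h3
  have hnm : nm (⟨X - t * Y, 2 * Y⟩ : Qd t c) = W.natAbs ^ 2 * p := by
    unfold nm
    have e : (X - t * Y) ^ 2 + t * (X - t * Y) * (2 * Y) + c * (2 * Y) ^ 2 = W ^ 2 * p := by
      have h := heq
      rw [hD] at h
      linear_combination h
    show ((X - t * Y) ^ 2 + t * (X - t * Y) * (2 * Y) + c * (2 * Y) ^ 2).natAbs = _
    rw [e, Int.natAbs_mul, Int.natAbs_pow, Int.natAbs_natCast]
  have hWn : W.natAbs ≠ 0 := Int.natAbs_ne_zero.2 hW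
  have hN0 : W.natAbs ^ 2 * p ≠ 0 := mul_ne_zero (pow_ne_zero 2 hWn) hp.ne_zero
  have hall := chi_one hχ hN0 (fun q hq hqd => hspl q hq (by
    have h1 : (q : ℤ) ∣ ((W.natAbs ^ 2 * p : ℕ) : ℤ) := Int.natCast_dvd_natCast.2 hqd
    rw [Nat.cast_mul, Nat.cast_pow, Int.natCast_natAbs, sq_abs] at h1
    rwa [mul_comm] at h1))
  have hχW : χ W = 1 := by
    have h1 := hall W.natAbs ⟨W.natAbs * p, by ring⟩
    rw [Int.natCast_natAbs] at h1
    rcases abs_choice W with h2 | h2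
    · rwa [h2] at h1
    · rw [h2] at h1
      have e : W = (-1) * (-W) := by ring
      rw [e, hχ.mul, hm, h1, one_mul]
  refine ⟨⟨X - t * Y, 2 * Y⟩, ?_, ?_, ?_, ?_⟩
  · -- totally positive
    have hDR : (0 : ℝ) ≤ (t : ℝ) ^ 2 - 4 * c := by
      have : ((0 : ℤ) : ℝ) ≤ ((t ^ 2 - 4 * c : ℤ) : ℝ) := by
        exact_mod_cast (by rw [← hD]; exact hD0.le)
      push_cast at this
      exact this
    have hXR : (0 : ℝ) < X := by exact_mod_cast hX
    have hpos : (0 : ℝ) < (X : ℝ) ^ 2 - ((t : ℝ) ^ 2 - 4 * c) * (Y : ℝ) ^ 2 := by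
      have h1 : (0 : ℤ) < X ^ 2 - D * Y ^ 2 := by
        rw [heq]
        have : (0 : ℤ) < p := by exact_mod_cast hp.pos
        positivity
      rw [hD] at h1
      exact_mod_cast h1
    have habs : |(Y : ℝ) * Real.sqrt ((t : ℝ) ^ 2 - 4 * c)| < X := by
      apply abs_lt_of_sq_lt_sq _ hXR.le
      rw [mul_pow, Real.sq_sqrt hDR]
      linarith
    rw [abs_lt] at habs
    constructor
    · show 0 < Pool.Agent.W78.GR.s1 _
      unfold Pool.Agent.W78.GR.s1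
      push_cast
      linarith [habs.1, habs.2]
    · show 0 < Pool.Agent.W78.GR.s2 _
      unfold Pool.Agent.W78.GR.s2
      push_cast
      linarith [habs.1, habs.2]
  · rw [hnm, Pool.Agent.W78.GA.lam_sq_mul hWn hp.ne_zero, Pool.Agent.W78.GA.lam_prime hp]
  · show χ (X - t * Y) = 1
    have haM : a ∣ 2 * a * D := ⟨2 * D, by ring⟩
    rw [hχ.per (X - t * Y) W, hχW]
    have e : X - t * Y - W = (X - W) - t * Y := by ring
    rw [e]
    exact dvd_sub (haM.trans hXW) (Dvd.dvd.mul_left (haM.trans hY) t)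
  · intro n hn
    rw [hnm] at hn
    exact hall n hn

end Pool.Agent.K9h53.LQ
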