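import Pool.Agent.W78.GS.All
import Pool.Agent.K9h53.LQ.R
import Pool.Agent.K9h53.LQ.DecR
import Pool.Agent.K9h53.LQ.Mom
import Pool.Agent.K9h53.LQ.Celle
import Pool.Agent.K9h53.LQ.EleX

/-!
Project LQ (helper53): the Matomaki-Radziwill theorem for `g (N z) χ (z.re)`.
-/

set_option autoImplicit false

namespace Pool.Agent.K9h53.LQ

open Finset Filter
open Pool.Agent.W78
open Pool.Agent.W78.GA (Qd nm prim bg dt ip lat NN cellM mE Sm)
open Pool.Agent.W78.GR (tp Un fd)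
open Pool.Agent.W78.GS (Pm)

variable {g : ℕ → ℤ} {χ : ℤ → ℤ} {t c a : ℤ} {η : (Qd t c)ˣ}

theorem mr_gt (hg : Pm g) (U : Un t c η) (hχ : Ch a χ) (ha : 0 < a) (hac : a ∣ c)
    (hs : SplOne (t ^ 2 - 4 * c) a χ) (hη : χ (η : Qd t c).re = 1) :
    S_MR (Gt (t := t) (c := c) g χ) η := by
  have hlat : GR.S_LAT t c η := Pool.Agent.W398.GR.lat U
  have hred : GR.S_RED t c := Pool.Agent.W880.GR.red U.disc U.nsq
  have hlati : GR.S_LATI t c η := Pool.Agent.W880.GR.lati_of U hlat hred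
  have hls : GR.S_LS t c η := Pool.Agent.W586.GR.ls U
  have hang1 : GR.S_ANG1 t c η := Pool.Agent.W134.GR.ang1 U
  have hang : GR.S_ANG t c η := Pool.Agent.W398.GR.ang_of hang1 (Pool.Agent.W398.GR.ang2 U)
  have hangi : GR.S_ANGI t c η := Pool.Agent.W880.GR.angi_of U hang hred
  have hmach : GA.S_MACH := Pool.Agent.W586.GA.mach_of Pool.Agent.W240.GA.leva
    Pool.Agent.W240.GA.levb Pool.Agent.W397.GA.s_cnt Pool.Agent.W586.GA.upart
  have hT : Tw (Gt g χ) η := tw_gt hg U hχ hac hη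
  exact mr_of hT U hmach (sele_of hg hχ ha hs (Pool.Agent.W352.GR.ele U.disc U.nsq))
    (dec_of hT U hlat hlati (Pool.Agent.W248.GR.tk_of U hlat hlati))
    (mom0_of hT U hls hlat) (momp_of hT U hls)
    (mom_of hT U hls hlat hlati)
    (Pool.Agent.W402.GR.sparse_of U hang hlat) hls
    (celle_of hT U
      (Pool.Agent.W402.GR.sele_of U hangi hlat (Pool.Agent.W586.GR.selb U.disc U.nsq))) hlat

end Pool.Agent.K9h53.LQ
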