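import Pool.Agent.K9h53.LQ.Cases
import Pool.Agent.K9h53.LQ.MrX
import Pool.Agent.K9h53.LQ.NearP
import Pool.Agent.K9h53.LQ.TaskD
import Pool.Agent.K9h53.LQ.A0
import Pool.Agent.K9h53.LQ.U0

/-!
Project LQ (helper53): the Liouville function takes both signs at the values of an arbitrary
quadratic polynomial of positive nonsquare discriminant.
-/

set_option autoImplicit false

namespace Pool.Agent.K9h53.LQ

open Finset Filter
open Pool.Agent.W78
open Pool.Agent.W78.GA (Qd nm prim bg dt ip)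
open Pool.Agent.W78.GR (tp Un s1 s2)
open Pool.Agent.W78.GS (Pm)
open Pool.Agent.H376R2.MR (lam)

variable {χ : ℤ → ℤ} {t c a b c₀ : ℤ}

/-- the square of a unit is again admissible -/
lemma un_sq {η : (Qd t c)ˣ} (U : Un t c η) : Un t c (η ^ 2) where
  disc := U.disc
  nsq := U.nsq
  pos := by
    have h := U.tp_zpow 2
    exact_mod_cast h
  big := by
    have h := U.s1_gt
    have h2 := U.big
    have e : (((η ^ 2 : (Qd t c)ˣ)) : Qd t c) = (η : Qd t c) * (η : Qd t c) := by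
      rw [Units.val_pow_eq_pow_val, pow_two]
    rw [e, GR.s1_mul U.disc]
    nlinarith

lemma chi_unit {η : (Qd t c)ˣ} (hχ : Ch a χ) (hac : a ∣ c) :
    χ ((((η ^ 2 : (Qd t c)ˣ)) : Qd t c)).re = 1 := by
  have h1 : χ (η : Qd t c).re * χ ((η⁻¹ : (Qd t c)ˣ) : Qd t c).re = 1 := by
    rw [← hχ.mul_re hac, ← Units.val_mul, mul_inv_cancel, Units.val_one, QuadraticAlgebra.re_one,
      hχ.one]
  have e : (((η ^ 2 : (Qd t c)ˣ)) : Qd t c) = (η : Qd t c) * (η : Qd t c) := by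
    rw [Units.val_pow_eq_pow_val, pow_two]
  rw [e, hχ.mul_re hac]
  rcases hχ.val (η : Qd t c).re with h | h | h
  · rw [h] at h1
    norm_num at h1
  · rw [h]; norm_num
  · rw [h]; norm_num

lemma Ch.sq (hχ : Ch a χ) : Ch a (fun x => χ x ^ 2) where
  mul := fun x y => by rw [hχ.mul, mul_pow]
  per := fun x y h => by rw [hχ.per x y h]
  one := by rw [hχ.one, one_pow]
  val := fun x => by rcases hχ.val x with h | h | h <;> simp [h]
  cop := fun x => by rw [← hχ.cop x]; simp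

theorem tri_all (ha : 0 < a) (hD : 0 < b ^ 2 - 4 * (a * c₀))
    (hns : ¬ IsSquare (b ^ 2 - 4 * (a * c₀))) (hχ : Ch a χ)
    (hs : SplOne (b ^ 2 - 4 * (a * c₀)) a χ) (hm : χ (-1) = 1) : S_TRI lam χ a b c₀ := by
  have hg : Pm lam := GS.pm_lam
  have hac : a ∣ a * c₀ := Dvd.intro _ rfl
  have hd : 4 * (a * c₀) < b ^ 2 := by linarith
  obtain ⟨η₀, U₀⟩ := Pool.Agent.W376.GR.unit hd hns
  have U := un_sq U₀
  have hη := chi_unit (η := η₀) hχ hac
  obtain ⟨u₀, hu₀, hgu, hχu, hdv⟩ := u0_of hd hns ha hac hχ hs hm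
  have hlat : GR.S_LAT b (a * c₀) (η₀ ^ 2) := Pool.Agent.W398.GR.lat U
  have hs2 : SplOne (b ^ 2 - 4 * (a * c₀)) a (fun x => χ x ^ 2) := by
    intro q hq h1 h2
    simp only
    rw [hs q hq h1 h2, one_pow]
  have hη2 : (fun x => χ x ^ 2) ((((η₀ ^ 2 : (Qd b (a * c₀))ˣ)) : Qd b (a * c₀))).re = 1 := by
    simp only
    rw [hη, one_pow]
  have hmr1 := mr_gt hg U hχ.sq ha hac hs2 hη2
  have hmr2 := mr_gt hg U hχ ha hac hs hη
  have hA0 : S_A0 (η₀ ^ 2) a := a0_of U ha (Pool.Agent.W412.GR.a0_of U hlat)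
  have hnear := near_of hg U hχ hmr1 hmr2 hA0 (Pool.Agent.W54.GR.sect U) hlat hu₀ hgu hχu hdv
  exact tri_of hg ha hχ (η₀ ^ 2) U hη hnear

theorem fin_all (ha : 0 < a) (hD : 0 < b ^ 2 - 4 * (a * c₀))
    (hns : ¬ IsSquare (b ^ 2 - 4 * (a * c₀))) : S_FIN lam a b c₀ :=
  fin_of GS.pm_lam ha hD hns fun _ hχ hs hm => tri_all ha hD hns hχ hs hm

end Pool.Agent.K9h53.LQ
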