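import Mathlib

/-!
Project LQ (helper53): the relation between two values of `a t^2 + b t + c₀`.
-/

set_option autoImplicit false

namespace Pool.Agent.K9h53.LQ

/-- the norm of `r z + k x` in terms of the data `A = N z`, `2n+b = Tr (z̄ x)`, `γ = N x` -/
def nA (b k r A n γ : ℤ) : ℤ := r ^ 2 * A + r * k * (2 * n + b) + k ^ 2 * γ

/-- the trace of `z̄ (r z + k x)` -/
def nB (b k r A n : ℤ) : ℤ := 2 * r * A + k * (2 * n + b)

lemma nB_sq {a b c₀ k r A n γ : ℤ} (h : A * γ = n ^ 2 + b * n + a * c₀) :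
    nB b k r A n ^ 2 = 4 * A * nA b k r A n γ + k ^ 2 * (b ^ 2 - 4 * (a * c₀)) := by
  unfold nB nA
  linear_combination (-4 * k ^ 2) * h

/-- the relation -/
theorem rel {a b c₀ k r μ A n γ q d : ℤ} (ha : a ≠ 0)
    (hA : A * γ = n ^ 2 + b * n + a * c₀)
    (h1 : a ∣ A * μ + n) (h2 : a ∣ A * μ ^ 2 + (2 * n + b) * μ + γ)
    (hqd : A = d * q) (hqr : k * a ∣ q * (r - k * μ) - 1) :
    ∃ t₁ t₂ m : ℤ, t₂ = t₁ + k * m ∧
      a * t₁ ^ 2 + b * t₁ + c₀ = d * m ∧
      a * t₂ ^ 2 + b * t₂ + c₀ = m * (q * nA b k r A n γ) ∧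
      k * (2 * a * t₁ + b) = nB b k r A n - 2 * d ∧
      k * (2 * a * t₂ + b) = 2 * q * nA b k r A n γ - nB b k r A n := by
  obtain ⟨s, hs⟩ := hqr
  obtain ⟨v, hv⟩ := h1
  obtain ⟨w, hw⟩ := h2
  obtain ⟨β, hβ⟩ : ∃ β : ℤ, β = 2 * n + b := ⟨_, rfl⟩
  obtain ⟨ρ, hρ⟩ : ∃ ρ : ℤ, ρ = q * μ + a * s := ⟨_, rfl⟩
  obtain ⟨m, hm⟩ : ∃ m : ℤ, m = q * w + 2 * A * μ * s + d * a * s ^ 2 + β * s := ⟨_, rfl⟩
  have hrq : r * q = 1 + k * ρ := by rw [hρ]; linear_combination hs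
  have hM : a * m = d * ρ ^ 2 + β * ρ + q * γ := by
    rw [hm, hρ, hβ]
    linear_combination (-q) * hw - (-(q * μ ^ 2) - 2 * μ * a * s) * hqd
  have ht : a * (v + d * s) = d * ρ + n := by
    rw [hρ]
    linear_combination (-1) * hv + μ * hqd
  have hf1 : a * (v + d * s) ^ 2 + b * (v + d * s) + c₀ = d * m := by
    apply mul_left_cancel₀ ha
    have e1 : a * (a * (v + d * s) ^ 2 + b * (v + d * s) + c₀) =
        (a * (v + d * s)) ^ 2 + b * (a * (v + d * s)) + a * c₀ := by ring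
    have e2 : a * (d * m) = d * (a * m) := by ring
    rw [e1, e2, ht, hM, hβ]
    linear_combination (-1) * hA + γ * hqd
  have hkey : d + k * (2 * (a * (v + d * s)) + b) + k ^ 2 * (a * m) = q * nA b k r A n γ := by
    rw [ht, hM]
    unfold nA
    have e3 : q * (r ^ 2 * A + r * k * (2 * n + b) + k ^ 2 * γ) =
        d * (r * q) ^ 2 + k * (2 * n + b) * (r * q) + k ^ 2 * q * γ := by
      rw [hqd]; ring
    rw [e3, hrq, hβ]
    ring
  have hB1 : k * (2 * a * (v + d * s) + b) = nB b k r A n - 2 * d := by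
    have e4 : k * (2 * a * (v + d * s) + b) = k * (2 * (a * (v + d * s)) + b) := by ring
    rw [e4, ht]
    unfold nB
    linear_combination (-2 * d) * hrq - 2 * r * hqd
  refine ⟨v + d * s, v + d * s + k * m, m, rfl, hf1, ?_, hB1, ?_⟩
  · rw [← hkey]
    linear_combination hf1
  · have e5 : k * (2 * a * (v + d * s + k * m) + b) =
        k * (2 * a * (v + d * s) + b) + 2 * (k ^ 2 * (a * m)) := by ring
    have e6 : k ^ 2 * (a * m) = q * nA b k r A n γ - d - k * (2 * a * (v + d * s) + b) := by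
      linear_combination hkey
    rw [e5, e6, hB1]
    ring

end Pool.Agent.K9h53.LQ
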