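import Pool.Agent.W78.GT.Basic
import Mathlib.NumberTheory.LegendreSymbol.JacobiSymbol

/-!
Project LQ (helper53): the sieve for roots and arbitrary split primes (port of the starting file
W976/GT/Sift, where the primes are congruent to `1`).
-/

set_option autoImplicit false

namespace Pool.Agent.K9h53.LQ.Sift

open Finset
open Pool.Agent.W78.GT

/-- binary quadratic form -/
def Fq (a b c' x y : ℤ) : ℤ := a * x ^ 2 + b * x * y + c' * y ^ 2

/-- a root direction modulo `q` -/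
lemma root_dir {a b c' D : ℤ} {q : ℕ} (hq : q.Prime) (h : q ≠ 2 ∧ ∃ s : ZMod q, s * s = (D : ZMod q))
    (hD : b ^ 2 - 4 * a * c' = D) : (q : ℤ) ∣ a ∨ ∃ k : ℤ, (q : ℤ) ∣ Fq a b c' k 1 := by
  by_cases ha : (q : ℤ) ∣ a
  · exact Or.inl ha
  refine Or.inr ?_
  have : Fact q.Prime := ⟨hq⟩
  obtain ⟨hq2, s, hs⟩ := h
  have ha' : (a : ZMod q) ≠ 0 := by
    rwa [Ne, ZMod.intCast_zmod_eq_zero_iff_dvd] at *
  have h2 : (2 : ZMod q) ≠ 0 := by
    intro h0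
    have : ((2 : ℕ) : ZMod q) = 0 := by exact_mod_cast h0
    rw [ZMod.natCast_eq_zero_iff] at this
    exact hq2 ((Nat.prime_dvd_prime_iff_eq hq Nat.prime_two).1 this)
  set z : ZMod q := (s - b) / (2 * a) with hz
  obtain ⟨k, hk⟩ := ZMod.intCast_surjective z
  refine ⟨k, ?_⟩
  rw [← ZMod.intCast_zmod_eq_zero_iff_dvd]
  unfold Fq
  push_cast
  rw [hk]
  have hDz : (b : ZMod q) ^ 2 - 4 * a * c' = s * s := by
    rw [hs, ← hD]
    push_cast
    ring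
  have h3 : 2 * a * z = s - b := by
    rw [hz]
    field_simp
  have h4 : (4 * a : ZMod q) * (a * z ^ 2 + b * z * 1 + c' * 1 ^ 2) = 0 := by
    have : (4 * a : ZMod q) * (a * z ^ 2 + b * z * 1 + c' * 1 ^ 2) =
        (2 * a * z) ^ 2 + 2 * b * (2 * a * z) + 4 * a * c' := by ring
    rw [this, h3]
    linear_combination -hDz
  have h5 : (4 * a : ZMod q) ≠ 0 := by
    have : (4 * a : ZMod q) = 2 * 2 * a := by ring
    rw [this]
    exact mul_ne_zero (mul_ne_zero h2 h2) ha'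
  have h6 := (mul_eq_zero.1 h4).resolve_left h5
  simpa using h6

lemma Fq_congr {a b c' x y x' y' : ℤ} {q : ℤ} (hx : q ∣ x - x') (hy : q ∣ y - y') :
    q ∣ Fq a b c' x y - Fq a b c' x' y' := by
  obtain ⟨k, hk⟩ := hx
  obtain ⟨l, hl⟩ := hy
  have h1 : x = x' + q * k := by linarith
  have h2 : y = y' + q * l := by linarith
  rw [h1, h2]
  unfold Fq
  ring_nf
  refine ⟨a * x' * k * 2 + a * q * k ^ 2 + b * x' * l + b * y' * k + b * q * k * l
    + c' * y' * l * 2 + c' * q * l ^ 2, ?_⟩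
  ring

lemma Fq_dvd_iff {a b c' x y x' y' : ℤ} {q : ℤ} (hx : q ∣ x - x') (hy : q ∣ y - y') :
    q ∣ Fq a b c' x y ↔ q ∣ Fq a b c' x' y' := by
  have := Fq_congr (a := a) (b := b) (c' := c') hx hy
  constructor
  · intro h
    have h2 := dvd_sub h this
    simpa using h2
  · intro h
    have h2 := dvd_add this h
    simpa using h2

/-- nonzeros modulo `q` -/
noncomputable def tq (a b c' : ℤ) (q : ℕ) : Finset (ℤ × ℤ) :=
  ((Ico (0 : ℤ) q) ×ˢ (Ico (0 : ℤ) q)).filter (fun p => ¬ (q : ℤ) ∣ Fq a b c' p.1 p.2)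

lemma card_tq {a b c' D : ℤ} {q : ℕ} (hq : q.Prime) (h : q ≠ 2 ∧ ∃ s : ZMod q, s * s = (D : ZMod q))
    (hD : b ^ 2 - 4 * a * c' = D) : ((tq a b c' q).card : ℝ) ≤ (q : ℝ) ^ 2 * (1 - 1 / (q : ℝ)) := by
  have hq0 : (0 : ℤ) < q := by exact_mod_cast hq.pos
  have hz : q ≤ (((Ico (0 : ℤ) q) ×ˢ (Ico (0 : ℤ) q)).filter
      (fun p => (q : ℤ) ∣ Fq a b c' p.1 p.2)).card := by
    have hc : (Ico (0 : ℤ) q).card = q := by simp
    rcases root_dir hq h hD with h1 | ⟨k, hk⟩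
    · calc q = (Ico (0 : ℤ) q).card := hc.symm
        _ ≤ _ := by
          refine Finset.card_le_card_of_injOn (fun x => (x, 0)) ?_ ?_
          · intro x hx
            simp only [coe_filter, Set.mem_ofPred_eq, mem_product]
            refine ⟨⟨hx, by simp [hq.pos]⟩, ?_⟩
            unfold Fq
            simp only [mul_zero, ne_eq, OfNat.ofNat_ne_zero, not_false_eq_true, zero_pow, add_zero]
            exact Dvd.dvd.mul_right h1 _
          · intro x _ y _ hxy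
            simpa using hxy
    · calc q = (Ico (0 : ℤ) q).card := hc.symm
        _ ≤ _ := by
          refine Finset.card_le_card_of_injOn (fun y => ((k * y) % q, y)) ?_ ?_
          · intro y hy
            simp only [coe_filter, Set.mem_ofPred_eq, mem_product]
            refine ⟨⟨?_, hy⟩, ?_⟩
            · rw [Finset.mem_Ico]
              exact ⟨Int.emod_nonneg _ hq0.ne', Int.emod_lt_of_pos _ hq0⟩
            · have e1 : (q : ℤ) ∣ (k * y) % q - k * y := by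
                have : (q : ℤ) ∣ k * y - (k * y) % q := Int.dvd_self_sub_emod
                have h3 := (dvd_neg.2 this)
                simpa using h3
              rw [Fq_dvd_iff e1 (show (q : ℤ) ∣ y - y by simp)]
              have e2 : Fq a b c' (k * y) y = y ^ 2 * Fq a b c' k 1 := by
                unfold Fq; ring
              rw [e2]
              exact Dvd.dvd.mul_left hk _
          · intro x _ y _ hxy
            have := congrArg Prod.snd hxy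
            simpa using this
  have hsum := Finset.card_filter_add_card_filter_not
    (s := (Ico (0 : ℤ) q) ×ˢ (Ico (0 : ℤ) q)) (fun p : ℤ × ℤ => (q : ℤ) ∣ Fq a b c' p.1 p.2)
  have htot : ((Ico (0 : ℤ) q) ×ˢ (Ico (0 : ℤ) q)).card = q * q := by
    rw [Finset.card_product]; simp
  rw [htot] at hsum
  have h1 : (tq a b c' q).card + q ≤ q * q := by
    unfold tq
    omega
  have hqr : (0 : ℝ) < q := by exact_mod_cast hq.pos
  have h2 : ((tq a b c' q).card : ℝ) + q ≤ q * q := by exact_mod_cast h1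
  have h3 : (q : ℝ) ^ 2 * (1 - 1 / (q : ℝ)) = q * q - q := by
    field_simp
  rw [h3]
  linarith

/-- number of integers of an interval in a residue class -/
lemma card_class (L N : ℕ) (hN : 0 < N) (r : ℤ) :
    ((Icc (-(L : ℤ)) L).filter (fun x => x % (N : ℤ) = r)).card ≤ 2 * L / N + 1 := by
  have hN0 : (0 : ℤ) < N := by exact_mod_cast hN
  have hr : (range (2 * L / N + 1)).card = 2 * L / N + 1 := Finset.card_range _
  calc ((Icc (-(L : ℤ)) L).filter (fun x => x % (N : ℤ) = r)).card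
      ≤ (range (2 * L / N + 1)).card := by
        refine Finset.card_le_card_of_injOn (fun x => ((x + L) / N).toNat) ?_ ?_
        · intro x hx
          simp only [coe_filter, Set.mem_ofPred_eq, Finset.mem_Icc] at hx
          simp only [coe_range, Set.mem_Iio]
          have h1 : (x + L) / N ≤ (2 * L : ℤ) / N := Int.ediv_le_ediv hN0 (by linarith [hx.1.2])
          have h2 : ((2 * L : ℤ) / N).toNat = 2 * L / N := by
            have : ((2 * L : ℤ) / N) = ((2 * L / N : ℕ) : ℤ) := by push_cast; rfl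
            rw [this, Int.toNat_natCast]
          have h3 : ((x + L) / N).toNat ≤ ((2 * L : ℤ) / N).toNat := Int.toNat_le_toNat h1
          omega
        · intro x hx y hy hxy
          simp only [coe_filter, Set.mem_ofPred_eq, Finset.mem_Icc] at hx hy
          have hx0 : 0 ≤ (x + L) / (N : ℤ) := Int.ediv_nonneg (by linarith [hx.1.1]) hN0.le
          have hy0 : 0 ≤ (y + L) / (N : ℤ) := Int.ediv_nonneg (by linarith [hy.1.1]) hN0.le
          have h1 : (x + L) / (N : ℤ) = (y + L) / N := by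
            have h2 : ((x + L) / (N : ℤ)).toNat = ((y + L) / (N : ℤ)).toNat := hxy
            omega
          have h3 : (x + L) % (N : ℤ) = (y + L) % N := by
            rw [Int.add_emod, hx.2, ← hy.2, ← Int.add_emod]
          have h4 := Int.mul_ediv_add_emod (x + L) N
          have h5 := Int.mul_ediv_add_emod (y + L) N
          rw [h1, h3, h5] at h4
          linarith
    _ = 2 * L / N + 1 := hr

/-- residues -/
noncomputable def Rq (a b c' : ℤ) (Q : Finset ℕ) : Finset (ℤ × ℤ) :=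
  ((Ico (0 : ℤ) (∏ q ∈ Q, q : ℕ)) ×ˢ (Ico (0 : ℤ) (∏ q ∈ Q, q : ℕ))).filter
    (fun p => ∀ q ∈ Q, ¬ (q : ℤ) ∣ Fq a b c' p.1 p.2)

lemma eq_of_mod {Q : Finset ℕ} (hQ : ∀ q ∈ Q, q.Prime) {x y : ℤ}
    (hx : x ∈ Ico (0 : ℤ) (∏ q ∈ Q, q : ℕ)) (hy : y ∈ Ico (0 : ℤ) (∏ q ∈ Q, q : ℕ))
    (h : ∀ q ∈ Q, x % (q : ℤ) = y % (q : ℤ)) : x = y := by
  have h1 : ((∏ q ∈ Q, q : ℕ) : ℤ) ∣ x - y := by
    push_cast
    refine Finset.prod_dvd_of_coprime ?_ ?_
    · intro p hp q hq hpq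
      have : Nat.Coprime p q := (Nat.coprime_primes (hQ p hp) (hQ q hq)).2 hpq
      exact Nat.isCoprime_iff_coprime.2 this
    · intro q hq
      exact Int.ModEq.dvd (show y ≡ x [ZMOD q] from (h q hq).symm)
  rw [Finset.mem_Ico] at hx hy
  have h2 : |x - y| < ((∏ q ∈ Q, q : ℕ) : ℤ) := by
    rw [abs_lt]
    constructor <;> linarith [hx.1, hx.2, hy.1, hy.2]
  have := Int.eq_zero_of_abs_lt_dvd h1 h2
  linarith

lemma card_Rq {a b c' D : ℤ} {Q : Finset ℕ} (hQ : ∀ q ∈ Q, q.Prime ∧ q ≠ 2 ∧ ∃ s : ZMod q, s * s = (D : ZMod q))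
    (hD : b ^ 2 - 4 * a * c' = D) : ((Rq a b c' Q).card : ℝ) ≤
      ((∏ q ∈ Q, q : ℕ) : ℝ) ^ 2 * ∏ q ∈ Q, (1 - 1 / (q : ℝ)) := by
  have h1 : (Rq a b c' Q).card ≤ (Q.pi (fun q => tq a b c' q)).card := by
    refine Finset.card_le_card_of_injOn
      (fun p => fun q _ => (p.1 % (q : ℤ), p.2 % (q : ℤ))) ?_ ?_
    · intro p hp
      simp only [Rq, coe_filter, Set.mem_ofPred_eq] at hp
      rw [Finset.mem_coe, Finset.mem_pi]
      intro q hq
      have hq0 : (0 : ℤ) < q := by exact_mod_cast (hQ q hq).1.pos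
      simp only [tq, mem_filter, mem_product, Finset.mem_Ico]
      refine ⟨⟨⟨Int.emod_nonneg _ hq0.ne', Int.emod_lt_of_pos _ hq0⟩,
        ⟨Int.emod_nonneg _ hq0.ne', Int.emod_lt_of_pos _ hq0⟩⟩, ?_⟩
      rw [← Fq_dvd_iff (x := p.1) (y := p.2) Int.dvd_self_sub_emod Int.dvd_self_sub_emod]
      exact hp.2 q hq
    · intro p hp p' hp' hpp
      simp only [Rq, coe_filter, Set.mem_ofPred_eq, mem_product] at hp hp'
      have h2 : ∀ q ∈ Q, (p.1 % (q : ℤ), p.2 % (q : ℤ)) = (p'.1 % (q : ℤ), p'.2 % (q : ℤ)) := by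
        intro q hq
        exact congrFun (congrFun hpp q) hq
      refine Prod.ext ?_ ?_
      · exact eq_of_mod (fun q hq => (hQ q hq).1) hp.1.1 hp'.1.1
          (fun q hq => congrArg Prod.fst (h2 q hq))
      · exact eq_of_mod (fun q hq => (hQ q hq).1) hp.1.2 hp'.1.2
          (fun q hq => congrArg Prod.snd (h2 q hq))
  rw [Finset.card_pi] at h1
  calc ((Rq a b c' Q).card : ℝ) ≤ ((∏ q ∈ Q, (tq a b c' q).card : ℕ) : ℝ) := by exact_mod_cast h1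
    _ = ∏ q ∈ Q, ((tq a b c' q).card : ℝ) := by push_cast; rfl
    _ ≤ ∏ q ∈ Q, ((q : ℝ) ^ 2 * (1 - 1 / (q : ℝ))) := by
        refine Finset.prod_le_prod (fun _ _ => by positivity) fun q hq => ?_
        exact card_tq (hQ q hq).1 (hQ q hq).2 hD
    _ = _ := by
        rw [Finset.prod_mul_distrib, Finset.prod_pow]
        push_cast
        rfl

/-- pairs in a box without prime divisors from `Q` -/
noncomputable def Bq (a b c' : ℤ) (Q : Finset ℕ) (L : ℕ) : Finset (ℤ × ℤ) :=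
  ((Icc (-(L : ℤ)) L) ×ˢ (Icc (-(L : ℤ)) L)).filter
    (fun p => ∀ q ∈ Q, ¬ (q : ℤ) ∣ Fq a b c' p.1 p.2)

lemma card_Bq {a b c' D : ℤ} {Q : Finset ℕ} (hQ : ∀ q ∈ Q, q.Prime ∧ q ≠ 2 ∧ ∃ s : ZMod q, s * s = (D : ZMod q))
    (hD : b ^ 2 - 4 * a * c' = D) {L : ℕ} (hL : (∏ q ∈ Q, q) ≤ L) : ((Bq a b c' Q L).card : ℝ) ≤
      9 * (L : ℝ) ^ 2 * ∏ q ∈ Q, (1 - 1 / (q : ℝ)) := by
  set N : ℕ := ∏ q ∈ Q, q with hN
  have hNpos : 0 < N := Finset.prod_pos fun q hq => (hQ q hq).1.pos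
  have hN0 : (0 : ℤ) < N := by exact_mod_cast hNpos
  have h1 : (Bq a b c' Q L).card ≤ (2 * L / N + 1) ^ 2 * (Rq a b c' Q).card := by
    refine Finset.card_le_mul_card_image_of_maps_to
      (f := fun p : ℤ × ℤ => (p.1 % (N : ℤ), p.2 % (N : ℤ))) ?_ _ ?_
    · intro p hp
      simp only [Bq, mem_filter] at hp
      simp only [Rq, mem_filter, mem_product, Finset.mem_Ico]
      refine ⟨⟨⟨Int.emod_nonneg _ hN0.ne', Int.emod_lt_of_pos _ hN0⟩,
        ⟨Int.emod_nonneg _ hN0.ne', Int.emod_lt_of_pos _ hN0⟩⟩, ?_⟩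
      intro q hq
      have hd : (q : ℤ) ∣ N := by
        exact_mod_cast Finset.dvd_prod_of_mem _ hq
      rw [← Fq_dvd_iff (x := p.1) (y := p.2) (hd.trans Int.dvd_self_sub_emod)
        (hd.trans Int.dvd_self_sub_emod)]
      exact hp.2 q hq
    · intro r _
      calc ((Bq a b c' Q L).filter (fun p : ℤ × ℤ => (p.1 % (N : ℤ), p.2 % (N : ℤ)) = r)).card
          ≤ (((Icc (-(L : ℤ)) L).filter (fun x => x % (N : ℤ) = r.1)) ×ˢ
            ((Icc (-(L : ℤ)) L).filter (fun x => x % (N : ℤ) = r.2))).card := by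
            apply Finset.card_le_card
            intro p hp
            simp only [Bq, mem_filter, mem_product] at hp ⊢
            exact ⟨⟨hp.1.1.1, congrArg Prod.fst hp.2⟩, hp.1.1.2, congrArg Prod.snd hp.2⟩
        _ ≤ (2 * L / N + 1) ^ 2 := by
            rw [Finset.card_product, pow_two]
            exact Nat.mul_le_mul (card_class L N hNpos _) (card_class L N hNpos _)
  have hNr : (0 : ℝ) < N := by exact_mod_cast hNpos
  have hLr : (N : ℝ) ≤ L := by exact_mod_cast hL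
  have h2 : ((2 * L / N + 1 : ℕ) : ℝ) ≤ 3 * (L : ℝ) / N := by
    have h3 : ((2 * L / N : ℕ) : ℝ) ≤ (2 * L : ℝ) / N := by
      have := Nat.cast_div_le (α := ℝ) (m := 2 * L) (n := N)
      push_cast at this
      exact this
    have h4 : (1 : ℝ) ≤ L / N := by rwa [le_div_iff₀ hNr, one_mul]
    push_cast
    have h5 : 3 * (L : ℝ) / N = 2 * L / N + L / N := by ring
    rw [h5]
    linarith
  have h6 := card_Rq hQ hD
  have hprod : 0 ≤ ∏ q ∈ Q, (1 - 1 / (q : ℝ)) := by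
    refine Finset.prod_nonneg fun q hq => ?_
    have : (1 : ℝ) ≤ q := by exact_mod_cast (hQ q hq).1.pos
    have : 1 / (q : ℝ) ≤ 1 := by
      rw [div_le_one (by linarith)]
      exact this
    linarith
  calc ((Bq a b c' Q L).card : ℝ) ≤ ((2 * L / N + 1 : ℕ) : ℝ) ^ 2 * ((Rq a b c' Q).card : ℝ) := by
        exact_mod_cast h1
    _ ≤ (3 * (L : ℝ) / N) ^ 2 * ((N : ℝ) ^ 2 * ∏ q ∈ Q, (1 - 1 / (q : ℝ))) := by
        refine mul_le_mul ?_ h6 (by positivity) (by positivity)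
        exact pow_le_pow_left₀ (by positivity) h2 2
    _ = 9 * (L : ℝ) ^ 2 * ∏ q ∈ Q, (1 - 1 / (q : ℝ)) := by
        field_simp
        ring

/-- an integer `n ≡ r mod d` with a positive value of the polynomial -/
lemma exists_pos (t c : ℤ) (d : ℕ) (hd : 1 ≤ d) (r : ℤ) :
    ∃ k : ℤ, 0 < Qp t c (r + k * d) := by
  refine ⟨|t| + |c| + |r| + 1, ?_⟩
  have hd' : (1 : ℤ) ≤ d := by exact_mod_cast hd
  set K := |t| + |c| + |r| + 1 with hK
  have h1 : 0 ≤ |t| := abs_nonneg _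
  have h2 : 0 ≤ |c| := abs_nonneg _
  have h3 : 0 ≤ |r| := abs_nonneg _
  have h4 := neg_abs_le t
  have h5 := neg_abs_le c
  have h6 := neg_abs_le r
  have hn : |t| + |c| + 1 ≤ r + K * d := by
    have : K ≤ K * d := by nlinarith
    linarith
  unfold Qp
  have : (r + K * d) ^ 2 + t * (r + K * d) + c = (r + K * d) * (r + K * d + t) + c := by ring
  rw [this]
  nlinarith

open scoped Classical in
/-- the data of a root -/
lemma exists_data {t c : ℤ} {C : ℕ} (hC : ∀ (d : ℕ) (n : ℤ) (d' : ℕ), 1 ≤ d → 1 ≤ d' →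
  (d : ℤ) * d' = Qp t c n → ∃ a b c' v₁ v₂ u₁ u₂ : ℤ, |a| ≤ C ∧ |b| ≤ C ∧ |c'| ≤ C ∧
    b ^ 2 - 4 * a * c' = t ^ 2 - 4 * c ∧ v₁ * u₂ - v₂ * u₁ = 1 ∧
    v₁ ^ 2 + v₂ ^ 2 ≤ C * d ∧ u₁ ^ 2 + u₂ ^ 2 ≤ C * d' ∧
    a * v₁ ^ 2 + b * v₁ * v₂ + c' * v₂ ^ 2 = d ∧ a * u₁ ^ 2 + b * u₁ * u₂ + c' * u₂ ^ 2 = d' ∧
    2 * a * v₁ * u₁ + b * (v₁ * u₂ + v₂ * u₁) + 2 * c' * v₂ * u₂ = 2 * n + t)
    {Y : ℝ} {e : ℕ × ℤ} (he : e ∈ rts t c Y) :
    ∃ a b c' v₁ v₂ u₁ u₂ k : ℤ, |a| ≤ C ∧ |b| ≤ C ∧ |c'| ≤ C ∧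
    b ^ 2 - 4 * a * c' = t ^ 2 - 4 * c ∧ v₁ * u₂ - v₂ * u₁ = 1 ∧
    v₁ ^ 2 + v₂ ^ 2 ≤ C * e.1 ∧
    a * v₁ ^ 2 + b * v₁ * v₂ + c' * v₂ ^ 2 = e.1 ∧
    2 * a * v₁ * u₁ + b * (v₁ * u₂ + v₂ * u₁) + 2 * c' * v₂ * u₂ = 2 * (e.2 + k * e.1) + t := by
  obtain ⟨h1, h2, h3, h4, h5⟩ := mem_rts.1 he
  obtain ⟨k, hk⟩ := exists_pos t c e.1 h1 e.2
  have hd0 : (0 : ℤ) < e.1 := by exact_mod_cast h1
  have h6 : (e.1 : ℤ) ∣ Qp t c (e.2 + k * e.1) := by
    have h7 : (e.1 : ℤ) ∣ (e.2 + k * e.1) - e.2 := ⟨k, by ring⟩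
    have h8 := Qp_congr (t := t) (c := c) h7
    have h9 := dvd_add h8 h3
    simpa using h9
  obtain ⟨m, hm⟩ := h6
  have hm0 : 0 < m := by
    rw [hm] at hk
    exact (mul_pos_iff_of_pos_left hd0).1 hk
  have hm1 : (m.toNat : ℤ) = m := Int.toNat_of_nonneg hm0.le
  obtain ⟨a, b, c', v₁, v₂, u₁, u₂, a1, a2, a3, a4, a5, a6, a7, a8, a9, a10⟩ :=
    hC e.1 (e.2 + k * e.1) m.toNat h1 (by omega) (by rw [hm1, hm])
  exact ⟨a, b, c', v₁, v₂, u₁, u₂, k, a1, a2, a3, a4, a5, a6, a8, a10⟩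

/-- the form and the vector determine the root -/
lemma data_inj {t a b c' v₁ v₂ u₁ u₂ k w₁ w₂ l : ℤ} {d : ℕ} {r s : ℤ}
    (h1 : v₁ * u₂ - v₂ * u₁ = 1) (h2 : v₁ * w₂ - v₂ * w₁ = 1)
    (h3 : a * v₁ ^ 2 + b * v₁ * v₂ + c' * v₂ ^ 2 = d)
    (h4 : 2 * a * v₁ * u₁ + b * (v₁ * u₂ + v₂ * u₁) + 2 * c' * v₂ * u₂ = 2 * (r + k * d) + t)
    (h5 : 2 * a * v₁ * w₁ + b * (v₁ * w₂ + v₂ * w₁) + 2 * c' * v₂ * w₂ = 2 * (s + l * d) + t)
    (hr : 0 ≤ r) (hr' : r < d) (hs : 0 ≤ s) (hs' : s < d) : r = s := by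
  -- `w = u + m v` with `m = u₁ ... `
  obtain ⟨m, hm1, hm2⟩ : ∃ m : ℤ, w₁ = u₁ + m * v₁ ∧ w₂ = u₂ + m * v₂ := by
    refine ⟨w₁ * u₂ - w₂ * u₁, ?_, ?_⟩
    · linear_combination (-w₁) * h1 + u₁ * h2
    · linear_combination (-w₂) * h1 + u₂ * h2
  rw [hm1, hm2] at h5
  have h6 : 2 * (s + l * d) + t = 2 * (r + k * d) + t + 2 * m * d := by
    rw [← h4, ← h5, ← h3]
    ring
  have h7 : (d : ℤ) ∣ r - s := ⟨l - k - m, by linarith⟩
  have h8 : |r - s| < (d : ℤ) := by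
    rw [abs_lt]
    constructor <;> linarith
  have := Int.eq_zero_of_abs_lt_dvd h7 h8
  linarith

/-- few roots without divisors from a finite set of odd primes modulo which the discriminant is a
square -/
def S_SIFT (t c : ℤ) : Prop := ∃ C : ℝ, 0 < C ∧ ∀ Q : Finset ℕ,
  (∀ q ∈ Q, q.Prime ∧ q ≠ 2 ∧ ∃ s : ZMod q, s * s = ((t ^ 2 - 4 * c : ℤ) : ZMod q)) →
  ∃ X₀ : ℝ, ∀ X : ℝ, X₀ ≤ X →
    (((rts t c X).filter (fun e => ∀ q ∈ Q, ¬ q ∣ e.1)).card : ℝ) ≤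
      C * (∏ q ∈ Q, (1 - 1 / (q : ℝ))) * X

theorem siftt_of {t c : ℤ} (hrep : S_REP t c) : S_SIFT t c := by
  classical
  obtain ⟨C, hC1, hC⟩ := hrep
  have hCr : (1 : ℝ) ≤ C := by exact_mod_cast hC1
  refine ⟨9 * C * (2 * C + 1) ^ 3, by positivity, ?_⟩
  intro Q hQ
  set N : ℕ := ∏ q ∈ Q, q with hN
  refine ⟨(N : ℝ) ^ 2 + 1, fun X hX => ?_⟩
  have hX0 : 0 ≤ X := by nlinarith [sq_nonneg (N : ℝ)]
  have hCX : (N : ℝ) ^ 2 ≤ C * X := by nlinarith [sq_nonneg (N : ℝ)]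
  have hCX0 : 0 ≤ (C : ℝ) * X := by positivity
  set L : ℕ := ⌊Real.sqrt (C * X)⌋₊ with hL
  have hNL : N ≤ L := by
    apply Nat.le_floor
    exact Real.le_sqrt_of_sq_le hCX
  have hL2 : (L : ℝ) ^ 2 ≤ C * X := by
    have h1 : (L : ℝ) ≤ Real.sqrt (C * X) := Nat.floor_le (Real.sqrt_nonneg _)
    calc (L : ℝ) ^ 2 ≤ Real.sqrt (C * X) ^ 2 := pow_le_pow_left₀ (by positivity) h1 2
      _ = C * X := Real.sq_sqrt hCX0
  have hbox : ∀ (v : ℤ) (d : ℕ), (d : ℝ) ≤ X → v ^ 2 ≤ C * d → v ∈ Icc (-(L : ℤ)) L := by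
    intro v d hd hv
    have h1 : ((v.natAbs : ℕ) : ℝ) ^ 2 ≤ C * X := by
      have h2 : ((v.natAbs : ℤ)) ^ 2 = v ^ 2 := Int.natAbs_sq v
      have h3 : ((v.natAbs : ℤ)) ^ 2 ≤ C * d := by rw [h2]; exact hv
      have h4 : ((v.natAbs : ℕ) : ℝ) ^ 2 ≤ C * d := by exact_mod_cast h3
      refine h4.trans ?_
      exact mul_le_mul_of_nonneg_left hd (by positivity)
    have h5 : v.natAbs ≤ L := Nat.le_floor (Real.le_sqrt_of_sq_le h1)
    rw [Finset.mem_Icc]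
    omega
  have hdata : ∀ e : ℕ × ℤ, ∃ φ : (Σ _ : ℤ × ℤ × ℤ, ℤ × ℤ), e ∈ rts t c X →
      (|φ.1.1| ≤ C ∧ |φ.1.2.1| ≤ C ∧ |φ.1.2.2| ≤ C ∧
      φ.1.2.1 ^ 2 - 4 * φ.1.1 * φ.1.2.2 = t ^ 2 - 4 * c ∧
      φ.2.1 ^ 2 + φ.2.2 ^ 2 ≤ C * e.1 ∧
      φ.1.1 * φ.2.1 ^ 2 + φ.1.2.1 * φ.2.1 * φ.2.2 + φ.1.2.2 * φ.2.2 ^ 2 = e.1 ∧
      ∃ u₁ u₂ k : ℤ, φ.2.1 * u₂ - φ.2.2 * u₁ = 1 ∧
        2 * φ.1.1 * φ.2.1 * u₁ + φ.1.2.1 * (φ.2.1 * u₂ + φ.2.2 * u₁) + 2 * φ.1.2.2 * φ.2.2 * u₂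
          = 2 * (e.2 + k * e.1) + t) := by
    intro e
    by_cases he : e ∈ rts t c X
    · obtain ⟨a, b, c', v₁, v₂, u₁, u₂, k, a1, a2, a3, a4, a5, a6, a7, a8⟩ := exists_data hC he
      exact ⟨⟨(a, b, c'), (v₁, v₂)⟩, fun _ => ⟨a1, a2, a3, a4, a6, a7, u₁, u₂, k, a5, a8⟩⟩
    · exact ⟨⟨(0, 0, 0), (0, 0)⟩, fun h => absurd h he⟩
  choose g hg using hdata
  set forms : Finset (ℤ × ℤ × ℤ) := ((Icc (-(C : ℤ)) C) ×ˢ ((Icc (-(C : ℤ)) C) ×ˢ
    (Icc (-(C : ℤ)) C))).filter (fun F => F.2.1 ^ 2 - 4 * F.1 * F.2.2 = t ^ 2 - 4 * c) with hforms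
  have hfc : forms.card ≤ (2 * C + 1) ^ 3 := by
    refine (Finset.card_filter_le _ _).trans ?_
    rw [Finset.card_product, Finset.card_product, Int.card_Icc]
    have : ((C : ℤ) + 1 - -(C : ℤ)).toNat = 2 * C + 1 := by omega
    rw [this]
    apply le_of_eq
    ring
  have h1 : ((rts t c X).filter (fun e => ∀ q ∈ Q, ¬ q ∣ e.1)).card ≤
      (forms.sigma (fun F => Bq F.1 F.2.1 F.2.2 Q L)).card := by
    refine Finset.card_le_card_of_injOn g ?_ ?_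
    · intro e he
      simp only [coe_filter, Set.mem_ofPred_eq] at he
      obtain ⟨a1, a2, a3, a4, a6, a7, u₁, u₂, k, a5, a8⟩ := hg e he.1
      obtain ⟨m1, m2, m3, m4, m5⟩ := mem_rts.1 he.1
      rw [Finset.mem_coe, Finset.mem_sigma]
      refine ⟨?_, ?_⟩
      · rw [hforms]
        simp only [mem_filter, mem_product, Finset.mem_Icc]
        exact ⟨⟨abs_le.1 a1, abs_le.1 a2, abs_le.1 a3⟩, a4⟩
      · simp only [Bq, mem_filter, mem_product]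
        refine ⟨⟨hbox _ e.1 m2 ?_, hbox _ e.1 m2 ?_⟩, ?_⟩
        · nlinarith [sq_nonneg (g e).2.2]
        · nlinarith [sq_nonneg (g e).2.1]
        · intro q hq hd
          unfold Fq at hd
          rw [a7] at hd
          exact he.2 q hq (Int.natCast_dvd_natCast.1 hd)
    · intro e he f hf hef
      simp only [coe_filter, Set.mem_ofPred_eq] at he hf
      obtain ⟨-, -, -, -, -, a7, u₁, u₂, k, a5, a8⟩ := hg e he.1
      obtain ⟨-, -, -, -, -, b7, w₁, w₂, l, b5, b8⟩ := hg f hf.1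
      rw [← hef] at b7 b5 b8
      have hd : (e.1 : ℤ) = f.1 := a7.symm.trans b7
      have hd' : e.1 = f.1 := by exact_mod_cast hd
      obtain ⟨-, -, -, m4, m5⟩ := mem_rts.1 he.1
      obtain ⟨-, -, -, n4, n5⟩ := mem_rts.1 hf.1
      rw [← hd] at b8 n5
      exact Prod.ext hd' (data_inj a5 b5 a7 a8 b8 m4 m5 n4 n5)
  have hprod : 0 ≤ ∏ q ∈ Q, (1 - 1 / (q : ℝ)) := by
    refine Finset.prod_nonneg fun q hq => ?_
    have : (1 : ℝ) ≤ q := by exact_mod_cast (hQ q hq).1.pos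
    have : 1 / (q : ℝ) ≤ 1 := by
      rw [div_le_one (by linarith)]
      exact this
    linarith
  rw [Finset.card_sigma] at h1
  have hsum : ((∑ F ∈ forms, (Bq F.1 F.2.1 F.2.2 Q L).card : ℕ) : ℝ) ≤
      ∑ F ∈ forms, 9 * (L : ℝ) ^ 2 * ∏ q ∈ Q, (1 - 1 / (q : ℝ)) := by
    push_cast
    refine Finset.sum_le_sum fun F hF => ?_
    rw [hforms, mem_filter] at hF
    exact card_Bq (D := t ^ 2 - 4 * c) hQ hF.2 hNL
  calc (((rts t c X).filter (fun e => ∀ q ∈ Q, ¬ q ∣ e.1)).card : ℝ)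
      ≤ ((∑ F ∈ forms, (Bq F.1 F.2.1 F.2.2 Q L).card : ℕ) : ℝ) := by exact_mod_cast h1
    _ ≤ _ := hsum
    _ = forms.card * (9 * (L : ℝ) ^ 2 * ∏ q ∈ Q, (1 - 1 / (q : ℝ))) := by
        rw [Finset.sum_const, nsmul_eq_mul]
    _ ≤ ((2 * C + 1) ^ 3) * (9 * (C * X) * ∏ q ∈ Q, (1 - 1 / (q : ℝ))) := by
        have h3 : (forms.card : ℝ) ≤ (2 * C + 1) ^ 3 := by exact_mod_cast hfc
        refine mul_le_mul h3 ?_ (by positivity) (by positivity)
        refine mul_le_mul_of_nonneg_right ?_ hprod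
        linarith
    _ = _ := by ring

end Pool.Agent.K9h53.LQ.Sift
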