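import Pool.Agent.K9h53.LQ.Stm
import Pool.Agent.K9h53.LQ.Sift
import Pool.Agent.W29.GT.Ve
import Pool.Agent.W571.GT.Rep
import Pool.Agent.W500.GT.RestB
import Pool.Agent.W78.GS.Basic
import Pool.Agent.Helper112.Arith

/-!
Project LQ (helper53): from triples to values of `a t^2 + b t + c₀` of both signs.
-/

set_option autoImplicit false

namespace Pool.Agent.K9h53.LQ

open Finset Filter
open Pool.Agent.W78.GT
open Pool.Agent.W78.GS (Pm)
open scoped NumberTheorySymbols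

section vet
variable {t c : ℤ}

open scoped Classical in
/-- few triples with a vertex in a small set -/
lemma vet_small (h : S_VET t c) {κ : ℝ} (hκ : 0 < κ) : ∃ ε : ℝ, 0 < ε ∧ ∀ (X : ℝ)
    (V : Finset (ℕ × ℤ)), 1 ≤ X → V ⊆ rts t c X → (V.card : ℝ) ≤ ε * X →
    (((tri t c X X).filter (fun e => vx e ∈ V ∨ vy e ∈ V)).card : ℝ) ≤ κ * X := by
  obtain ⟨C, hC, h⟩ := h
  set κ' : ℝ := min 1 (κ / (2 * C)) with hκ'
  have h0 : 0 < κ' := lt_min one_pos (by positivity)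
  have h1 : κ' ≤ 1 := min_le_left _ _
  have h2 : κ' ≤ κ / (2 * C) := min_le_right _ _
  refine ⟨κ * κ' / (2 * C), by positivity, fun X V hX hV hc => ?_⟩
  refine (h κ' X V h0 h1 hX hV).trans ?_
  have h3 : (V.card : ℝ) / κ' ≤ κ * X / (2 * C) := by
    rw [div_le_iff₀ h0]
    refine hc.trans (le_of_eq ?_)
    ring
  have h4 : κ' * X ≤ κ / (2 * C) * X := mul_le_mul_of_nonneg_right h2 (by linarith)
  calc C * (κ' * X + (V.card : ℝ) / κ') ≤ C * (κ / (2 * C) * X + κ * X / (2 * C)) := by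
        apply mul_le_mul_of_nonneg_left _ hC.le
        linarith
    _ = κ * X := by field_simp; ring

end vet

section prime
variable {D : ℤ}

/-- primes in a residue class modulo `4 |D|` with Jacobi symbol `1` -/
lemma sq_of_class {q w : ℕ} (hq : q.Prime) (hw : Odd w) (h : q ≡ w [MOD 4 * D.natAbs])
    (hD : D ≠ 0) (hJ : J(D | w) = 1) :
    q ≠ 2 ∧ ∃ s : ZMod q, s * s = (D : ZMod q) := by
  have : Fact q.Prime := ⟨hq⟩
  have hodd : Odd q := by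
    have h2 : q ≡ w [MOD 2] := h.of_dvd (by
      exact dvd_mul_of_dvd_left (by norm_num) _)
    rw [Nat.odd_iff] at hw ⊢
    rw [← hw]
    exact h2
  have hq2 : q ≠ 2 := by
    rintro rfl
    exact absurd hodd (by decide)
  refine ⟨hq2, ?_⟩
  have h1 : J(D | q) = 1 := by
    rw [jacobiSym.mod_right D hodd]
    have h3 : q % (4 * D.natAbs) = w % (4 * D.natAbs) := h
    rw [h3, ← jacobiSym.mod_right D hw]
    exact hJ
  rw [← jacobiSym.legendreSym.to_jacobiSym] at h1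
  have h5 : (D : ZMod q) ≠ 0 := by
    intro h6
    rw [(legendreSym.eq_zero_iff q D).2 h6] at h1
    exact one_ne_zero h1.symm
  obtain ⟨s, hs⟩ := (legendreSym.eq_one_iff q h5).1 h1
  exact ⟨s, hs.symm⟩

end prime

variable {g : ℕ → ℤ} {a b c₀ k r μ : ℤ}

/-- the two values belonging to a good triple -/
lemma two_values (hg : Pm g) (ha : 0 < a) (hD : 0 < b ^ 2 - 4 * (a * c₀)) (hk : 0 < k)
    {δ C₁ Qm : ℝ} (hδ : 0 < δ) (hδ1 : δ ≤ 1) (hC₁ : 1 ≤ C₁) {X : ℝ}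
    (hX : k * ((b ^ 2 - 4 * (a * c₀) : ℤ) + |(b : ℝ)| + 2 * a + 1) / δ ≤ X)
    {e : Tr} (he : e ∈ tri b (a * c₀) X X) (hc : Cnd g a b k r μ e)
    (hδA : δ * X ≤ (e.1 : ℝ)) (hδA' : δ * X ≤ ((nA b k r e.1 e.2.1 e.2.2 : ℤ) : ℝ))
    (hA' : ((nA b k r e.1 e.2.1 e.2.2 : ℤ) : ℝ) ≤ C₁ * X)
    {q : ℕ} (hq : 4 / δ ≤ q) (hqm : (q : ℝ) ≤ Qm) (hqe : q ∣ e.1)
    (hqr : k * a ∣ q * (r - k * μ) - 1) :
    ∃ (t₁ t₂ d m : ℕ), 1 ≤ t₁ ∧ 1 ≤ t₂ ∧ 1 ≤ d ∧ 1 ≤ m ∧ e.1 = d * q ∧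
      0 < fQ a b c₀ t₁ ∧ 0 < fQ a b c₀ t₂ ∧ (d : ℤ) * m = fQ a b c₀ t₁ ∧
      (q * nA b k r e.1 e.2.1 e.2.2) * m = fQ a b c₀ t₂ ∧
      g (fQ a b c₀ t₁).toNat * g (fQ a b c₀ t₂).toNat = -1 ∧
      k * (2 * a * t₁ + b) = nB b k r e.1 e.2.1 - 2 * d ∧
      k * (2 * a * t₂ + b) = 2 * q * nA b k r e.1 e.2.1 e.2.2 - nB b k r e.1 e.2.1 ∧
      (m : ℝ) ≤ (2 * C₁ + 2 * Qm * C₁ + k ^ 2 * (b ^ 2 - 4 * (a * c₀) : ℤ) + |(b : ℝ)|) * X ∧
      0 < 2 * a * t₁ + b ∧ 0 < 2 * a * t₂ + b := by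
  obtain ⟨a1, a2, a3, a4, a5, a6⟩ := mem_tri.1 he
  obtain ⟨d, hd⟩ := hqe
  have hd' : e.1 = d * q := by rw [hd, mul_comm]
  obtain ⟨D, hDd⟩ : ∃ D : ℤ, D = b ^ 2 - 4 * (a * c₀) := ⟨_, rfl⟩
  rw [← hDd] at hD hX ⊢
  have haR : (1 : ℝ) ≤ a := by exact_mod_cast ha
  have hkR : (1 : ℝ) ≤ k := by exact_mod_cast hk
  have hDR : (1 : ℝ) ≤ D := by exact_mod_cast hD
  have hbR : 0 ≤ |(b : ℝ)| := abs_nonneg _
  have hX0 : 1 ≤ X := by
    refine le_trans ?_ hX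
    rw [one_le_div hδ]
    nlinarith
  have hqpos : (0 : ℝ) < q := lt_of_lt_of_le (by positivity) hq
  have hqn : 0 < q := by exact_mod_cast hqpos
  have hdn : 0 < d := by
    rcases Nat.eq_zero_or_pos d with h | h
    · rw [h, zero_mul] at hd'
      omega
    · exact h
  have hA0 : (0 : ℤ) < e.1 := by exact_mod_cast a1
  have hQp : (e.1 : ℤ) * e.2.2 = e.2.1 ^ 2 + b * e.2.1 + a * c₀ := a5
  obtain ⟨t₁, t₂, m, ht, hf1, hf2, hB1, hB2⟩ := rel (k := k) (r := r) (μ := μ) ha.ne' hQp hc.r1 hc.r2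
    (q := q) (d := d) (by exact_mod_cast hd') hqr
  obtain ⟨A', hA'd⟩ : ∃ A' : ℤ, A' = nA b k r e.1 e.2.1 e.2.2 := ⟨_, rfl⟩
  obtain ⟨B, hBd⟩ : ∃ B : ℤ, B = nB b k r e.1 e.2.1 := ⟨_, rfl⟩
  have hsq : B ^ 2 = 4 * e.1 * A' + k ^ 2 * D := by
    rw [hBd, hA'd, hDd]
    exact nB_sq hQp
  have hpos : 0 < A' := by rw [hA'd]; exact hc.pos
  have hBpos : 0 ≤ B := by rw [hBd]; exact hc.Bpos
  have hsg : g e.1 ≠ g A'.toNat := by rw [hA'd]; exact hc.sg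
  rw [← hA'd] at hf2 hB2 hδA' hA'
  rw [← hBd] at hB1 hB2
  rw [← hA'd, ← hBd]
  -- real estimates
  have hsqR : (B : ℝ) ^ 2 = 4 * e.1 * A' + k ^ 2 * D := by exact_mod_cast hsq
  have hAR : (0 : ℝ) < e.1 := by exact_mod_cast a1
  have hA'R : (0 : ℝ) < A' := by exact_mod_cast hpos
  have hBR : (0 : ℝ) ≤ B := by exact_mod_cast hBpos
  have hδX : 0 < δ * X := by positivity
  have hBlow : 2 * (δ * X) ≤ B := by
    have h1 : (2 * (δ * X)) ^ 2 ≤ (B : ℝ) ^ 2 := by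
      rw [hsqR]
      have h2 : (δ * X) * (δ * X) ≤ (e.1 : ℝ) * A' :=
        mul_le_mul hδA hδA' hδX.le hAR.le
      have h3 : 0 ≤ (k : ℝ) ^ 2 * D := by positivity
      nlinarith
    exact (pow_le_pow_iff_left₀ (by positivity) hBR two_ne_zero).1 h1
  have hdX : 2 * (d : ℝ) ≤ δ * X := by
    have h1 : (d : ℝ) * q = e.1 := by rw [hd']; push_cast; ring
    have h2 : (d : ℝ) * (4 / δ) ≤ X := by
      refine le_trans ?_ a2
      rw [← h1]
      exact mul_le_mul_of_nonneg_left hq (Nat.cast_nonneg _)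
    rw [mul_div_assoc', div_le_iff₀ hδ] at h2
    linarith
  have hXδ : k * (D + |(b : ℝ)| + 2 * a + 1) ≤ δ * X := by
    rw [div_le_iff₀ hδ] at hX
    linarith
  have hB1R : (k : ℝ) * (2 * a * t₁ + b) = B - 2 * d := by exact_mod_cast hB1
  have hB2R : (k : ℝ) * (2 * a * t₂ + b) = 2 * q * A' - B := by exact_mod_cast hB2
  have hk0 : (0 : ℝ) < k := by linarith
  have hlow : D + |(b : ℝ)| + 2 * a + 1 ≤ 2 * a * t₁ + b := by
    have h1 : (k : ℝ) * (D + |(b : ℝ)| + 2 * a + 1) ≤ k * (2 * a * t₁ + b) := by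
      rw [hB1R]; linarith
    exact le_of_mul_le_mul_left h1 hk0
  have hble := le_abs_self (b : ℝ)
  have hbge := neg_abs_le (b : ℝ)
  have ht1pos : 0 < t₁ := by
    by_contra hcon
    push Not at hcon
    have h1 : (t₁ : ℝ) ≤ 0 := by exact_mod_cast hcon
    have h2 : 2 * (a : ℝ) * t₁ ≤ 0 := mul_nonpos_of_nonneg_of_nonpos (by linarith) h1
    linarith
  have hsq1 : (2 * a * t₁ + b) ^ 2 = 4 * a * (a * t₁ ^ 2 + b * t₁ + c₀) + D := by
    rw [hDd]; ring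
  have hlowZ : D + |b| + 2 * a + 1 ≤ 2 * a * t₁ + b := by
    have : ((D + |b| + 2 * a + 1 : ℤ) : ℝ) ≤ ((2 * a * t₁ + b : ℤ) : ℝ) := by
      push_cast
      linarith
    exact_mod_cast this
  have hf1pos : 0 < a * t₁ ^ 2 + b * t₁ + c₀ := by
    have h1 : D < (2 * a * t₁ + b) ^ 2 := by
      have h2 : D + 1 ≤ 2 * a * t₁ + b := by
        have := abs_nonneg b
        linarith
      nlinarith
    rw [hsq1] at h1
    have h2 : 0 < 4 * a * (a * t₁ ^ 2 + b * t₁ + c₀) := by linarith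
    exact (mul_pos_iff_of_pos_left (by linarith)).1 h2
  have hdZ : (0 : ℤ) < d := by exact_mod_cast hdn
  have hqZ : (0 : ℤ) < q := by exact_mod_cast hqn
  have hm : 0 < m := by
    rw [hf1] at hf1pos
    exact (mul_pos_iff_of_pos_left hdZ).1 hf1pos
  have hf2pos : 0 < a * t₂ ^ 2 + b * t₂ + c₀ := by
    rw [hf2]
    positivity
  have ht12 : t₁ ≤ t₂ := by
    rw [ht]
    have : 0 ≤ k * m := by positivity
    linarith
  have ht2pos : 0 < t₂ := by linarith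
  -- upper bounds
  have hBup : (B : ℝ) ≤ 2 * C₁ * X + k ^ 2 * D := by
    have h1 : (B : ℝ) ^ 2 ≤ (2 * C₁ * X + k ^ 2 * D) ^ 2 := by
      rw [hsqR]
      have h2 : (e.1 : ℝ) * A' ≤ X * (C₁ * X) := mul_le_mul a2 hA' hA'R.le (by linarith)
      have h3 : 1 ≤ (k : ℝ) ^ 2 * D := by
        have : 1 ≤ (k : ℝ) ^ 2 := one_le_pow₀ hkR
        nlinarith
      have h4 : (k : ℝ) ^ 2 * D ≤ ((k : ℝ) ^ 2 * D) ^ 2 := by nlinarith
      have h5 : X * (C₁ * X) ≤ (C₁ * X) ^ 2 := by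
        have : X ≤ C₁ * X := by nlinarith
        nlinarith [mul_nonneg (show 0 ≤ C₁ by linarith) (show 0 ≤ X by linarith)]
      have h6 : 0 ≤ C₁ * X * ((k : ℝ) ^ 2 * D) := by positivity
      nlinarith
    exact (pow_le_pow_iff_left₀ hBR (by positivity) two_ne_zero).1 h1
  have hgen : ∀ (t : ℤ) (R : ℝ), 0 < t → 0 ≤ 2 * (a : ℝ) * t + b → (k : ℝ) * (2 * a * t + b) ≤ R →
      (t : ℝ) ≤ R + |(b : ℝ)| := by
    intro t R ht0 hs hR
    have htR : (1 : ℝ) ≤ t := by exact_mod_cast ht0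
    have h1 : 2 * (a : ℝ) * t + b ≤ k * (2 * a * t + b) := le_mul_of_one_le_left hs hkR
    have h2 : (t : ℝ) ≤ 2 * a * t := by nlinarith
    linarith
  have hs1 : 0 ≤ 2 * (a : ℝ) * t₁ + b := by linarith
  have ht12R : (t₁ : ℝ) ≤ t₂ := by exact_mod_cast ht12
  have hs2 : 0 ≤ 2 * (a : ℝ) * t₂ + b := by
    have : 2 * (a : ℝ) * t₁ ≤ 2 * a * t₂ := mul_le_mul_of_nonneg_left ht12R (by linarith)
    linarith
  have hdR : (0 : ℝ) ≤ d := Nat.cast_nonneg _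
  have hQm0 : 0 < Qm := hqpos.trans_le hqm
  have hkD : 0 ≤ (k : ℝ) ^ 2 * D := by positivity
  have hup1 : (t₁ : ℝ) ≤ (2 * C₁ + 2 * Qm * C₁ + k ^ 2 * D + |(b : ℝ)|) * X := by
    have h1 := hgen t₁ (2 * C₁ * X + k ^ 2 * D) ht1pos hs1 (by rw [hB1R]; linarith)
    have h2 : 0 ≤ 2 * Qm * C₁ * X := by positivity
    nlinarith [mul_nonneg hkD (show 0 ≤ X - 1 by linarith),
      mul_nonneg hbR (show 0 ≤ X - 1 by linarith)]
  have hup2 : (t₂ : ℝ) ≤ (2 * C₁ + 2 * Qm * C₁ + k ^ 2 * D + |(b : ℝ)|) * X := by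
    have h3 : (q : ℝ) * A' ≤ Qm * (C₁ * X) := mul_le_mul hqm hA' hA'R.le hQm0.le
    have h1 := hgen t₂ (2 * (Qm * (C₁ * X))) ht2pos hs2 (by rw [hB2R]; linarith)
    have h2 : 0 ≤ 2 * C₁ * X := by positivity
    nlinarith [mul_nonneg hkD (show 0 ≤ X by linarith),
      mul_nonneg hbR (show 0 ≤ X - 1 by linarith)]
  -- the signs
  have hsign : g (fQ a b c₀ t₁).toNat * g (fQ a b c₀ t₂).toNat = -1 := by
    have e1 : (fQ a b c₀ t₁).toNat = d * m.toNat := by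
      unfold fQ
      rw [hf1, Int.toNat_mul hdZ.le hm.le, Int.toNat_natCast]
    have e2 : (fQ a b c₀ t₂).toNat = m.toNat * (q * A'.toNat) := by
      unfold fQ
      rw [hf2, Int.toNat_mul hm.le (by positivity), Int.toNat_mul hqZ.le hpos.le,
        Int.toNat_natCast]
    have hm0 : m.toNat ≠ 0 := by omega
    have hA'0 : A'.toNat ≠ 0 := by omega
    rw [e1, e2, hg.mul hdn.ne' hm0, hg.mul hm0 (mul_ne_zero hqn.ne' hA'0), hg.mul hqn.ne' hA'0]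
    have h1 : g e.1 = g d * g q := by rw [hd', hg.mul hdn.ne' hqn.ne']
    have h2 := (hg.eq_iff _ _).1 hsg
    have h3 := hg.mul_self m.toNat
    rw [h1] at h2
    calc g d * g m.toNat * (g m.toNat * (g q * g A'.toNat)) =
        (g m.toNat * g m.toNat) * (g d * g q * g A'.toNat) := by ring
      _ = -1 := by rw [h3, h2]; norm_num
  have c1 : ((t₁.toNat : ℕ) : ℤ) = t₁ := Int.toNat_of_nonneg ht1pos.le
  have c2 : ((t₂.toNat : ℕ) : ℤ) = t₂ := Int.toNat_of_nonneg ht2pos.le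
  have c3 : ((m.toNat : ℕ) : ℤ) = m := Int.toNat_of_nonneg hm.le
  have c3R : ((m.toNat : ℕ) : ℝ) = m := by exact_mod_cast c3
  refine ⟨t₁.toNat, t₂.toNat, d, m.toNat, by omega, by omega, hdn, by omega, hd', ?_, ?_, ?_, ?_,
    ?_, ?_, ?_, ?_, ?_, ?_⟩
  · rw [c1]; exact hf1pos
  · rw [c2]; exact hf2pos
  · rw [c1, c3]; unfold fQ; exact hf1.symm
  · rw [c2, c3]; unfold fQ; rw [hf2]; ring
  · rw [c1, c2]; exact hsign
  · rw [c1]; exact hB1
  · rw [c2]; exact hB2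
  · rw [c3R]
    refine le_trans ?_ hup2
    have h1 : m ≤ t₂ := by
      rw [ht]
      have : m ≤ k * m := le_mul_of_one_le_left hm.le hk
      linarith
    exact_mod_cast h1
  · rw [c1]
    have := abs_nonneg b
    linarith
  · rw [c2]
    have h1 : 2 * a * t₁ ≤ 2 * a * t₂ := mul_le_mul_of_nonneg_left ht12 (by linarith)
    have := abs_nonneg b
    linarith

lemma not_sq_mul {D k : ℤ} (hk : k ≠ 0) (h : ¬ IsSquare D) : ¬ IsSquare (k ^ 2 * D) := by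
  rintro ⟨m, hm⟩
  apply h
  have h1 : k ^ 2 ∣ m ^ 2 := ⟨D, by rw [pow_two m, ← hm]⟩
  rw [Int.pow_dvd_pow_iff two_ne_zero] at h1
  obtain ⟨l, rfl⟩ := h1
  refine ⟨l, ?_⟩
  have h2 : k ^ 2 * D = k ^ 2 * (l * l) := by rw [hm]; ring
  exact mul_left_cancel₀ (pow_ne_zero 2 hk) h2

/-- upper bound for the second norm -/
lemma nA_le (hD : 0 < b ^ 2 - 4 * (a * c₀)) (hk : 0 < k) {X : ℝ} (hX : 1 ≤ X) {e : Tr}
    (he : e ∈ tri b (a * c₀) X X) :
    ((nA b k r e.1 e.2.1 e.2.2 : ℤ) : ℝ) ≤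
      ((|(r : ℝ)| + k) ^ 2 + |(r : ℝ)| * k * (b ^ 2 - 4 * (a * c₀) : ℤ) + 1) * X := by
  obtain ⟨a1, a2, a3, a4, a5, a6⟩ := mem_tri.1 he
  have h1 := disc_tri he
  obtain ⟨D, hDd⟩ : ∃ D : ℤ, D = b ^ 2 - 4 * (a * c₀) := ⟨_, rfl⟩
  rw [← hDd] at hD h1 ⊢
  have hDR : (1 : ℝ) ≤ D := by exact_mod_cast hD
  have hkR : (1 : ℝ) ≤ k := by exact_mod_cast hk
  have hr0 : 0 ≤ |(r : ℝ)| := abs_nonneg _
  obtain ⟨β, hβ⟩ : ∃ β : ℤ, β = 2 * e.2.1 + b := ⟨_, rfl⟩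
  rw [← hβ] at h1 a6
  have hβR : (0 : ℝ) ≤ β := by exact_mod_cast a6
  have h1R : (β : ℝ) ^ 2 = 4 * (e.1 * e.2.2) + D := by exact_mod_cast h1
  have hβle : (β : ℝ) ≤ 2 * X + D := by
    have h2 : (β : ℝ) ^ 2 ≤ (2 * X + D) ^ 2 := by
      rw [h1R]
      have h3 : (e.1 : ℝ) * e.2.2 ≤ X * X := mul_le_mul a2 a4 (Nat.cast_nonneg _) (by linarith)
      have h4 : (D : ℝ) ≤ D ^ 2 := by nlinarith
      have h5 : 0 ≤ X * (D : ℝ) := by positivity
      nlinarith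
    exact (pow_le_pow_iff_left₀ hβR (by positivity) two_ne_zero).1 h2
  have e1 : ((nA b k r e.1 e.2.1 e.2.2 : ℤ) : ℝ) = (r : ℝ) ^ 2 * e.1 + r * k * β + k ^ 2 * e.2.2 := by
    unfold nA
    rw [hβ]
    push_cast
    ring
  rw [e1]
  have h2 : (r : ℝ) ^ 2 * e.1 ≤ |(r : ℝ)| ^ 2 * X := by
    rw [sq_abs]
    exact mul_le_mul_of_nonneg_left a2 (sq_nonneg _)
  have h3 : (r : ℝ) * k * β ≤ |(r : ℝ)| * k * (2 * X + D) := by
    have h4 : (r : ℝ) * k * β ≤ |(r : ℝ)| * k * β := by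
      apply mul_le_mul_of_nonneg_right _ hβR
      exact mul_le_mul_of_nonneg_right (le_abs_self _) (by linarith)
    exact h4.trans (mul_le_mul_of_nonneg_left hβle (by positivity))
  have h5 : (k : ℝ) ^ 2 * e.2.2 ≤ k ^ 2 * X := mul_le_mul_of_nonneg_left a4 (sq_nonneg _)
  have h6 : 0 ≤ |(r : ℝ)| * k * D * (X - 1) := mul_nonneg (by positivity) (by linarith)
  nlinarith

/-- the image of a triple -/
def Rl (a b c₀ k r : ℤ) (e : Tr) (x : (ℕ × ℕ) × (ℕ × ℕ)) : Prop :=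
  (x.1.1 = 0 ∧ ∃ t : ℕ, 0 < 2 * a * t + b ∧ (x.2.1 : ℤ) * x.2.2 = fQ a b c₀ t ∧
    e.1 = x.2.1 * x.1.2 ∧ k * (2 * a * t + b) = nB b k r e.1 e.2.1 - 2 * x.2.1) ∨
  (x.1.1 = 1 ∧ ∃ t : ℕ, 0 < 2 * a * t + b ∧ (x.2.1 : ℤ) * x.2.2 = fQ a b c₀ t ∧
    x.1.2 * nA b k r e.1 e.2.1 e.2.2 = x.2.1 ∧
    k * (2 * a * t + b) = 2 * x.1.2 * nA b k r e.1 e.2.1 e.2.2 - nB b k r e.1 e.2.1)

lemma fQ_inj (ha : 0 < a) {t t' : ℤ} (h1 : 0 < 2 * a * t + b) (h2 : 0 < 2 * a * t' + b)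
    (h : fQ a b c₀ t = fQ a b c₀ t') : t = t' := by
  unfold fQ at h
  have h3 : (t - t') * (a * (t + t') + b) = 0 := by linear_combination h
  rcases mul_eq_zero.1 h3 with h4 | h4
  · linarith
  · exfalso
    have h5 : (2 * a * t + b) + (2 * a * t' + b) = 2 * (a * (t + t') + b) := by ring
    rw [h4] at h5
    linarith

lemma rl_inj (ha : 0 < a) (hk : 0 < k) {X : ℝ} {e f : Tr} (he : e ∈ tri b (a * c₀) X X)
    (hf : f ∈ tri b (a * c₀) X X) (hpos : 0 < nA b k r e.1 e.2.1 e.2.2)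
    {x : (ℕ × ℕ) × (ℕ × ℕ)} (hq : 0 < x.1.2) (h1 : Rl a b c₀ k r e x)
    (h2 : Rl a b c₀ k r f x) : e = f := by
  obtain ⟨-, -, -, -, e5, -⟩ := mem_tri.1 he
  obtain ⟨-, -, -, -, f5, -⟩ := mem_tri.1 hf
  have hfin : (e.1 : ℤ) = f.1 → nB b k r e.1 e.2.1 = nB b k r f.1 f.2.1 → e = f := by
    intro h3 h4
    apply tri_ext he hf (by exact_mod_cast h3)
    unfold nB at h4
    rw [h3] at h4
    have h5 : k * (2 * e.2.1 + b) = k * (2 * f.2.1 + b) := by linarith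
    have h6 := mul_left_cancel₀ hk.ne' h5
    linarith
  rcases h1 with ⟨a1, t, at1, at2, a2, a3⟩ | ⟨a1, t, at1, at2, a2, a3⟩ <;>
    rcases h2 with ⟨b1, t', bt1, bt2, b2, b3⟩ | ⟨b1, t', bt1, bt2, b2, b3⟩
  · have htt := fQ_inj ha at1 bt1 (at2.symm.trans bt2)
    rw [htt] at a3
    refine hfin (by rw [a2, b2]) (by linarith)
  · omega
  · omega
  · have htt := fQ_inj ha at1 bt1 (at2.symm.trans bt2)
    rw [htt] at a3
    have hq' : (0 : ℤ) < x.1.2 := by exact_mod_cast hq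
    have h3 : nA b k r e.1 e.2.1 e.2.2 = nA b k r f.1 f.2.1 f.2.2 := by
      apply mul_left_cancel₀ hq'.ne'
      rw [a2, b2]
    rw [h3] at a3
    have h4 : nB b k r e.1 e.2.1 = nB b k r f.1 f.2.1 := by linarith
    have h5 := nB_sq (k := k) (r := r) (show (e.1 : ℤ) * e.2.2 = e.2.1 ^ 2 + b * e.2.1 + a * c₀ from e5)
    have h6 := nB_sq (k := k) (r := r) (show (f.1 : ℤ) * f.2.2 = f.2.1 ^ 2 + b * f.2.1 + a * c₀ from f5)
    rw [h4, h3] at h5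
    refine hfin ?_ h4
    have h7 : 4 * (e.1 : ℤ) * nA b k r f.1 f.2.1 f.2.2 = 4 * f.1 * nA b k r f.1 f.2.1 f.2.2 := by
      linarith
    rw [h3] at hpos
    have h8 := mul_right_cancel₀ hpos.ne' h7
    linarith

open scoped Classical in
theorem stb (hg : Pm g) (ha : 0 < a) (hD : 0 < b ^ 2 - 4 * (a * c₀))
    (hns : ¬ IsSquare (b ^ 2 - 4 * (a * c₀))) (hk : 0 < k) {w : ℕ}
    (hw : w.Coprime (4 * (b ^ 2 - 4 * (a * c₀)).natAbs * (k * a).natAbs))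
    (hwr : k * a ∣ w * (r - k * μ) - 1) (hJ : J((b ^ 2 - 4 * (a * c₀)) | w) = 1)
    {κ : ℝ} (hκ : 0 < κ) : ∃ C κ' X₀ : ℝ, 1 ≤ C ∧ 0 < κ' ∧ ∀ X : ℝ, X₀ ≤ X →
    κ * X ≤ (((tri b (a * c₀) X X).filter (fun e => Cnd g a b k r μ e)).card : ℝ) →
    ∀ s : ℤ, s = 1 ∨ s = -1 → κ' * X ≤ ((PB g a b c₀ s (C * X)).card : ℝ) := by
  have hrep := Pool.Agent.W571.GT.rep hns
  have hroot := Pool.Agent.W29.GT.root_of hrep
  have hvet := Pool.Agent.W29.GT.vet_of hroot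
  have hns' : ¬ IsSquare ((k * b) ^ 2 - 4 * (k ^ 2 * (a * c₀))) := by
    have e1 : (k * b) ^ 2 - 4 * (k ^ 2 * (a * c₀)) = k ^ 2 * (b ^ 2 - 4 * (a * c₀)) := by ring
    rw [e1]
    exact not_sq_mul hk.ne' hns
  have hroot' := Pool.Agent.W29.GT.root_of (Pool.Agent.W571.GT.rep hns')
  have hvet' := Pool.Agent.W29.GT.vet_of hroot'
  obtain ⟨Cs, hCs, hsift⟩ := Sift.siftt_of hrep
  obtain ⟨Cr, hCr, hroot⟩ := hroot
  obtain ⟨Cr', hCr', hroot'⟩ := hroot'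
  obtain ⟨D, hDd⟩ : ∃ D : ℤ, D = b ^ 2 - 4 * (a * c₀) := ⟨_, rfl⟩
  have hDR : (1 : ℝ) ≤ D := by rw [hDd]; exact_mod_cast hD
  have hkR : (1 : ℝ) ≤ k := by exact_mod_cast hk
  have haR : (1 : ℝ) ≤ a := by exact_mod_cast ha
  obtain ⟨C₁, hC₁⟩ : ∃ C₁ : ℝ, C₁ = (|(r : ℝ)| + k) ^ 2 +
    |(r : ℝ)| * k * (b ^ 2 - 4 * (a * c₀) : ℤ) + 1 := ⟨_, rfl⟩
  have hr0 : 0 ≤ |(r : ℝ)| := abs_nonneg _
  have hC₁1 : 1 ≤ C₁ := by
    rw [hC₁, ← hDd]
    have : 0 ≤ |(r : ℝ)| * k * D := by positivity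
    have : 0 ≤ (|(r : ℝ)| + k) ^ 2 := by positivity
    linarith
  obtain ⟨ε₁, hε₁, hv1⟩ := vet_small hvet (show 0 < κ / 8 by positivity)
  obtain ⟨ε₂, hε₂, hv2⟩ := vet_small hvet' (show 0 < κ / (8 * C₁) by positivity)
  obtain ⟨δ, hδd⟩ : ∃ δ : ℝ, δ = min 1 (min (ε₁ / Cr) (ε₂ / Cr')) := ⟨_, rfl⟩
  have hδ : 0 < δ := by rw [hδd]; exact lt_min one_pos (lt_min (by positivity) (by positivity))
  have hδ1 : δ ≤ 1 := by rw [hδd]; exact min_le_left _ _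
  have hδ2 : Cr * δ ≤ ε₁ := by
    have : δ ≤ ε₁ / Cr := by rw [hδd]; exact (min_le_right _ _).trans (min_le_left _ _)
    rw [le_div_iff₀ hCr] at this
    linarith
  have hδ3 : Cr' * δ ≤ ε₂ := by
    have : δ ≤ ε₂ / Cr' := by rw [hδd]; exact (min_le_right _ _).trans (min_le_right _ _)
    rw [le_div_iff₀ hCr'] at this
    linarith
  -- the primes
  have hM0 : 0 < 4 * (b ^ 2 - 4 * (a * c₀)).natAbs * (k * a).natAbs := by
    have h1 : 0 < (b ^ 2 - 4 * (a * c₀)).natAbs := Int.natAbs_pos.2 hD.ne'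
    have h2 : 0 < (k * a).natAbs := Int.natAbs_pos.2 (mul_pos hk ha).ne'
    positivity
  obtain ⟨Q, hQ, hQS, -⟩ := Pool.Agent.W500.GT.exists_QQ hM0 hw ⌈4 / δ⌉₊
    (S := |Real.log (Cs / ε₁)|) (abs_nonneg _)
  have hwodd : Odd w := by
    rw [← Nat.not_even_iff_odd]
    intro h
    have h1 : 2 ∣ Nat.gcd w (4 * (b ^ 2 - 4 * (a * c₀)).natAbs * (k * a).natAbs) :=
      Nat.dvd_gcd h.two_dvd ⟨2 * (b ^ 2 - 4 * (a * c₀)).natAbs * (k * a).natAbs, by ring⟩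
    rw [hw] at h1
    norm_num at h1
  have hQsq : ∀ q ∈ Q, q.Prime ∧ q ≠ 2 ∧
      ∃ s : ZMod q, s * s = ((b ^ 2 - 4 * (a * c₀) : ℤ) : ZMod q) := by
    intro q hq
    obtain ⟨h1, h2, h3⟩ := hQ q hq
    exact ⟨h1, sq_of_class h1 hwodd (h2.of_dvd (Dvd.intro _ rfl)) hD.ne' hJ⟩
  obtain ⟨Xs, hXs⟩ := hsift Q hQsq
  have hprod : Cs * ∏ q ∈ Q, (1 - 1 / (q : ℝ)) ≤ ε₁ := by
    have h1 := Pool.Agent.W500.GT.prod_le_exp Q (fun q hq => (hQ q hq).1)
    have h2 : Real.exp (-∑ q ∈ Q, 1 / (q : ℝ)) ≤ Real.exp (-|Real.log (Cs / ε₁)|) :=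
      Real.exp_le_exp.2 (by linarith)
    have h3 : Real.exp (-|Real.log (Cs / ε₁)|) ≤ ε₁ / Cs := by
      calc Real.exp (-|Real.log (Cs / ε₁)|) ≤ Real.exp (-Real.log (Cs / ε₁)) :=
            Real.exp_le_exp.2 (neg_le_neg (le_abs_self _))
        _ = ε₁ / Cs := by
            rw [Real.exp_neg, Real.exp_log (by positivity), inv_div]
    have h4 := (h1.trans h2).trans h3
    rw [le_div_iff₀ hCs] at h4
    linarith
  have hQr : ∀ q ∈ Q, k * a ∣ (q : ℤ) * (r - k * μ) - 1 := by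
    intro q hq
    obtain ⟨h1, h2, h3⟩ := hQ q hq
    have h4 : q ≡ w [MOD (k * a).natAbs] := h2.of_dvd (Dvd.intro_left _ rfl)
    have h5 : ((k * a).natAbs : ℤ) ∣ (w : ℤ) - q := (Nat.modEq_iff_dvd.1 h4)
    rw [Int.natAbs_dvd] at h5
    have h6 : (q : ℤ) * (r - k * μ) - 1 = (w * (r - k * μ) - 1) - (w - q) * (r - k * μ) := by ring
    rw [h6]
    exact dvd_sub hwr (Dvd.dvd.mul_right h5 _)
  have hQbig : ∀ q ∈ Q, 4 / δ ≤ (q : ℝ) := by
    intro q hq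
    have h1 := (hQ q hq).2.2
    have h2 : ((⌈4 / δ⌉₊ : ℕ) : ℝ) ≤ q := by exact_mod_cast h1.le
    exact (Nat.le_ceil _).trans h2
  obtain ⟨Qm, hQm⟩ : ∃ Qm : ℝ, Qm = ((∑ q ∈ Q, q : ℕ) : ℝ) := ⟨_, rfl⟩
  have hQle : ∀ q ∈ Q, (q : ℝ) ≤ Qm := by
    intro q hq
    rw [hQm]
    exact_mod_cast Finset.single_le_sum (f := fun q : ℕ => q) (fun _ _ => Nat.zero_le _) hq
  obtain ⟨C, hCd⟩ : ∃ C : ℝ, C = max 1 (2 * C₁ + 2 * Qm * C₁ + k ^ 2 * (b ^ 2 - 4 * (a * c₀) : ℤ) +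
    |(b : ℝ)|) := ⟨_, rfl⟩
  have hC1 : 1 ≤ C := by rw [hCd]; exact le_max_left _ _
  have hC2 : 2 * C₁ + 2 * Qm * C₁ + k ^ 2 * (b ^ 2 - 4 * (a * c₀) : ℤ) + |(b : ℝ)| ≤ C := by
    rw [hCd]; exact le_max_right _ _
  refine ⟨C, κ / (4 * (Q.card + 1)), max (max 1 Xs)
    (k * ((b ^ 2 - 4 * (a * c₀) : ℤ) + |(b : ℝ)| + 2 * a + 1) / δ), hC1, by positivity,
    fun X hX hcard s hs => ?_⟩
  have hX1 : 1 ≤ X := (le_max_left _ _).trans ((le_max_left _ _).trans hX)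
  have hX2 : Xs ≤ X := (le_max_right _ _).trans ((le_max_left _ _).trans hX)
  have hX3 : k * ((b ^ 2 - 4 * (a * c₀) : ℤ) + |(b : ℝ)| + 2 * a + 1) / δ ≤ X :=
    (le_max_right _ _).trans hX
  have hX0 : 0 < X := by linarith
  set G := (tri b (a * c₀) X X).filter (fun e => Cnd g a b k r μ e) with hG
  set good := G.filter (fun e => δ * X ≤ (e.1 : ℝ) ∧
    δ * X ≤ ((nA b k r e.1 e.2.1 e.2.2 : ℤ) : ℝ) ∧ ∃ q ∈ Q, q ∣ e.1) with hgood
  have hδX0 : 0 ≤ δ * X := by positivity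
  -- bad triples 1
  set V1 := rts b (a * c₀) (δ * X) with hV1
  have hV1s : V1 ⊆ rts b (a * c₀) X := by
    intro v hv
    obtain ⟨v1, v2, v3, v4, v5⟩ := mem_rts.1 hv
    exact mem_rts.2 ⟨v1, v2.trans (by nlinarith), v3, v4, v5⟩
  have hb1 := hv1 X V1 hX1 hV1s ((hroot _ hδX0).trans (by
    calc Cr * (δ * X) = (Cr * δ) * X := by ring
      _ ≤ ε₁ * X := mul_le_mul_of_nonneg_right hδ2 hX0.le))
  -- bad triples 3
  set V3 := (rts b (a * c₀) X).filter (fun v => ∀ q ∈ Q, ¬ q ∣ v.1) with hV3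
  have hb3 := hv1 X V3 hX1 (filter_subset _ _) ((hXs X hX2).trans
    (mul_le_mul_of_nonneg_right hprod hX0.le))
  -- bad triples 2
  set V2 := rts (k * b) (k ^ 2 * (a * c₀)) (δ * X) with hV2
  have hXC : X ≤ C₁ * X := by nlinarith
  have hV2s : V2 ⊆ rts (k * b) (k ^ 2 * (a * c₀)) (C₁ * X) := by
    intro v hv
    obtain ⟨v1, v2, v3, v4, v5⟩ := mem_rts.1 hv
    exact mem_rts.2 ⟨v1, v2.trans (by nlinarith), v3, v4, v5⟩
  have hb2 := hv2 (C₁ * X) V2 (hX1.trans hXC) hV2s ((hroot' _ hδX0).trans (by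
    calc Cr' * (δ * X) = (Cr' * δ) * X := by ring
      _ ≤ ε₂ * X := mul_le_mul_of_nonneg_right hδ3 hX0.le
      _ ≤ ε₂ * (C₁ * X) := mul_le_mul_of_nonneg_left hXC hε₂.le))
  set bad2 := G.filter (fun e => ((nA b k r e.1 e.2.1 e.2.2 : ℤ) : ℝ) < δ * X) with hbad2
  have hb2' : (bad2.card : ℝ) ≤ κ / 8 * X := by
    have h1 : bad2.card ≤ ((tri (k * b) (k ^ 2 * (a * c₀)) (C₁ * X) (C₁ * X)).filter
        (fun e => vx e ∈ V2 ∨ vy e ∈ V2)).card := by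
      refine Finset.card_le_card_of_injOn
        (fun e : Tr => (e.1, r * e.1 + k * e.2.1, (nA b k r e.1 e.2.1 e.2.2).toNat)) ?_ ?_
      · intro e he
        rw [Finset.mem_coe, hbad2, mem_filter, hG, mem_filter] at he
        obtain ⟨⟨he1, he2⟩, he3⟩ := he
        obtain ⟨a1, a2, a3, a4, a5, a6⟩ := mem_tri.1 he1
        have hp := he2.pos
        have hpR : (((nA b k r e.1 e.2.1 e.2.2).toNat : ℕ) : ℤ) = nA b k r e.1 e.2.1 e.2.2 :=
          Int.toNat_of_nonneg hp.le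
        have hpR' : (((nA b k r e.1 e.2.1 e.2.2).toNat : ℕ) : ℝ) =
            ((nA b k r e.1 e.2.1 e.2.2 : ℤ) : ℝ) := by exact_mod_cast hpR
        have hprod' : (e.1 : ℤ) * nA b k r e.1 e.2.1 e.2.2 =
            Qp (k * b) (k ^ 2 * (a * c₀)) (r * e.1 + k * e.2.1) := by
          have h5 : (e.1 : ℤ) * e.2.2 = e.2.1 ^ 2 + b * e.2.1 + a * c₀ := a5
          unfold nA Qp
          linear_combination k ^ 2 * h5
        rw [Finset.mem_coe, mem_filter]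
        have hp1 : 1 ≤ (nA b k r e.1 e.2.1 e.2.2).toNat := by
          have : (0 : ℤ) < ((nA b k r e.1 e.2.1 e.2.2).toNat : ℕ) := by rw [hpR]; exact hp
          exact_mod_cast this
        refine ⟨mem_tri.2 ⟨a1, a2.trans hXC, hp1, ?_, ?_, ?_⟩, Or.inr ?_⟩
        · simp only
          rw [hpR', hC₁]
          exact nA_le hD hk hX1 he1
        · simp only
          rw [hpR]; exact hprod'
        · have h6 := he2.Bpos
          unfold nB at h6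
          simp only
          linarith
        · unfold vy
          simp only
          rw [hV2]
          refine root_mem hp1 ?_ ?_
          · rw [hpR']; exact he3.le
          · rw [hpR]
            exact ⟨e.1, by rw [← hprod']; ring⟩
      · intro e he f hf hef
        rw [Finset.mem_coe, hbad2, mem_filter, hG, mem_filter] at he hf
        simp only [Prod.mk.injEq] at hef
        obtain ⟨h1, h2, -⟩ := hef
        apply tri_ext he.1.1 hf.1.1 h1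
        rw [h1] at h2
        have h3 : k * e.2.1 = k * f.2.1 := by linarith
        exact mul_left_cancel₀ hk.ne' h3
    calc (bad2.card : ℝ) ≤ _ := Nat.cast_le.2 h1
      _ ≤ κ / (8 * C₁) * (C₁ * X) := hb2
      _ = κ / 8 * X := by field_simp
  -- many good triples
  have hgoodcard : κ / 2 * X ≤ (good.card : ℝ) := by
    have hsub : G ⊆ good ∪ ((tri b (a * c₀) X X).filter (fun e => vx e ∈ V1 ∨ vy e ∈ V1) ∪
        (bad2 ∪ (tri b (a * c₀) X X).filter (fun e => vx e ∈ V3 ∨ vy e ∈ V3))) := by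
      intro e he
      have he' := he
      rw [hG, mem_filter] at he'
      obtain ⟨he1, he2⟩ := he'
      obtain ⟨a1, a2, a3, a4, a5, a6⟩ := mem_tri.1 he1
      by_cases c1 : δ * X ≤ (e.1 : ℝ)
      · by_cases c2 : δ * X ≤ ((nA b k r e.1 e.2.1 e.2.2 : ℤ) : ℝ)
        · by_cases c3 : ∃ q ∈ Q, q ∣ e.1
          · exact mem_union_left _ (mem_filter.2 ⟨he, c1, c2, c3⟩)
          · refine mem_union_right _ (mem_union_right _ (mem_union_right _ ?_))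
            rw [mem_filter]
            refine ⟨he1, Or.inl ?_⟩
            rw [hV3, mem_filter]
            refine ⟨vx_mem he1, ?_⟩
            push Not at c3
            exact c3
        · refine mem_union_right _ (mem_union_right _ (mem_union_left _ ?_))
          rw [hbad2, mem_filter]
          exact ⟨he, not_le.1 c2⟩
      · refine mem_union_right _ (mem_union_left _ ?_)
        rw [mem_filter]
        refine ⟨he1, Or.inl ?_⟩
        rw [hV1]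
        exact root_mem a1 (not_le.1 c1).le ⟨e.2.2, a5.symm⟩
    have h1 := (card_le_card hsub).trans ((card_union_le _ _).trans
      (Nat.add_le_add_left ((card_union_le _ _).trans
        (Nat.add_le_add_left (card_union_le _ _) _)) _))
    have h2 : (G.card : ℝ) ≤ good.card + ((((tri b (a * c₀) X X).filter
        (fun e => vx e ∈ V1 ∨ vy e ∈ V1)).card : ℝ) + ((bad2.card : ℝ) +
        (((tri b (a * c₀) X X).filter (fun e => vx e ∈ V3 ∨ vy e ∈ V3)).card : ℝ))) := by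
      exact_mod_cast h1
    have h3 : 0 ≤ κ / 8 * X := by positivity
    linarith
  -- the map
  have hfloor : ∀ x : ℕ, (x : ℝ) ≤ (2 * C₁ + 2 * Qm * C₁ + k ^ 2 * (b ^ 2 - 4 * (a * c₀) : ℤ) +
      |(b : ℝ)|) * X → x ≤ ⌊C * X⌋₊ := by
    intro x hx
    exact Nat.le_floor (hx.trans (mul_le_mul_of_nonneg_right hC2 hX0.le))
  have hex : ∀ e : Tr, ∃ x : (ℕ × ℕ) × (ℕ × ℕ), e ∈ good →
      (x ∈ ((range 2) ×ˢ Q) ×ˢ (PB g a b c₀ s (C * X)) ∧ Rl a b c₀ k r e x) := by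
    intro e
    by_cases he : e ∈ good
    · have he' := he
      rw [hgood, mem_filter, hG, mem_filter] at he'
      obtain ⟨⟨he1, he2⟩, he3, he4, q, hq, hqe⟩ := he'
      have hA'le : ((nA b k r e.1 e.2.1 e.2.2 : ℤ) : ℝ) ≤ C₁ * X := by
        rw [hC₁]; exact nA_le hD hk hX1 he1
      obtain ⟨t₁, t₂, d, m, f1, f2, fd, fm, f3, f4, f5, f6, f7, f8, f9, f10, f11, f12, f13⟩ :=
        two_values hg ha hD hk hδ hδ1 hC₁1 hX3 he1 he2 he3 he4 hA'le (hQbig q hq) (hQle q hq) hqe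
          (hQr q hq)
      obtain ⟨a1, a2, a3, a4, a5, a6⟩ := mem_tri.1 he1
      have hqp : q.Prime := (hQ q hq).1
      have hcase : g (fQ a b c₀ t₁).toNat = s ∨ g (fQ a b c₀ t₂).toNat = s := by
        have hh : ∀ x y : ℤ, (x = 1 ∨ x = -1) → (y = 1 ∨ y = -1) → x * y = -1 →
            (s = 1 ∨ s = -1) → x = s ∨ y = s := by
          rintro x y (rfl | rfl) (rfl | rfl) h1 (h2 | h2) <;> omega
        exact hh _ _ (hg.val _) (hg.val _) f8 hs
      have hDR' : (0 : ℝ) ≤ k ^ 2 * (b ^ 2 - 4 * (a * c₀) : ℤ) := by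
        rw [← hDd]; positivity
      have hbb := abs_nonneg (b : ℝ)
      have hQm0 : 0 ≤ Qm := by rw [hQm]; positivity
      have hdle : (d : ℝ) ≤ (2 * C₁ + 2 * Qm * C₁ + k ^ 2 * (b ^ 2 - 4 * (a * c₀) : ℤ) +
          |(b : ℝ)|) * X := by
        have h1 : d ≤ e.1 := by rw [f3]; exact Nat.le_mul_of_pos_right _ hqp.pos
        have h2 : (d : ℝ) ≤ e.1 := by exact_mod_cast h1
        refine (h2.trans a2).trans (le_mul_of_one_le_left hX0.le ?_)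
        have h3 : 0 ≤ 2 * Qm * C₁ := by positivity
        linarith
      rcases hcase with h | h
      · refine ⟨((0, q), (d, m)), fun _ => ⟨?_, Or.inl ⟨rfl, t₁, f12, f6, f3, f9⟩⟩⟩
        rw [mem_product, mem_product]
        refine ⟨⟨by simp, hq⟩, ?_⟩
        unfold PB
        rw [mem_filter, mem_product, mem_Icc, mem_Icc]
        exact ⟨⟨⟨fd, hfloor d hdle⟩, fm, hfloor m f11⟩, t₁, f1, f4, f6, h⟩
      · have hpR : (((nA b k r e.1 e.2.1 e.2.2).toNat : ℕ) : ℤ) = nA b k r e.1 e.2.1 e.2.2 :=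
          Int.toNat_of_nonneg he2.pos.le
        have hpR' : (((nA b k r e.1 e.2.1 e.2.2).toNat : ℕ) : ℝ) =
            ((nA b k r e.1 e.2.1 e.2.2 : ℤ) : ℝ) := by exact_mod_cast hpR
        have hpp := he2.pos
        refine ⟨((1, q), (q * (nA b k r e.1 e.2.1 e.2.2).toNat, m)), fun _ => ⟨?_, Or.inr
          ⟨rfl, t₂, f13, ?_, ?_, f10⟩⟩⟩
        · rw [mem_product, mem_product]
          refine ⟨⟨by simp, hq⟩, ?_⟩
          unfold PB
          rw [mem_filter, mem_product, mem_Icc, mem_Icc]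
          refine ⟨⟨⟨?_, hfloor _ ?_⟩, fm, hfloor m f11⟩, t₂, f2, f5, ?_, h⟩
          · simp only
            exact Nat.mul_pos hqp.pos (by omega)
          · simp only
            rw [Nat.cast_mul, hpR']
            have h1 : (q : ℝ) * ((nA b k r e.1 e.2.1 e.2.2 : ℤ) : ℝ) ≤ Qm * (C₁ * X) :=
              mul_le_mul (hQle q hq) hA'le (by exact_mod_cast hpp.le) hQm0
            have h2 : Qm * (C₁ * X) ≤ (2 * C₁ + 2 * Qm * C₁ +
                k ^ 2 * (b ^ 2 - 4 * (a * c₀) : ℤ) + |(b : ℝ)|) * X := by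
              have h3 : 0 ≤ Qm * C₁ := by positivity
              have h4 : Qm * C₁ ≤ 2 * C₁ + 2 * Qm * C₁ +
                k ^ 2 * (b ^ 2 - 4 * (a * c₀) : ℤ) + |(b : ℝ)| := by linarith
              have h5 := mul_le_mul_of_nonneg_right h4 hX0.le
              linarith
            exact h1.trans h2
          · simp only
            push_cast
            rw [hpR]
            exact f7
        · simp only
          push_cast
          rw [hpR]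
          exact f7
        · simp only
          push_cast
          rw [hpR]
    · exact ⟨((0, 0), (0, 0)), fun h => absurd h he⟩
  choose φ hφ using hex
  have hmap : good.card ≤ (((range 2) ×ˢ Q) ×ˢ (PB g a b c₀ s (C * X))).card := by
    refine Finset.card_le_card_of_injOn φ (fun e he => (hφ e he).1) ?_
    intro e he f hf hef
    have h1 := (hφ e he).2
    have h2 := (hφ f hf).2
    have h3 := (hφ e he).1
    rw [← hef] at h2
    rw [mem_product, mem_product] at h3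
    have hq0 : 0 < (φ e).1.2 := (hQ _ h3.1.2).1.pos
    rw [Finset.mem_coe, hgood, mem_filter, hG, mem_filter] at he hf
    exact rl_inj ha hk he.1.1 hf.1.1 he.1.2.pos hq0 h1 h2
  rw [card_product, card_product, card_range] at hmap
  have hmapR : (good.card : ℝ) ≤ 2 * Q.card * ((PB g a b c₀ s (C * X)).card : ℝ) := by
    exact_mod_cast hmap
  have hPB0 : (0 : ℝ) ≤ ((PB g a b c₀ s (C * X)).card : ℝ) := Nat.cast_nonneg _
  have hQ0 : (0 : ℝ) ≤ Q.card := Nat.cast_nonneg _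
  rw [div_mul_eq_mul_div, div_le_iff₀ (by positivity)]
  have h1 : κ / 2 * X ≤ 2 * Q.card * ((PB g a b c₀ s (C * X)).card : ℝ) := hgoodcard.trans hmapR
  nlinarith

end Pool.Agent.K9h53.LQ
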