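import Pool.Agent.K9h53.LQ.Defs
import Pool.Agent.K9h53.LQ.Rel
import Pool.Agent.K9h53.LQ.Cls
import Pool.Agent.W78.GT.Defs

/-!
Project LQ (helper53): definitions and statements of the remaining parts.

The order is `ℤ[ω]`, `ω^2 = b ω - a c₀`, i.e. `Qd b (a c₀)`, of discriminant `b^2 - 4 a c₀`. As `a`
divides the norm form at `(0, y)`, the map `z ↦ z.re mod a` is multiplicative, and `χ (z.re)` is a
character of the elements if `χ` is a character modulo `a`.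
-/

set_option autoImplicit false

namespace Pool.Agent.K9h53.LQ

open Finset Filter
open Pool.Agent.W78
open Pool.Agent.W78.GA (Qd nm prim bg dt ip)
open Pool.Agent.W78.GR (tp Un fd ang pball)
open Pool.Agent.W78.GT (Tr tri)

/-- the polynomial -/
def fQ (a b c₀ n : ℤ) : ℤ := a * n ^ 2 + b * n + c₀

/-- the condition on the triples: `e` belongs to vectors `z`, `x` with `det (z, x) = 1`, and `g`
takes different values at the norms of `z` and `r z + k x`; `μ` gives the congruences modulo `a` -/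
structure Cnd (g : ℕ → ℤ) (a b k r μ : ℤ) (e : Tr) : Prop where
  pos : 0 < nA b k r e.1 e.2.1 e.2.2
  Bpos : 0 ≤ nB b k r e.1 e.2.1
  sg : g e.1 ≠ g (nA b k r e.1 e.2.1 e.2.2).toNat
  r1 : a ∣ e.1 * μ + e.2.1
  r2 : a ∣ e.1 * μ ^ 2 + (2 * e.2.1 + b) * μ + e.2.2

/-- for all large `X` many triples belong to one of finitely many data `(k, r, μ)` -/
def S_TRI (g : ℕ → ℤ) (χ : ℤ → ℤ) (a b c₀ : ℤ) : Prop :=
  ∃ (F : Finset (ℤ × ℤ × ℤ)) (κ X₀ : ℝ), 0 < κ ∧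
  (∀ x ∈ F, 0 < x.1 ∧ x.2.1 ≤ 0 ∧ IsCoprime x.2.1 x.1 ∧ χ (x.2.1 - x.1 * x.2.2) = 1) ∧
  ∀ X : ℝ, X₀ ≤ X → ∃ x ∈ F, κ * X ≤ (open scoped Classical in
    (((tri b (a * c₀) X X).filter (fun e => Cnd g a b x.1 x.2.1 x.2.2 e)).card : ℝ))

open scoped Classical in
/-- the pairs `(d, m)`, `d, m ≤ Y`, with `d m = a t^2 + b t + c₀` for some `t ≥ 1` and
`g (a t^2 + b t + c₀) = s` -/
noncomputable def PB (g : ℕ → ℤ) (a b c₀ s : ℤ) (Y : ℝ) : Finset (ℕ × ℕ) :=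
  ((Icc 1 ⌊Y⌋₊) ×ˢ (Icc 1 ⌊Y⌋₊)).filter (fun p => ∃ t : ℕ, 1 ≤ t ∧ 0 < fQ a b c₀ t ∧
    (p.1 : ℤ) * p.2 = fQ a b c₀ t ∧ g (fQ a b c₀ t).toNat = s)

/-- the conclusion: a positive proportion of the factorisations of the values of the polynomial
belongs to each sign -/
def S_FIN (g : ℕ → ℤ) (a b c₀ : ℤ) : Prop :=
  ∀ s : ℤ, s = 1 ∨ s = -1 → ∃ κ X₀ : ℝ, 0 < κ ∧ ∀ X : ℝ, X₀ ≤ X →
    κ * X ≤ ((PB g a b c₀ s X).card : ℝ)

variable {t c : ℤ}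

/-- Task A: the auxiliary element. To prove: if `4 c < t^2`, `t^2 - 4 c` is not a square, `0 < a`,
`a ∣ c`, `Ch a χ`, `SplOne (t^2 - 4 c) a χ`, `χ (-1) = 1`, then `S_U0 t c χ`. -/
def S_U0 (t c : ℤ) (χ : ℤ → ℤ) : Prop := ∃ u : Qd t c, tp u ∧
  Pool.Agent.H376R2.MR.lam (nm u) = -1 ∧ χ u.re = 1 ∧ ∀ n : ℕ, n ∣ nm u → χ n = 1

/-- Task C: the main frequency of the indicator function of the elements with first coordinate
coprime to `a` is not small, at many scales. To prove: if `Un t c η`, `0 < a`, `a ∣ c`, then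
`GR.S_A0 t c η → S_A0 η a`. -/
def S_A0 (η : (Qd t c)ˣ) (a : ℤ) : Prop := ∃ c₁ : ℝ, 0 < c₁ ∧ ∃ C : ℝ, 1 ≤ C ∧ ∃ X₀ : ℝ,
  ∀ X : ℝ, X₀ ≤ X → ∃ Y : ℝ, X / C ≤ Y ∧ Y ≤ X ∧ c₁ ≤ (open scoped Classical in
    ∑ z ∈ (pball η (Real.exp 1 * Y)).filter (fun z => IsCoprime z.re a), bg Y z)

open scoped Classical in
/-- pairs of close directions with different values of `g` and the same nonzero value of `χ` -/
noncomputable def near (g : ℕ → ℤ) (χ : ℤ → ℤ) (η : (Qd t c)ˣ) (u : Qd t c) (δ X : ℝ) :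
    Finset (Qd t c × Qd t c) :=
  (pball η X ×ˢ pball η X).filter (fun p => g (nm p.1) ≠ g (nm (u * p.2)) ∧
    χ p.1.re = χ p.2.re ∧ χ p.1.re ≠ 0 ∧
    ∃ j : ℤ, |ang η p.1 - ang η (u * p.2) + 2 * Real.pi * j| ≤ δ)

/-- many near pairs -/
def S_NEAR (g : ℕ → ℤ) (χ : ℤ → ℤ) (η : (Qd t c)ˣ) : Prop :=
  ∃ (u : Qd t c) (L κ X₀ : ℝ), tp u ∧ χ u.re = 1 ∧ (∀ n : ℕ, n ∣ nm u → χ n = 1) ∧
    0 ≤ L ∧ 0 < κ ∧ ∀ X : ℝ, X₀ ≤ X →
    κ * X ≤ ((near g χ η 1 (L / X) X).card : ℝ) ∨ κ * X ≤ ((near g χ η u (L / X) X).card : ℝ)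

/-- Task D: from near pairs to triples. To prove (`Pm g`, `0 < a`, `Ch a χ`): `S_D g χ a b c₀`. -/
def S_D (g : ℕ → ℤ) (χ : ℤ → ℤ) (a b c₀ : ℤ) : Prop :=
  ∀ η : (Qd b (a * c₀))ˣ, Un b (a * c₀) η → χ (η : Qd b (a * c₀)).re = 1 →
    S_NEAR g χ η → S_TRI g χ a b c₀

end Pool.Agent.K9h53.LQ
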